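import Mathlib

/-! Common zeros of polynomials in two variables. -/

set_option autoImplicit false

namespace Pool.Agent.Helper6.OD

open Polynomial

variable {M : Type} [Field M]

theorem ee_eq (p : M[X][X]) (x y : M) :
    p.evalEval x y = (p.map (evalRingHom x)).eval y := by
  rw [evalEval, ← coe_evalRingHom x, ← coe_evalRingHom (C y), eval_map, eval₂_eq_eval_map]
  induction p using Polynomial.induction_on with
  | C a => simp
  | add p q hp hq => simp only [map_add, Polynomial.map_add, eval_add, hp, hq]
  | monomial n a _ => simp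

theorem fin_aux {g : M[X]} (hg : g ≠ 0) {q : M[X][X]}
    (hq : ∀ u, g.eval u = 0 → q.map (evalRingHom u) ≠ 0) :
    {t : M × M | g.eval t.1 = 0 ∧ q.evalEval t.1 t.2 = 0}.Finite := by
  classical
  refine Set.Finite.subset (s := ⋃ u ∈ (g.roots.toFinset : Set M),
    (fun v => (u, v)) '' ((q.map (evalRingHom u)).roots.toFinset : Set M)) ?_ ?_
  · refine Set.Finite.biUnion (Finset.finite_toSet _) fun u _ => ?_
    exact (Finset.finite_toSet _).image _
  · rintro ⟨u, v⟩ ⟨h1, h2⟩
    simp only [Set.mem_iUnion]
    refine ⟨u, ?_, v, ?_, rfl⟩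
    · rw [Finset.mem_coe, Multiset.mem_toFinset, mem_roots hg]
      exact h1
    · rw [Finset.mem_coe, Multiset.mem_toFinset, mem_roots (hq u h1)]
      rw [IsRoot.def, ← ee_eq]
      exact h2

theorem X_sub_dvd {q : M[X][X]} {u : M} (h : q.map (evalRingHom u) = 0) :
    C (X - C u) ∣ q := by
  rw [C_dvd_iff_dvd_coeff]
  intro n
  rw [dvd_iff_isRoot, IsRoot.def]
  have := congrArg (fun r => r.coeff n) h
  simpa using this

/-- **Finitely many common zeros.** -/
theorem fin_zeros {F p : M[X][X]} (hF : Irreducible F) (hp : ¬ F ∣ p) :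
    {t : M × M | F.evalEval t.1 t.2 = 0 ∧ p.evalEval t.1 t.2 = 0}.Finite := by
  classical
  by_cases h0 : F.natDegree = 0
  · obtain ⟨f, rfl⟩ : ∃ f, F = C f := ⟨_, eq_C_of_natDegree_eq_zero h0⟩
    have hf0 : f ≠ 0 := by
      rintro rfl
      exact hF.ne_zero C_0
    refine (fin_aux (g := f) hf0 (q := p) ?_).subset ?_
    · intro u hu h1
      apply hp
      have hfi : Irreducible f := by
        refine ⟨fun h => hF.not_isUnit (h.map C), fun {a b} hab => ?_⟩
        have h2 := hF.isUnit_or_isUnit (a := C a) (b := C b) (by rw [← C_mul, ← hab])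
        rwa [isUnit_C, isUnit_C] at h2
      have h3 : X - C u ∣ f := dvd_iff_isRoot.2 hu
      have h4 : Associated (X - C u) f :=
        (irreducible_X_sub_C u).associated_of_dvd hfi h3
      rw [C_dvd_iff_dvd_coeff]
      intro n
      have h5 := X_sub_dvd h1
      rw [C_dvd_iff_dvd_coeff] at h5
      exact h4.symm.dvd.trans (h5 n)
    · rintro ⟨u, v⟩ ⟨h1, h2⟩
      refine ⟨?_, h2⟩
      simpa [evalEval] using h1
  · have hprim := hF.isPrimitive h0
    let K := FractionRing M[X]
    have hFK : Irreducible (F.map (algebraMap M[X] K)) :=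
      hprim.irreducible_iff_irreducible_map_fraction_map.1 hF
    have hndK : ¬ F.map (algebraMap M[X] K) ∣ p.map (algebraMap M[X] K) := by
      intro h
      apply hp
      by_cases hp0 : p = 0
      · rw [hp0]; exact dvd_zero _
      have h1 : p = C p.content * p.primPart := p.eq_C_content_mul_primPart
      have hc : p.content ≠ 0 := by rwa [Ne, content_eq_zero_iff]
      rw [h1] at h ⊢
      rw [Polynomial.map_mul, map_C] at h
      have hu : IsUnit (C (algebraMap M[X] K p.content)) := by
        rw [isUnit_C, isUnit_iff_ne_zero, Ne, FaithfulSMul.algebraMap_eq_zero_iff]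
        exact hc
      have h2 := (hu.dvd_mul_left).1 h
      exact (hprim.dvd_of_fraction_map_dvd_fraction_map h2).mul_left _
    have hcop : IsCoprime (F.map (algebraMap M[X] K)) (p.map (algebraMap M[X] K)) :=
      (hFK.coprime_iff_not_dvd).2 hndK
    obtain ⟨g, hg0, a, b, hab⟩ : ∃ g : M[X], g ≠ 0 ∧ ∃ a b : M[X][X], a * F + b * p = C g := by
      obtain ⟨a, b, hab⟩ := hcop
      obtain ⟨c1, hc1, e1⟩ := IsLocalization.integerNormalization_spec (nonZeroDivisors M[X]) a
      obtain ⟨c2, hc2, e2⟩ := IsLocalization.integerNormalization_spec (nonZeroDivisors M[X]) b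
      have hc10 := nonZeroDivisors.ne_zero hc1
      have hc20 := nonZeroDivisors.ne_zero hc2
      refine ⟨c1 * c2, mul_ne_zero hc10 hc20,
        C c2 * IsLocalization.integerNormalization (nonZeroDivisors M[X]) a,
        C c1 * IsLocalization.integerNormalization (nonZeroDivisors M[X]) b, ?_⟩
      apply map_injective (algebraMap M[X] K) (IsFractionRing.injective _ _)
      rw [Polynomial.map_add, Polynomial.map_mul, Polynomial.map_mul, Polynomial.map_mul,
        Polynomial.map_mul, e1, e2, map_C, map_C, map_C]
      simp only [Algebra.smul_def, map_mul, Polynomial.algebraMap_apply]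
      have h3 : (C (algebraMap M[X] K c2) * (C (algebraMap M[X] K c1) * a)) *
          F.map (algebraMap M[X] K) + (C (algebraMap M[X] K c1) *
          (C (algebraMap M[X] K c2) * b)) * p.map (algebraMap M[X] K) =
          C (algebraMap M[X] K c1) * C (algebraMap M[X] K c2) *
          (a * F.map (algebraMap M[X] K) + b * p.map (algebraMap M[X] K)) := by ring
      rw [hab, mul_one] at h3
      exact h3
    refine (fin_aux (g := g) hg0 (q := F) ?_).subset ?_
    · intro u _ h1
      have h2 := hprim _ (X_sub_dvd h1)
      exact (irreducible_X_sub_C u).not_isUnit h2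
    · rintro ⟨u, v⟩ ⟨h1, h2⟩
      refine ⟨?_, h1⟩
      have h3 := congrArg (evalEvalRingHom u v) hab
      simp only [map_add, map_mul, coe_evalEvalRingHom] at h3
      change F.evalEval u v = 0 at h1
      change p.evalEval u v = 0 at h2
      rw [h1, h2, mul_zero, mul_zero, add_zero] at h3
      have h4 : (C g : M[X][X]).evalEval u v = g.eval u := by simp [evalEval]
      rw [h4] at h3
      exact h3.symm

end Pool.Agent.Helper6.OD
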