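import Pool.Graph.R_seed8.Y189.DC.Base
import Pool.Agent.Helper6.OD.Zer

/-! The field of sequences along an orbit of a self-map of a curve. -/

set_option autoImplicit false

namespace Pool.Agent.Helper6.OD

open Polynomial Filter
open Pool.Agent.TH143.DE (LinRec CoefField CoefRing EZ ez)
open Pool.Agent.TH143.TW (Good Per KB cK cK_surj cK_zero)
open Pool.Agent.TH143.GE (FinGen cA)

/-- value at a point -/
noncomputable abbrev vl {M : Type} [CommRing M] (p : M[X][X]) (t : M × M) : M :=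
  p.evalEval t.1 t.2

/-- An infinite orbit on the curve `F = 0` of the rational self-map `(A₁ / C₀, A₂ / C₀)`. -/
structure Orbt {M : Type} [Field M] (F A₁ A₂ C₀ : M[X][X]) (T : ℕ → M × M) : Prop where
  irr : Irreducible F
  inj : Function.Injective T
  zero : ∀ m, vl F (T m) = 0
  den : ∀ m, vl C₀ (T m) ≠ 0
  s1 : ∀ m, (T (m + 1)).1 * vl C₀ (T m) = vl A₁ (T m)
  s2 : ∀ m, (T (m + 1)).2 * vl C₀ (T m) = vl A₂ (T m)

section

variable {M : Type} [CommRing M]

theorem vl_add (p q : M[X][X]) (t : M × M) : vl (p + q) t = vl p t + vl q t := by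
  simp [vl, evalEval]

theorem vl_mul (p q : M[X][X]) (t : M × M) : vl (p * q) t = vl p t * vl q t := by
  simp [vl, evalEval]

theorem vl_pow (p : M[X][X]) (n : ℕ) (t : M × M) : vl (p ^ n) t = vl p t ^ n := by
  simp [vl, evalEval]

theorem vl_CC (c : M) (t : M × M) : vl (C (C c) : M[X][X]) t = c := by
  simp [vl, evalEval]

theorem vl_CX (t : M × M) : vl (C X : M[X][X]) t = t.1 := by
  simp [vl, evalEval]

theorem vl_X (t : M × M) : vl (X : M[X][X]) t = t.2 := by
  simp [vl, evalEval]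

theorem vl_one (t : M × M) : vl (1 : M[X][X]) t = 1 := by
  simp [vl, evalEval]

theorem vl_zero (t : M × M) : vl (0 : M[X][X]) t = 0 := by
  simp [vl, evalEval]

/-- induction for polynomials in two variables -/
theorem ind2 {P : M[X][X] → Prop} (hC : ∀ c, P (C (C c))) (hX : P (C X)) (hY : P X)
    (hadd : ∀ p q, P p → P q → P (p + q)) (hmul : ∀ p q, P p → P q → P (p * q)) (p : M[X][X]) :
    P p := by
  have h1 : ∀ f : M[X], P (C f) := by
    intro f
    induction f using Polynomial.induction_on with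
    | C a => exact hC a
    | add p q hp hq => rw [C_add]; exact hadd _ _ hp hq
    | monomial n a h =>
      rw [pow_succ, ← mul_assoc, C_mul]
      exact hmul _ _ h hX
  induction p using Polynomial.induction_on with
  | C a => exact h1 a
  | add p q hp hq => exact hadd _ _ hp hq
  | monomial n a h =>
    rw [pow_succ, ← mul_assoc]
    exact hmul _ _ h hY

end

variable {F A₁ A₂ C₀ : ℂ[X][X]} {T : ℕ → ℂ × ℂ}

/-- values at the next point of the orbit -/
theorem shiftP {M : Type} [Field M] {F A₁ A₂ C₀ : M[X][X]} {T : ℕ → M × M}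
    (h : Orbt F A₁ A₂ C₀ T) (p : M[X][X]) :
    ∃ (N : ℕ) (P : M[X][X]), ∀ m, vl p (T (m + 1)) * vl C₀ (T m) ^ N = vl P (T m) := by
  induction p using ind2 with
  | hC c => exact ⟨0, C (C c), fun m => by rw [pow_zero, mul_one, vl_CC, vl_CC]⟩
  | hX => exact ⟨1, A₁, fun m => by rw [pow_one, vl_CX]; exact h.s1 m⟩
  | hY => exact ⟨1, A₂, fun m => by rw [pow_one, vl_X]; exact h.s2 m⟩
  | hadd p q hp hq =>
    obtain ⟨N, P, h1⟩ := hp
    obtain ⟨N', P', h2⟩ := hq
    refine ⟨N + N', P * C₀ ^ N' + P' * C₀ ^ N, fun m => ?_⟩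
    rw [vl_add, vl_add, vl_mul, vl_mul, vl_pow, vl_pow, ← h1, ← h2]
    ring
  | hmul p q hp hq =>
    obtain ⟨N, P, h1⟩ := hp
    obtain ⟨N', P', h2⟩ := hq
    refine ⟨N + N', P * P', fun m => ?_⟩
    rw [vl_mul, vl_mul, ← h1, ← h2]
    ring

/-- the ring of the sequences along the orbit -/
def BO (T : ℕ → ℂ × ℂ) : Subalgebra ℂ (ℕ → ℂ) where
  carrier := {s | ∃ p q : ℂ[X][X], (∀ᶠ m in atTop, vl q (T m) ≠ 0) ∧
    ∀ᶠ m in atTop, s m * vl q (T m) = vl p (T m)}
  mul_mem' := by
    rintro s s' ⟨p, q, h1, h2⟩ ⟨p', q', h1', h2'⟩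
    refine ⟨p * p', q * q', ?_, ?_⟩
    · filter_upwards [h1, h1'] with m h3 h4
      rw [vl_mul]
      exact mul_ne_zero h3 h4
    · filter_upwards [h2, h2'] with m h3 h4
      rw [Pi.mul_apply, vl_mul, vl_mul, ← h3, ← h4]
      ring
  add_mem' := by
    rintro s s' ⟨p, q, h1, h2⟩ ⟨p', q', h1', h2'⟩
    refine ⟨p * q' + p' * q, q * q', ?_, ?_⟩
    · filter_upwards [h1, h1'] with m h3 h4
      rw [vl_mul]
      exact mul_ne_zero h3 h4
    · filter_upwards [h2, h2'] with m h3 h4
      rw [Pi.add_apply, vl_mul, vl_add, vl_mul, vl_mul, ← h3, ← h4]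
      ring
  algebraMap_mem' := fun c => ⟨C (C c), 1, Eventually.of_forall fun m => by
      rw [vl_one]; exact one_ne_zero,
    Eventually.of_forall fun m => by
      rw [vl_one, mul_one, vl_CC]
      rfl⟩

theorem mem_BO {s : ℕ → ℂ} : s ∈ BO T ↔ ∃ p q : ℂ[X][X], (∀ᶠ m in atTop, vl q (T m) ≠ 0) ∧
    ∀ᶠ m in atTop, s m * vl q (T m) = vl p (T m) := Iff.rfl

theorem BO_of (p : ℂ[X][X]) : (fun m => vl p (T m)) ∈ BO T :=
  ⟨p, 1, Eventually.of_forall fun m => by rw [vl_one]; exact one_ne_zero,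
    Eventually.of_forall fun m => by rw [vl_one, mul_one]⟩

theorem Orbt.dich (h : Orbt F A₁ A₂ C₀ T) (p : ℂ[X][X]) :
    (F ∣ p ∧ ∀ m, vl p (T m) = 0) ∨ (¬ F ∣ p ∧ ∀ᶠ m in atTop, vl p (T m) ≠ 0) := by
  by_cases hp : F ∣ p
  · left
    refine ⟨hp, ?_⟩
    obtain ⟨q, rfl⟩ := hp
    intro m
    rw [vl_mul, h.zero, zero_mul]
  · right
    refine ⟨hp, ?_⟩
    have h1 := fin_zeros h.irr hp
    have h2 : {m | vl p (T m) = 0}.Finite := by
      refine Set.Finite.of_finite_image (f := T) (h1.subset ?_) (h.inj.injOn)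
      rintro _ ⟨m, hm, rfl⟩
      exact ⟨h.zero m, hm⟩
    have h3 := h2.compl_mem_cofinite
    rw [Nat.cofinite_eq_atTop] at h3
    exact h3

theorem Orbt.dich' (h : Orbt F A₁ A₂ C₀ T) (p : ℂ[X][X]) :
    (∀ m, vl p (T m) = 0) ∨ ∀ᶠ m in atTop, vl p (T m) ≠ 0 := by
  rcases h.dich p with h1 | h1
  · exact Or.inl h1.2
  · exact Or.inr h1.2

theorem Orbt.field (h : Orbt F A₁ A₂ C₀ T) : CoefField (BO T) := by
  refine ⟨⟨?_, ?_⟩, ?_⟩
  · rintro s ⟨p, q, h1, h2⟩
    obtain ⟨N, P, h3⟩ := shiftP h p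
    obtain ⟨N', P', h4⟩ := shiftP h q
    refine ⟨P * C₀ ^ N', P' * C₀ ^ N, ?_, ?_⟩
    · filter_upwards [Pool.Agent.TH143.DE.eventually_shift h1 1] with m h5
      rw [vl_mul, vl_pow, ← h4]
      exact mul_ne_zero (mul_ne_zero h5 (pow_ne_zero _ (h.den m))) (pow_ne_zero _ (h.den m))
    · filter_upwards [Pool.Agent.TH143.DE.eventually_shift h2 1] with m h5
      rw [vl_mul, vl_mul, vl_pow, vl_pow, ← h4, ← h3, ← h5]
      ring
  · rintro s ⟨p, q, h1, h2⟩
    rcases h.dich' p with h3 | h3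
    · left
      filter_upwards [h1, h2] with m h4 h5
      rw [h3 m] at h5
      exact (mul_eq_zero.1 h5).resolve_right h4
    · right
      filter_upwards [h2, h3] with m h4 h5 h6
      rw [h6, zero_mul] at h4
      exact h5 h4.symm
  · rintro s ⟨p, q, h1, h2⟩
    rcases h.dich' p with h3 | h3
    · refine ⟨0, 1, Eventually.of_forall fun m => by rw [vl_one]; exact one_ne_zero, ?_⟩
      filter_upwards [h1, h2] with m h4 h5
      rw [h3 m] at h5
      have h6 := (mul_eq_zero.1 h5).resolve_right h4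
      rw [vl_zero, h6, inv_zero, zero_mul]
    · refine ⟨q, p, h3, ?_⟩
      filter_upwards [h1, h2, h3] with m h4 h5 h6
      have h7 : s m ≠ 0 := by
        intro h8
        rw [h8, zero_mul] at h5
        exact h6 h5.symm
      rw [← h5, ← mul_assoc, inv_mul_cancel₀ h7, one_mul]

/-- the coordinates of the orbit -/
def UO (T : ℕ → ℂ × ℂ) : Set (ℕ → ℂ) := {fun m => (T m).1, fun m => (T m).2}

theorem adj_of (p : ℂ[X][X]) : (fun m => vl p (T m)) ∈ Algebra.adjoin ℂ (UO T) := by
  induction p using ind2 with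
  | hC c =>
    have h1 : (fun m => vl (C (C c) : ℂ[X][X]) (T m)) = algebraMap ℂ (ℕ → ℂ) c := by
      funext m
      rw [vl_CC]
      rfl
    rw [h1]
    exact Subalgebra.algebraMap_mem _ c
  | hX =>
    have h1 : (fun m => vl (C X : ℂ[X][X]) (T m)) = fun m => (T m).1 := by
      funext m
      rw [vl_CX]
    rw [h1]
    exact Algebra.subset_adjoin (Or.inl rfl)
  | hY =>
    have h1 : (fun m => vl (X : ℂ[X][X]) (T m)) = fun m => (T m).2 := by
      funext m
      rw [vl_X]
    rw [h1]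
    exact Algebra.subset_adjoin (Or.inr rfl)
  | hadd p q hp hq =>
    have h1 : (fun m => vl (p + q) (T m)) = (fun m => vl p (T m)) + fun m => vl q (T m) := by
      funext m
      rw [vl_add, Pi.add_apply]
    rw [h1]
    exact Subalgebra.add_mem _ hp hq
  | hmul p q hp hq =>
    have h1 : (fun m => vl (p * q) (T m)) = (fun m => vl p (T m)) * fun m => vl q (T m) := by
      funext m
      rw [vl_mul, Pi.mul_apply]
    rw [h1]
    exact Subalgebra.mul_mem _ hp hq

theorem finGen : FinGen (BO T) := by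
  refine ⟨UO T, by unfold UO; exact Set.toFinite _, ?_, ?_⟩
  · rintro u (rfl | hu)
    · have h1 := BO_of (T := T) (C X)
      simp only [vl_CX] at h1
      exact h1
    · rw [Set.mem_singleton_iff.1 hu]
      have h1 := BO_of (T := T) X
      simp only [vl_X] at h1
      exact h1
  · rintro b ⟨p, q, h1, h2⟩
    exact ⟨_, adj_of p, _, adj_of q, h1, h2⟩

/-- polynomials in two variables -/
noncomputable def mvp : ℂ[X][X] →+* MvPolynomial (Fin 2) ℂ :=
  eval₂RingHom ((aeval (MvPolynomial.X 0) : ℂ[X] →ₐ[ℂ] MvPolynomial (Fin 2) ℂ) :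
    ℂ[X] →+* MvPolynomial (Fin 2) ℂ) (MvPolynomial.X 1)

/-- the inverse -/
noncomputable def mvq : MvPolynomial (Fin 2) ℂ →ₐ[ℂ] ℂ[X][X] :=
  MvPolynomial.aeval ![C X, X]

theorem mvq_mvp (p : ℂ[X][X]) : mvq (mvp p) = p := by
  induction p using ind2 with
  | hC c =>
    unfold mvp
    rw [coe_eval₂RingHom, eval₂_C]
    change mvq (aeval (MvPolynomial.X 0) (C c)) = _
    rw [aeval_C, AlgHom.commutes]
    rfl
  | hX =>
    unfold mvp
    rw [coe_eval₂RingHom, eval₂_C]
    change mvq (aeval (MvPolynomial.X 0) X) = _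
    rw [aeval_X]
    unfold mvq
    rw [MvPolynomial.aeval_X]
    rfl
  | hY =>
    unfold mvp
    rw [coe_eval₂RingHom, eval₂_X]
    unfold mvq
    rw [MvPolynomial.aeval_X]
    rfl
  | hadd p q hp hq => rw [map_add, map_add, hp, hq]
  | hmul p q hp hq => rw [map_mul, map_mul, hp, hq]

theorem eval_mvp (p : ℂ[X][X]) (t : ℂ × ℂ) :
    MvPolynomial.eval ![t.1, t.2] (mvp p) = vl p t := by
  induction p using ind2 with
  | hC c =>
    unfold mvp
    rw [coe_eval₂RingHom, eval₂_C, vl_CC]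
    change MvPolynomial.eval _ (aeval (MvPolynomial.X 0) (C c)) = _
    rw [aeval_C, MvPolynomial.algebraMap_eq, MvPolynomial.eval_C]
  | hX =>
    unfold mvp
    rw [coe_eval₂RingHom, eval₂_C, vl_CX]
    change MvPolynomial.eval _ (aeval (MvPolynomial.X 0) X) = _
    rw [aeval_X, MvPolynomial.eval_X]
    rfl
  | hY =>
    unfold mvp
    rw [coe_eval₂RingHom, eval₂_X, vl_X, MvPolynomial.eval_X]
    rfl
  | hadd p q hp hq => rw [map_add, map_add, hp, hq, vl_add]
  | hmul p q hp hq => rw [map_mul, map_mul, hp, hq, vl_mul]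

theorem mvp_ne {p : ℂ[X][X]} (h : p ≠ 0) : mvp p ≠ 0 := by
  intro h0
  apply h
  rw [← mvq_mvp p, h0, map_zero]

theorem Orbt.trdeg (h : Orbt F A₁ A₂ C₀ T) :
    Algebra.trdeg ℂ (KB (BO T) h.field) ≤ 1 := by
  classical
  let hB := h.field
  let u : BO T := ⟨fun m => (T m).1, by
    have h1 := BO_of (T := T) (C X)
    simp only [vl_CX] at h1
    exact h1⟩
  let v : BO T := ⟨fun m => (T m).2, by
    have h1 := BO_of (T := T) X
    simp only [vl_X] at h1
    exact h1⟩
  have hz : ∀ (b : BO T), (∀ m, (b : ℕ → ℂ) m = 0) → cA hB b = 0 := by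
    intro b hb
    exact (cK_zero hB).2 (Eventually.of_forall hb)
  have hval : ∀ (α β : BO T) (P : MvPolynomial (Fin 2) ℂ) (m : ℕ),
      ((MvPolynomial.aeval ![α, β] P : BO T) : ℕ → ℂ) m =
        MvPolynomial.eval ![(α : ℕ → ℂ) m, (β : ℕ → ℂ) m] P := by
    intro α β P m
    have h5 : (Pool.Agent.TH143.DE.evm (BO T) m) (MvPolynomial.aeval ![α, β] P) =
        MvPolynomial.aeval (fun i => Pool.Agent.TH143.DE.evm (BO T) m (![α, β] i)) P := by
      rw [← MvPolynomial.comp_aeval]
      rfl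
    rw [Pool.Agent.TH143.DE.evm_apply] at h5
    rw [h5]
    have h6 : (fun i => Pool.Agent.TH143.DE.evm (BO T) m (![α, β] i)) =
        ![(α : ℕ → ℂ) m, (β : ℕ → ℂ) m] := by
      funext i
      fin_cases i <;> rfl
    rw [h6]
    rfl
  have hrel : ∀ (α β : BO T) (P : MvPolynomial (Fin 2) ℂ),
      (∀ m, MvPolynomial.eval ![(α : ℕ → ℂ) m, (β : ℕ → ℂ) m] P = 0) →
        MvPolynomial.aeval ![cA hB α, cA hB β] P = 0 := by
    intro α β P hP
    have h1 : (MvPolynomial.aeval ![cA hB α, cA hB β] P : KB (BO T) hB) =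
        cA hB (MvPolynomial.aeval ![α, β] P) := by
      rw [MvPolynomial.comp_aeval_apply]
      congr 2
      funext i
      fin_cases i <;> rfl
    rw [h1]
    apply hz
    intro m
    rw [hval]
    exact hP m
  have hF0 : mvp F ≠ 0 := mvp_ne h.irr.ne_zero
  have hsame : (MvPolynomial.X 0 - MvPolynomial.X 1 : MvPolynomial (Fin 2) ℂ) ≠ 0 := by
    intro h0
    have h1 := sub_eq_zero.1 h0
    have h2 := MvPolynomial.X_injective h1
    exact zero_ne_one h2
  have hren : MvPolynomial.rename (Equiv.swap (0 : Fin 2) 1) (mvp F) ≠ 0 := by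
    intro h0
    apply hF0
    apply MvPolynomial.rename_injective _ (Equiv.swap (0 : Fin 2) 1).injective
    rw [h0, map_zero]
  refine Pool.Agent.Y189.DC.trdeg_le {cA hB u, cA hB v} ?_ ?_
  · rintro x (rfl | hx) y (rfl | hy)
    · refine ⟨_, hsame, hrel u u _ fun m => ?_⟩
      simp
    · rw [Set.mem_singleton_iff.1 hy]
      refine ⟨_, hF0, hrel u v _ fun m => ?_⟩
      have h1 := eval_mvp F (T m)
      rw [h.zero] at h1
      exact h1
    · rw [Set.mem_singleton_iff.1 hx]
      refine ⟨_, hren, hrel v u _ fun m => ?_⟩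
      rw [MvPolynomial.eval_rename]
      have h1 := eval_mvp F (T m)
      rw [h.zero] at h1
      have h2 : (![(v : ℕ → ℂ) m, (u : ℕ → ℂ) m] ∘ (Equiv.swap (0 : Fin 2) 1)) =
          ![(T m).1, (T m).2] := by
        funext i
        fin_cases i <;> rfl
      rw [h2]
      exact h1
    · rw [Set.mem_singleton_iff.1 hx, Set.mem_singleton_iff.1 hy]
      refine ⟨_, hsame, hrel v v _ fun m => ?_⟩
      simp
  · intro y
    obtain ⟨b, rfl⟩ := cK_surj hB y
    obtain ⟨p, q, h1, h2⟩ := b.2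
    have hmem : ∀ p : ℂ[X][X], cA hB ⟨fun m => vl p (T m), BO_of p⟩ ∈
        Algebra.adjoin ℂ {cA hB u, cA hB v} := by
      intro p
      induction p using ind2 with
      | hC c =>
        have h3 : (⟨fun m => vl (C (C c) : ℂ[X][X]) (T m), BO_of _⟩ : BO T) =
            algebraMap ℂ (BO T) c := by
          apply Subtype.ext
          funext m
          change vl (C (C c) : ℂ[X][X]) (T m) = c
          rw [vl_CC]
        rw [h3, AlgHom.commutes]
        exact Subalgebra.algebraMap_mem _ c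
      | hX =>
        have h3 : (⟨fun m => vl (C X : ℂ[X][X]) (T m), BO_of _⟩ : BO T) = u := by
          apply Subtype.ext
          funext m
          change vl (C X : ℂ[X][X]) (T m) = (T m).1
          rw [vl_CX]
        rw [h3]
        exact Algebra.subset_adjoin (Or.inl rfl)
      | hY =>
        have h3 : (⟨fun m => vl (X : ℂ[X][X]) (T m), BO_of _⟩ : BO T) = v := by
          apply Subtype.ext
          funext m
          change vl (X : ℂ[X][X]) (T m) = (T m).2
          rw [vl_X]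
        rw [h3]
        exact Algebra.subset_adjoin (Or.inr rfl)
      | hadd p q hp hq =>
        have h3 : (⟨fun m => vl (p + q) (T m), BO_of _⟩ : BO T) =
            ⟨fun m => vl p (T m), BO_of p⟩ + ⟨fun m => vl q (T m), BO_of q⟩ := by
          apply Subtype.ext
          funext m
          change vl (p + q) (T m) = vl p (T m) + vl q (T m)
          rw [vl_add]
        rw [h3, map_add]
        exact Subalgebra.add_mem _ hp hq
      | hmul p q hp hq =>
        have h3 : (⟨fun m => vl (p * q) (T m), BO_of _⟩ : BO T) =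
            ⟨fun m => vl p (T m), BO_of p⟩ * ⟨fun m => vl q (T m), BO_of q⟩ := by
          apply Subtype.ext
          funext m
          change vl (p * q) (T m) = vl p (T m) * vl q (T m)
          rw [vl_mul]
        rw [h3, map_mul]
        exact Subalgebra.mul_mem _ hp hq
    refine ⟨_, hmem p, _, hmem q, ?_, ?_⟩
    · intro h3
      obtain ⟨m, h4, h5⟩ := (h1.and ((cK_zero hB).1 h3)).exists
      exact h4 h5
    · have h3 : (b * ⟨fun m => vl q (T m), BO_of q⟩ - ⟨fun m => vl p (T m), BO_of p⟩ : BO T) ∈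
          ez (BO T) := by
        rw [Pool.Agent.TH143.DE.mem_ez]
        filter_upwards [h2] with m hm
        change (b : ℕ → ℂ) m * vl q (T m) - vl p (T m) = 0
        rw [hm, sub_self]
      have h4 := (cK_zero hB).2 (Pool.Agent.TH143.DE.mem_ez.1 h3)
      rw [map_sub, map_mul, sub_eq_zero] at h4
      exact h4

end Pool.Agent.Helper6.OD
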