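import Pool.Graph.R_seed8.Y189.DD.RC
import Pool.Graph.R_seed8.TH143.GE.Emb
import Pool.Agent.Helper6.FT.Spe
import Pool.Agent.Helper6.OD.Bas

/-! Sequences of points given by linear recurrences over fields of transcendence degree one, and
rational and elliptic curves through these points. -/

set_option autoImplicit false
set_option linter.unusedSectionVars false

namespace Pool.Agent.Helper6.OD

open MvPolynomial Filter Pool.Agent.TH143.DE Pool.Agent.TH143.HE Pool.Agent.TH143.TW FF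
open Module Pool.Agent.TH143.GE Pool.Agent.Y189.DD Pool.Agent.Helper6.FT Pool.Agent.Helper6.EE
open Pool.Agent.Helper6.EV
open Pool.Agent.W603.LV (canDeg)

variable {N : ℕ}

/-- The point lies on a rational or an elliptic curve on which the forms vanish. -/
def SC (s : Set (MvPolynomial (Fin (N + 1)) ℂ)) (v : Fin (N + 1) → ℂ) : Prop :=
  ∃ d, OnRat s d v ∨ OnEll ℂ s d v

theorem SC.scale {s : Set (MvPolynomial (Fin (N + 1)) ℂ)} {v : Fin (N + 1) → ℂ} (h : SC s v)
    (c : ℂ) : SC s fun j => c * v j := by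
  obtain ⟨d, ⟨V, hV, g, q, h⟩ | ⟨a, b, A, B, hV, g, x, y, hy, h⟩⟩ := h
  · exact ⟨d, Or.inl ⟨V, hV, c * g, q, fun j => by
      beta_reduce
      rw [h, mul_assoc]⟩⟩
  · exact ⟨d, Or.inr ⟨a, b, A, B, hV, c * g, x, y, hy, fun j => by
      beta_reduce
      rw [h, mul_assoc]⟩⟩

theorem coeff_of_nonConst {p : Fin (N + 1) → Polynomial ℂ} (h : NonConst p) :
    ∃ i j m l, (p i).coeff m * (p j).coeff l ≠ (p j).coeff m * (p i).coeff l := by
  obtain ⟨i, j, u, v, huv⟩ := h
  by_contra hcon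
  push Not at hcon
  apply huv
  set n := max (p i).natDegree (p j).natDegree + 1 with hn
  have h1 : ∀ w, (p i).eval w = ∑ m ∈ Finset.range n, (p i).coeff m * w ^ m := fun w =>
    Polynomial.eval_eq_sum_range' (by have := le_max_left (p i).natDegree (p j).natDegree; omega) w
  have h2 : ∀ w, (p j).eval w = ∑ m ∈ Finset.range n, (p j).coeff m * w ^ m := fun w =>
    Polynomial.eval_eq_sum_range' (by have := le_max_right (p i).natDegree (p j).natDegree; omega) w
  rw [h1, h2, h1, h2, Finset.sum_mul_sum, Finset.sum_mul_sum]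
  refine Finset.sum_congr rfl fun m _ => Finset.sum_congr rfl fun l _ => ?_
  linear_combination (u ^ m * v ^ l) * hcon i j m l

theorem sc_of_curve {s : Set (MvPolynomial (Fin (N + 1)) ℂ)} {p : Fin (N + 1) → Polynomial ℂ}
    (h : ∀ G ∈ s, (aeval p G : Polynomial ℂ) = 0) (hn : NonConst p) (g c : ℂ) :
    SC s fun j => g * (p j).eval c :=
  ⟨Finset.univ.sup fun j => (p j).natDegree, Or.inl ⟨p,
    ⟨fun j => Finset.le_sup (f := fun j => (p j).natDegree) (Finset.mem_univ j),
      coeff_of_nonConst hn, h⟩, g, c, fun _ => rfl⟩⟩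

theorem sc_of_rc {s : Set (MvPolynomial (Fin (N + 1)) ℂ)} {v : Fin (N + 1) → ℂ} (h : RC s v) :
    SC s v := by
  obtain ⟨p, h1, rfl, h3⟩ := h
  have h4 := sc_of_curve h1 h3 1 1
  simpa using h4

section

variable {K : Type} [Field K] [Algebra ℂ K] {j : K →ₐ[ℂ] GG} {s : K →ₐ[ℂ] K}
  {s0 : Set (MvPolynomial (Fin (N + 1)) ℂ)}

theorem gg_vals {x : ℕ → Fin (N + 1) → ℂ} {Y : Fin (N + 1) → K}
    (hY : ∀ i, j (Y i) = gg fun m => x m i) (G : MvPolynomial (Fin (N + 1)) ℂ) :
    j (aeval Y G) = gg fun m => eval (x m) G := by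
  induction G using MvPolynomial.induction_on with
  | C a =>
    rw [aeval_C, j.commutes]
    simp only [eval_C]
    exact (gg.commutes a).symm
  | add p q hp hq =>
    rw [map_add, map_add, hp, hq, ← map_add]
    congr 1
    funext m
    rw [Pi.add_apply, map_add]
  | mul_X p i hp =>
    rw [map_mul, map_mul, hp, aeval_X, hY, ← map_mul]
    congr 1
    funext m
    rw [Pi.mul_apply, map_mul, eval_X]

theorem jinj : Function.Injective j := j.toRingHom.injective

theorem van_Y {x : ℕ → Fin (N + 1) → ℂ} {Y : Fin (N + 1) → K}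
    (hY : ∀ i, j (Y i) = gg fun m => x m i)
    (hX : ∀ᶠ m in atTop, ∀ G ∈ s0, eval (x m) G = 0) : ∀ G ∈ s0, aeval Y G = 0 := by
  intro G hG
  apply jinj (j := j)
  rw [gg_vals hY, map_zero, gg_zero]
  filter_upwards [hX] with m hm
  exact hm G hG

theorem aeval_homog {R : Type} [CommRing R] [Algebra ℂ R] {G : MvPolynomial (Fin (N + 1)) ℂ}
    {d : ℕ} (hd : G.IsHomogeneous d) (c : R) (v : Fin (N + 1) → R) :
    aeval (fun i => c * v i) G = c ^ d * aeval v G := by
  rw [aeval_def, aeval_def]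
  exact eval₂_smul_homog (algebraMap ℂ R) c v hd

theorem eval_homog {G : MvPolynomial (Fin (N + 1)) ℂ}
    {d : ℕ} (hd : G.IsHomogeneous d) (c : ℂ) (v : Fin (N + 1) → ℂ) :
    eval (fun i => c * v i) G = c ^ d * eval v G :=
  Pool.Agent.TH143.GT.eval_smul_homog hd c v

/-- The case of genus at least two. -/
theorem per_pos' (hs0 : ∀ G ∈ s0, ∃ d, G.IsHomogeneous d)
    (hs : ∀ z, j (s z) = shG (j z)) [IsFF ℂ K]
    (hpos : 0 < canDeg ℂ K) {x : ℕ → Fin (N + 1) → ℂ} {Y : Fin (N + 1) → K}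
    (hY : ∀ i, j (Y i) = gg fun m => x m i)
    (hne : ∀ᶠ m in atTop, x m ≠ 0)
    (hX : ∀ᶠ m in atTop, ∀ G ∈ s0, eval (x m) G = 0)
    (hZ : ∀ᶠ m in atTop, ¬ SC s0 (x m)) : Per x := by
  obtain ⟨W, hW, hWs, t, ht, htr⟩ := exists_W hpos s
  set F := IntermediateField.adjoin ℂ (W : Set K) with hFdef
  have hF : ∀ z ∈ F, s z ∈ F := by
    intro z hz
    have h1 : s z ∈ F.map s := ⟨z, hz, rfl⟩
    rw [hFdef, IntermediateField.adjoin_map] at h1
    have h2 : IntermediateField.adjoin ℂ (s '' (W : Set K)) ≤ F := by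
      rw [IntermediateField.adjoin_le_iff]
      rintro _ ⟨w, hw, rfl⟩
      exact IntermediateField.subset_adjoin _ _ (hWs w hw)
    exact h2 h1
  have hfin : FiniteDimensional F K := by
    have h1 := IsFF.finite htr
    have h2 : IntermediateField.adjoin ℂ {t} ≤ F := by
      rw [IntermediateField.adjoin_le_iff, Set.singleton_subset_iff]
      exact IntermediateField.subset_adjoin _ _ ht
    let _ : Algebra (IntermediateField.adjoin ℂ {t}) F := (IntermediateField.inclusion h2).toAlgebra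
    have h3 : IsScalarTower (IntermediateField.adjoin ℂ {t}) F K :=
      IsScalarTower.of_algebraMap_eq fun _ => rfl
    exact FiniteDimensional.right (IntermediateField.adjoin ℂ {t}) F K
  have hfld := SF_fld hs hF
  have h0 : CoefField (BS (SF j F)) := hfld.field
  have hst : Step EC (BS (SF j F)) := step_adjoin hs hW hWs
  have hVfg := VF_fg h0 hfin
  have hmem : ∀ i, (gg fun m => x m i) ∈ VF j h0 := fun i => ⟨Y i, hY i⟩
  have hLF : ∀ i, LF (KB (BS (SF j F)) h0) (gg fun m => x m i) := fun i =>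
    ⟨_, hVfg, hmem i, VF_st hs h0⟩
  have hone : LF (KB (BS (SF j F)) h0) (1 : GG) :=
    ⟨_, hVfg, (VF j h0).one_mem, VF_st hs h0⟩
  obtain ⟨q, hqu, hq, hqr⟩ := descend EC_field h0 hst (f := fun i => gg fun m => x m i)
    (r := fun i => gg fun m => x m i) (g := 1) hLF hone isUnit_one (fun i => one_mul _)
    (fun i => IsIntegral.of_mem_of_fg (VF j h0) hVfg _ (hmem i))
  obtain ⟨Q, rfl⟩ := gg_surj q
  have hQ := unit_ne hqu
  refine Per.scale (b := Q) hQ (good_base' hs0 _ ?_ ?_ ?_ ?_)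
  · filter_upwards [hQ, hne] with m h1 h2 h3
    apply h2
    funext i
    exact (mul_eq_zero.1 (congrFun h3 i)).resolve_left h1
  · intro i
    apply linRec_of_LF EC_field
    exact hqr i
  · filter_upwards [hX] with m h1
    intro G hG
    obtain ⟨d, hd⟩ := hs0 G hG
    rw [eval_homog hd, h1 G hG, mul_zero]
  · filter_upwards [hQ, hZ] with m h1 h2 h3
    apply h2
    have h4 := (sc_of_rc h3).scale (Q m)⁻¹
    simpa [inv_mul_cancel_left₀ h1] using h4

/-- genus zero -/
theorem rat_case' (hs0 : ∀ G ∈ s0, ∃ d, G.IsHomogeneous d) {t : K} (htr : Transcendental ℂ t)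
    (ht : IntermediateField.adjoin ℂ {t} = ⊤) {x : ℕ → Fin (N + 1) → ℂ} {Y : Fin (N + 1) → K}
    (hY : ∀ i, j (Y i) = gg fun m => x m i) (hY0 : Y ≠ 0)
    (hX : ∀ G ∈ s0, aeval Y G = 0) :
    (∀ᶠ m in atTop, SC s0 (x m)) ∨
        ∃ (v : K) (c : Fin (N + 1) → ℂ), ∀ i, Y i = algebraMap ℂ K (c i) * v := by
  obtain ⟨p, D, hD, hp⟩ := exists_den ht Y
  have hev : ∀ G : MvPolynomial (Fin (N + 1)) ℂ,
      Polynomial.aeval t (aeval p G) = aeval (fun i => D * Y i) G := by
    intro G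
    rw [MvPolynomial.comp_aeval_apply]
    congr 2
    funext i
    exact hp i
  by_cases hnc : NonConst p
  · left
    have hcur : ∀ G ∈ s0, (aeval p G : Polynomial ℂ) = 0 := by
      intro G hG
      by_contra hne
      apply htr
      refine ⟨_, hne, ?_⟩
      obtain ⟨d, hd⟩ := hs0 G hG
      rw [hev, aeval_homog hd, hX G hG, mul_zero]
    obtain ⟨T, hT⟩ := gg_surj (j t)
    obtain ⟨E, hE⟩ := gg_surj (j D)
    have hEu : ∀ᶠ m in atTop, E m ≠ 0 := by
      apply unit_ne
      rw [hE]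
      exact (isUnit_iff_ne_zero.2 hD).map j
    have h1 : ∀ i, ∀ᶠ m in atTop, (p i).eval (T m) = E m * x m i := by
      intro i
      have h2 := congrArg j (hp i)
      rw [map_mul, hY i, ← hE, ← Polynomial.aeval_algHom_apply, ← hT,
        Polynomial.aeval_algHom_apply, ← map_mul, gg_eq] at h2
      filter_upwards [h2] with m hm
      rw [aeval_seq] at hm
      rw [hm]
      rfl
    filter_upwards [hEu, eventually_all.2 h1] with m h2 h3
    have h4 := sc_of_curve hcur hnc (E m)⁻¹ (T m)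
    simpa [h3, inv_mul_cancel_left₀ h2] using h4
  · right
    obtain ⟨i0, hi0⟩ : ∃ i0, Y i0 ≠ 0 := by
      by_contra hcon
      push Not at hcon
      exact hY0 (funext hcon)
    obtain ⟨c, hc⟩ := aeval_prop hnc (t := t) (i0 := i0) (by
      rw [hp]
      exact mul_ne_zero hD hi0)
    refine ⟨Y i0, c, fun i => ?_⟩
    have h1 := hc i
    rw [hp, hp] at h1
    apply mul_left_cancel₀ hD
    linear_combination h1

theorem disc_of_ns {a b : ℂ} (h : ∀ e : ℂ, e ^ 3 + a * e + b = 0 → 3 * e ^ 2 + a ≠ 0) :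
    4 * a ^ 3 + 27 * b ^ 2 ≠ 0 := by
  intro h0
  by_cases ha : a = 0
  · have hb : b = 0 := by
      rw [ha] at h0
      have h1 : b ^ 2 = 0 := by linear_combination (1 / 27) * h0
      exact pow_eq_zero_iff two_ne_zero |>.1 h1
    apply h 0
    · rw [ha, hb]; ring
    · rw [ha]; ring
  · apply h (-3 * b / (2 * a))
    · field_simp
      linear_combination (-b) * h0
    · field_simp
      linear_combination h0

/-- genus one -/
theorem ell_case' (hs0 : ∀ G ∈ s0, ∃ d, G.IsHomogeneous d) [IsFF ℂ K] (h0 : canDeg ℂ K = 0)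
    {x : ℕ → Fin (N + 1) → ℂ} {Y : Fin (N + 1) → K}
    (hY : ∀ i, j (Y i) = gg fun m => x m i) (hY0 : Y ≠ 0)
    (hX : ∀ G ∈ s0, aeval Y G = 0) :
    (∀ᶠ m in atTop, SC s0 (x m)) ∨
        ∃ (v : K) (c : Fin (N + 1) → ℂ), ∀ i, Y i = algebraMap ℂ K (c i) * v := by
  classical
  obtain ⟨X, Z, a, b, htr, hrel, hind, hgen, hns⟩ := weier h0
  choose r q hrq using fun i => hgen (Y i)
  -- common denominators
  have hden : ∃ (R : Fin (N + 1) → MvPolynomial (Fin 2) ℂ) (D : K), D ≠ 0 ∧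
      ∀ i, aeval ![X, Z] (R i) = D * Y i := by
    let r' : Fin (N + 1) → MvPolynomial (Fin 2) ℂ := fun i =>
      if aeval ![X, Z] (q i) = 0 then 0 else r i
    let q' : Fin (N + 1) → MvPolynomial (Fin 2) ℂ := fun i =>
      if aeval ![X, Z] (q i) = 0 then 1 else q i
    have hq' : ∀ i, aeval ![X, Z] (q' i) ≠ 0 := by
      intro i
      by_cases h1 : aeval ![X, Z] (q i) = 0
      · simp only [q', if_pos h1, map_one]
        exact one_ne_zero
      · simp only [q', if_neg h1]
        exact h1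
    have hr' : ∀ i, Y i = aeval ![X, Z] (r' i) / aeval ![X, Z] (q' i) := by
      intro i
      by_cases h1 : aeval ![X, Z] (q i) = 0
      · simp only [r', q', if_pos h1, map_zero, zero_div]
        rw [hrq i, h1, div_zero]
      · simp only [r', q', if_neg h1]
        exact hrq i
    refine ⟨fun i => r' i * ∏ k ∈ Finset.univ.erase i, q' k, ∏ k, aeval ![X, Z] (q' k),
      Finset.prod_ne_zero_iff.2 fun k _ => hq' k, fun i => ?_⟩
    rw [map_mul, map_prod, ← Finset.mul_prod_erase Finset.univ _ (Finset.mem_univ i), hr' i]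
    have := hq' i
    field_simp
  obtain ⟨R, D, hD, hR⟩ := hden
  choose A B hAB using fun i => normal a b (R i)
  have hV : ∀ i, Polynomial.aeval X (A i) + Polynomial.aeval X (B i) * Z = D * Y i := by
    intro i
    rw [← hR i]
    exact (hAB i K X Z hrel).symm
  by_cases hc : ∃ (v : K) (c : Fin (N + 1) → ℂ), ∀ i, Y i = algebraMap ℂ K (c i) * v
  · exact Or.inr hc
  left
  have hnc : ∃ i j s t, cfs (A i) (B i) s * cfs (A j) (B j) t ≠
      cfs (A j) (B j) s * cfs (A i) (B i) t := by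
    by_contra hcon
    push Not at hcon
    apply hc
    obtain ⟨i0, hi0⟩ : ∃ i0, Y i0 ≠ 0 := by
      by_contra h1
      push Not at h1
      exact hY0 (funext h1)
    obtain ⟨u0, hu0⟩ : ∃ u0, cfs (A i0) (B i0) u0 ≠ 0 := by
      by_contra h1
      push Not at h1
      have h2 : A i0 = 0 := Polynomial.ext fun m => h1 (Sum.inl m)
      have h3 : B i0 = 0 := Polynomial.ext fun m => h1 (Sum.inr m)
      have h4 := hV i0
      rw [h2, h3, map_zero, zero_mul, add_zero] at h4
      exact mul_ne_zero hD hi0 h4.symm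
    refine ⟨Y i0, fun i => cfs (A i) (B i) u0 / cfs (A i0) (B i0) u0, fun i => ?_⟩
    set c := cfs (A i) (B i) u0 / cfs (A i0) (B i0) u0 with hc'
    have h5 : ∀ t, cfs (A i) (B i) t = c * cfs (A i0) (B i0) t := by
      intro t
      rw [hc']
      field_simp
      linear_combination -(hcon i i0 u0 t)
    have h6 : A i = Polynomial.C c * A i0 := Polynomial.ext fun m => by
      rw [Polynomial.coeff_C_mul]
      exact h5 (Sum.inl m)
    have h7 : B i = Polynomial.C c * B i0 := Polynomial.ext fun m => by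
      rw [Polynomial.coeff_C_mul]
      exact h5 (Sum.inr m)
    apply mul_left_cancel₀ hD
    rw [← hV i, h6, h7, map_mul, map_mul, Polynomial.aeval_C]
    linear_combination (algebraMap ℂ K c) * hV i0
  have hcur : ∀ G ∈ s0, wei a b ∣ (aeval (fun j => onE (A j) (B j)) G :
      Polynomial (Polynomial ℂ)) := by
    intro G hG
    obtain ⟨d, hd⟩ := hs0 G hG
    have h1 : Polynomial.aevalAeval X Z (aeval (fun j => onE (A j) (B j)) G :
        Polynomial (Polynomial ℂ)) = 0 := by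
      rw [MvPolynomial.comp_aeval_apply]
      have h2 : (fun i => Polynomial.aevalAeval X Z (onE (A i) (B i))) = fun i => D * Y i := by
        funext i
        rw [← hV i]
        exact two_aeval X Z (A i) (B i)
      rw [h2, aeval_homog hd, hX G hG, mul_zero]
    have h2 := (eval_curve htr hrel _).1 h1
    exact (Polynomial.modByMonic_eq_zero_iff_dvd (weq_monic _ _)).1 h2
  obtain ⟨x1, hx1⟩ := gg_surj (j X)
  obtain ⟨z1, hz1⟩ := gg_surj (j Z)
  obtain ⟨E, hE⟩ := gg_surj (j D)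
  have hEu : ∀ᶠ m in atTop, E m ≠ 0 := by
    apply unit_ne
    rw [hE]
    exact (isUnit_iff_ne_zero.2 hD).map j
  have h1 : ∀ i, ∀ᶠ m in atTop, (A i).eval (x1 m) + (B i).eval (x1 m) * z1 m = E m * x m i := by
    intro i
    have h2 := congrArg j (hV i)
    rw [map_mul, map_add, map_mul, hY i, ← hE, ← Polynomial.aeval_algHom_apply,
      ← Polynomial.aeval_algHom_apply, ← hx1, ← hz1,
      Polynomial.aeval_algHom_apply, Polynomial.aeval_algHom_apply, ← map_mul, ← map_mul,
      ← map_add, gg_eq] at h2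
    filter_upwards [h2] with m hm
    rw [Pi.add_apply, Pi.mul_apply, aeval_seq, aeval_seq] at hm
    rw [hm]
    rfl
  have h2 : ∀ᶠ m in atTop, z1 m ^ 2 = x1 m ^ 3 + a * x1 m + b := by
    have h3 := congrArg j hrel
    simp only [map_pow, map_add, map_mul, ← hx1, ← hz1, AlgHom.commutes] at h3
    rw [← gg.commutes a, ← gg.commutes b, ← map_pow, ← map_pow, ← map_mul, ← map_add, ← map_add,
      gg_eq] at h3
    filter_upwards [h3] with m hm
    exact hm
  filter_upwards [hEu, h2, eventually_all.2 h1] with m h3 h4 h5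
  refine ⟨max (Finset.univ.sup fun j => (A j).natDegree) (Finset.univ.sup fun j =>
    (B j).natDegree), Or.inr ⟨a, b, A, B, ⟨disc_of_ns hns, fun i => ⟨?_, ?_⟩, hnc, hcur⟩,
      (E m)⁻¹, x1 m, z1 m, h4, fun i => ?_⟩⟩
  · exact (Finset.le_sup (f := fun j => (A j).natDegree) (Finset.mem_univ i)).trans
      (le_max_left _ _)
  · exact (Finset.le_sup (f := fun j => (B j).natDegree) (Finset.mem_univ i)).trans
      (le_max_right _ _)
  · rw [h5 i, inv_mul_cancel_left₀ h3]

/-- **Sequences over a field of transcendence degree one.** -/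
theorem per_fld' (hs0 : ∀ G ∈ s0, ∃ d, G.IsHomogeneous d) (hs : ∀ z, j (s z) = shG (j z))
    (hess : Algebra.EssFiniteType ℂ K) (htd : Algebra.trdeg ℂ K ≤ 1)
    {x : ℕ → Fin (N + 1) → ℂ} {Y : Fin (N + 1) → K}
    (hY : ∀ i, j (Y i) = gg fun m => x m i)
    (hne : ∀ᶠ m in atTop, x m ≠ 0)
    (hX : ∀ᶠ m in atTop, ∀ G ∈ s0, eval (x m) G = 0)
    (hZ : ∀ᶠ m in atTop, ¬ SC s0 (x m)) : Per x := by
  by_cases hc : ∃ (v : K) (c : Fin (N + 1) → ℂ), ∀ i, Y i = algebraMap ℂ K (c i) * v
  · exact per_const hY hc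
  have hY0 : Y ≠ 0 := by
    rintro rfl
    exact hc ⟨0, 0, fun i => by rw [mul_zero]; rfl⟩
  have hff : IsFF ℂ K := by
    refine ⟨hess, le_antisymm htd ?_⟩
    by_contra hlt
    rw [not_le, Cardinal.lt_one_iff, _root_.trdeg_eq_zero_iff] at hlt
    apply hc
    have h1 : ∀ z : K, ∃ a : ℂ, algebraMap ℂ K a = z := by
      intro z
      have h3 : IsAlgebraic ℂ z := hlt.isAlgebraic z
      have h4 := IsAlgClosed.degree_eq_one_of_irreducible ℂ (minpoly.irreducible h3.isIntegral)
      exact minpoly.mem_range_of_degree_eq_one ℂ _ h4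
    choose a ha using h1
    exact ⟨1, fun i => a (Y i), fun i => by rw [ha, mul_one]⟩
  have hfin : ∀ _ : (∀ᶠ m in atTop, SC s0 (x m)) ∨
        ∃ (v : K) (c : Fin (N + 1) → ℂ), ∀ i, Y i = algebraMap ℂ K (c i) * v, Per x := by
    intro h1
    rcases h1 with h1 | h1
    · obtain ⟨m, hm1, hm2⟩ := (h1.and hZ).exists
      exact absurd hm1 hm2
    · exact absurd h1 hc
  rcases lt_trichotomy (canDeg ℂ K) 0 with h0 | h0 | h0
  · obtain ⟨t, ht⟩ := rational_of_neg h0
    have htr : Transcendental ℂ t := by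
      intro halg
      have h1 : Algebra.IsAlgebraic ℂ K := by
        have h2 := IntermediateField.isAlgebraic_adjoin_simple halg.isIntegral
        rw [ht] at h2
        exact ⟨fun z => by
          have h3 := h2.isAlgebraic (⟨z, IntermediateField.mem_top⟩ : (⊤ : IntermediateField ℂ K))
          exact (isAlgebraic_algHom_iff (IntermediateField.val ⊤) Subtype.val_injective).2 h3⟩
      have h2 := IsFF.trdeg (k := ℂ) (K := K)
      rw [_root_.trdeg_eq_zero_iff.2 h1] at h2
      exact zero_ne_one h2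
    exact hfin (rat_case' hs0 htr ht hY hY0 (van_Y hY hX))
  · exact hfin (ell_case' hs0 h0 hY hY0 (van_Y hY hX))
  · exact per_pos' hs0 hs h0 hY hne hX hZ

/-- sequences over a field of germs -/
theorem per_sub' (hs0 : ∀ G ∈ s0, ∃ d, G.IsHomogeneous d) {T : Subalgebra ℂ GG} (hT : IsFld T)
    (hess : Algebra.EssFiniteType ℂ T) (htd : Algebra.trdeg ℂ T ≤ 1)
    {x : ℕ → Fin (N + 1) → ℂ} (hY : ∀ i, (gg fun m => x m i) ∈ T)
    (hne : ∀ᶠ m in atTop, x m ≠ 0)
    (hX : ∀ᶠ m in atTop, ∀ G ∈ s0, eval (x m) G = 0)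
    (hZ : ∀ᶠ m in atTop, ¬ SC s0 (x m)) : Per x := by
  let _ : Field T := hT.isField.toField
  let s : T →ₐ[ℂ] T :=
    { toFun := fun x => ⟨shG x, hT.1 x x.2⟩
      map_one' := Subtype.ext (map_one shG)
      map_mul' := fun x y => Subtype.ext (map_mul shG (x : GG) (y : GG))
      map_zero' := Subtype.ext (map_zero shG)
      map_add' := fun x y => Subtype.ext (map_add shG (x : GG) (y : GG))
      commutes' := fun c => Subtype.ext (by
        change shG (algebraMap ℂ GG c) = algebraMap ℂ GG c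
        rw [← gg.commutes c, shG_gg]
        rfl) }
  exact per_fld' (K := T) (j := T.val) (s := s) hs0 (fun z => rfl) hess htd
    (Y := fun i => ⟨_, hY i⟩) (fun i => rfl) hne hX hZ

end

section

variable {k : Type} [Field k] [Algebra ℂ k] [Algebra k GG] [IsScalarTower ℂ k GG]
  {S : Subalgebra k GG} {s0 : Set (MvPolynomial (Fin (N + 1)) ℂ)}

/-- sequences over a finite difference algebra -/
theorem per_split' (hs0 : ∀ G ∈ s0, ∃ d, G.IsHomogeneous d) (hess : Algebra.EssFiniteType ℂ k)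
    (htd : Algebra.trdeg ℂ k ≤ 1) (hst : ∀ x ∈ S, shG x ∈ S) (hfin : Module.Finite k S)
    {x : ℕ → Fin (N + 1) → ℂ} (hY : ∀ i, (gg fun m => x m i) ∈ S)
    (hne : ∀ᶠ m in atTop, x m ≠ 0)
    (hX : ∀ᶠ m in atTop, ∀ G ∈ s0, eval (x m) G = 0)
    (hZ : ∀ᶠ m in atTop, ¬ SC s0 (x m)) : Per x := by
  obtain ⟨M, hM, hp⟩ := exists_period hst hfin
  refine per_of_classes hne hM fun a => ?_
  have hfld := Sa_fld hst hfin hM hp a
  obtain ⟨h1, h2⟩ := Sa_fg hfin hM a hfld hess htd
  exact per_sub' hs0 hfld h1 h2 (x := fun m => x (a + M * m))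
    (fun i => ⟨_, hY i, rfl⟩) (ev_res hne hM) (ev_res hX hM) (ev_res hZ hM)

end

/-- **The theorem over a field of transcendence degree one.** -/
theorem good_one' {B : Subalgebra ℂ (ℕ → ℂ)} {s : Set (MvPolynomial (Fin (N + 1)) ℂ)}
    (hs : ∀ G ∈ s, ∃ d, G.IsHomogeneous d) (hB : CoefField B)
    (hess : Algebra.EssFiniteType ℂ (KB B hB)) (htd : Algebra.trdeg ℂ (KB B hB) ≤ 1)
    {x : ℕ → Fin (N + 1) → ℂ} (hne : ∀ᶠ m in atTop, x m ≠ 0)
    (hx : ∀ j, LinRec B fun m => x m j)
    (hX : ∀ᶠ m in atTop, ∀ G ∈ s, eval (x m) G = 0)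
    (hZ : ∀ᶠ m in atTop, ¬ SC s (x m)) : Per x := by
  classical
  -- a linear form
  obtain ⟨c, hc⟩ := exists_linear (fun m => if x m = 0 then fun _ => 1 else x m) (by
    intro m
    by_cases h0 : x m = 0
    · simp only [if_pos h0]
      intro h1
      exact one_ne_zero (congrFun h1 0)
    · simp only [if_neg h0]
      exact h0)
  let ℓ : MvPolynomial (Fin (N + 1)) ℂ := ∑ j : Fin (N + 1), C (c ^ (j : ℕ)) * X j
  have hℓ : ℓ.IsHomogeneous 1 := by
    refine IsHomogeneous.sum _ _ _ fun j _ => ?_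
    have h2 := (isHomogeneous_C (Fin (N + 1)) (c ^ (j : ℕ))).mul (isHomogeneous_X ℂ j)
    rwa [zero_add] at h2
  have hℓe : ∀ v : Fin (N + 1) → ℂ, eval v ℓ = ∑ j : Fin (N + 1), c ^ (j : ℕ) * v j := by
    intro v
    simp only [ℓ, map_sum, map_mul, eval_C, eval_X]
  have hℓx : ∀ᶠ m in atTop, eval (x m) ℓ ≠ 0 := by
    filter_upwards [hne] with m hm
    have h1 := hc m
    simp only [if_neg hm] at h1
    rw [hℓe]
    exact h1
  obtain ⟨t, ht⟩ := exists_rc hB hx hℓ hℓx (s := s) hs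
    (fun G hG => hX.mono fun m hm => hm G hG)
  let y : Fin (N + 1) → ℕ → ℂ := fun j m => x (m + t) j / eval (x (m + t)) ℓ
  have hℓt := eventually_shift hℓx t
  have hint : ∀ j, IsIntegral (KB B hB) (gg (y j)) := by
    intro j
    refine int_of_cf hB fun J hJ hJp => ?_
    have hdom : IsDomain ((ℕ → ℂ) ⧸ J) := Ideal.Quotient.isDomain J
    apply rel_of_cf hB hJ hJp (FractionRing ((ℕ → ℂ) ⧸ J))
    by_contra hcon
    obtain ⟨m, ⟨p, h1, h2, h3⟩, h6⟩ :=
      ((ht J hJ hJp (FractionRing ((ℕ → ℂ) ⧸ J)) j hcon).and_eventually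
        (eventually_shift hZ t)).exists
    exact h6 (sc_of_rc ⟨p, h1, h2, h3⟩)
  have hf : ∀ j, LF (KB B hB) (gg fun m => x (m + t) j) := fun j =>
    LF_of_linRec hB (LinRec.shift hB (hx j) t)
  have hg : LF (KB B hB) (gg fun m => eval (x (m + t)) ℓ) := by
    have h1 : gg (fun m => eval (x (m + t)) ℓ) = ∑ j : Fin (N + 1),
        algebraMap (KB B hB) GG (cK hB ⟨_, B.algebraMap_mem (c ^ (j : ℕ))⟩) *
          gg fun m => x (m + t) j := by
      simp only [alg_cK, ← map_mul]
      rw [← map_sum]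
      congr 1
      funext m
      rw [hℓe, Finset.sum_apply]
      rfl
    rw [h1]
    exact LF.sum (shK hB) (shG_alg hB) _ fun j _ =>
      (LF.alg (shK hB) (shG_alg hB) _).mul (hf j)
  obtain ⟨S, hyS, hst, hfin⟩ := exists_common hB (f := fun j => gg fun m => x (m + t) j)
    (r := fun j => gg (y j)) (g := gg fun m => eval (x (m + t)) ℓ) hf hg (ne_unit hℓt)
    (fun j => by
      rw [← map_mul, gg_eq]
      filter_upwards [hℓt] with m hm
      rw [Pi.mul_apply]
      exact mul_div_cancel₀ _ hm) hint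
  have hb : ∀ᶠ m in atTop, (eval (x (m + t)) ℓ)⁻¹ ≠ 0 := by
    filter_upwards [hℓt] with m h2
    exact inv_ne_zero h2
  refine Per.shift (t := t) (Per.scale (b := fun m => (eval (x (m + t)) ℓ)⁻¹) hb
    (per_split' hs hess htd hst hfin (fun i => ?_) ?_ ?_ ?_))
  · have h1 : (fun m => (eval (x (m + t)) ℓ)⁻¹ * x (m + t) i) = y i := by
      funext m
      change _ = x (m + t) i / eval (x (m + t)) ℓ
      rw [div_eq_mul_inv, mul_comm]
    rw [h1]
    exact hyS i
  · filter_upwards [hb, eventually_shift hne t] with m h1 h2 h3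
    apply h2
    funext j
    have h4 := congrFun h3 j
    exact (mul_eq_zero.1 h4).resolve_left h1
  · filter_upwards [eventually_shift hX t] with m h1
    intro G hG
    obtain ⟨d, hd⟩ := hs G hG
    rw [eval_homog hd, h1 G hG, mul_zero]
  · filter_upwards [hb, hℓt, eventually_shift hZ t] with m h1 h5 h2 h3
    apply h2
    have h4 := h3.scale (eval (x (m + t)) ℓ)
    simpa [mul_inv_cancel_left₀ h5] using h4

/-- **Sequences over the field of sequences along an orbit on a curve.** -/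
theorem orb_dich {F A₁ A₂ C₀ : Polynomial (Polynomial ℂ)} {T : ℕ → ℂ × ℂ}
    (hT : Orbt F A₁ A₂ C₀ T) {s : Set (MvPolynomial (Fin (N + 1)) ℂ)}
    (hs : ∀ G ∈ s, ∃ d, G.IsHomogeneous d) {x : ℕ → Fin (N + 1) → ℂ} (hx0 : ∀ m, x m ≠ 0)
    {r : ℕ} {P : Fin (N + 1) → ℕ → Polynomial (Polynomial ℂ)} (hP : ∀ j, ∃ k ≤ r, ¬ F ∣ P j k)
    (hrec : ∀ j m, ∑ k ∈ Finset.range (r + 1), vl (P j k) (T m) * x (m + k) j = 0)
    (hX : ∀ m, ∀ G ∈ s, eval (x m) G = 0) : Per x ∨ ∃ m, SC s (x m) := by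
  by_cases hsc : ∃ m, SC s (x m)
  · exact Or.inr hsc
  left
  push Not at hsc
  refine good_one' hs hT.field (ess_of_finGen hT.field finGen) hT.trdeg
    (Eventually.of_forall hx0) (fun j => ?_) (Eventually.of_forall hX)
    (Eventually.of_forall hsc)
  obtain ⟨k0, hk0, hPk0⟩ := hP j
  refine ⟨r, fun k m => vl (P j k) (T m), fun k => BO_of (P j k), ⟨k0, hk0, fun h0 => ?_⟩,
    Eventually.of_forall fun m => hrec j m⟩
  rcases hT.dich (P j k0) with h1 | h1
  · exact hPk0 h1.1
  · obtain ⟨m, h2, h3⟩ := (h0.and h1.2).exists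
    exact h3 h2

end Pool.Agent.Helper6.OD
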