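import Pool.Agent.Helper6.FT.Spe

/-! Transfer between extensions of a field. -/

set_option autoImplicit false
set_option linter.unusedSectionVars false

namespace Pool.Agent.Helper6.OD

open Polynomial Pool.Agent.Helper6.FT Pool.Agent.Helper6.EE Pool.Agent.Helper6.EV

theorem mp_aeval1 {k R R' : Type} [CommRing k] [CommRing R] [CommRing R'] [Algebra k R]
    [Algebra k R'] {κ : Type} (φ : R →ₐ[k] R') (W : κ → R[X]) (F : MvPolynomial κ k) :
    (MvPolynomial.aeval W F : R[X]).map (φ : R →+* R') =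
      MvPolynomial.aeval (fun j => (W j).map (φ : R →+* R')) F := by
  have h1 := MvPolynomial.comp_aeval_apply (f := W) (Polynomial.mapAlgHom φ) F
  exact h1

theorem mp_aeval2 {k R R' : Type} [CommRing k] [CommRing R] [CommRing R'] [Algebra k R]
    [Algebra k R'] {κ : Type} (φ : R →ₐ[k] R') (W : κ → R[X][X]) (F : MvPolynomial κ k) :
    (MvPolynomial.aeval W F : R[X][X]).map (mapRingHom (φ : R →+* R')) =
      MvPolynomial.aeval (fun j => (W j).map (mapRingHom (φ : R →+* R'))) F := by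
  have h1 := MvPolynomial.comp_aeval_apply (f := W)
    (Polynomial.mapAlgHom (Polynomial.mapAlgHom φ)) F
  exact h1

theorem we_monic {R : Type} [Field R] (a b : R) : (wei a b).Monic :=
  monic_X_pow_sub_C _ two_ne_zero

section

variable {M E Ω : Type} [Field M] [Field E] [Algebra M E] [Field Ω] [Algebra M Ω] [IsAlgClosed Ω]

/-- points of finitely generated algebras -/
theorem exists_pt' (B : Subalgebra M E) (hB : B.FG) : ∃ _φ : B →ₐ[M] Ω, True := by
  have hft : Algebra.FiniteType M B := B.fg_iff_finiteType.1 hB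
  obtain ⟨m, hm⟩ := Ideal.exists_maximal B
  let _ : Field (B ⧸ m) := Ideal.Quotient.field m
  have h1 : Algebra.FiniteType M (B ⧸ m) := inferInstance
  have h2 : Module.Finite M (B ⧸ m) := finite_of_finite_type_of_isJacobsonRing M (B ⧸ m)
  have h3 : Algebra.IsAlgebraic M (B ⧸ m) := Algebra.IsAlgebraic.of_finite M (B ⧸ m)
  let ψ : (B ⧸ m) →ₐ[M] Ω := IsAlgClosed.lift
  exact ⟨ψ.comp (Ideal.Quotient.mkₐ M m), trivial⟩

variable (Ω)

theorem exists_spec0 (T : Finset E) {s : E} (hs : s ≠ 0) : ∃ (B : Subalgebra M E) (φ : B →ₐ[M] Ω),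
    (∀ t ∈ T, t ∈ B) ∧ ∃ hsB : s ∈ B, φ ⟨s, hsB⟩ ≠ 0 := by
  classical
  let T' : Finset E := T ∪ {s, s⁻¹}
  let B : Subalgebra M E := Algebra.adjoin M (T' : Set E)
  have hB : B.FG := ⟨T', rfl⟩
  obtain ⟨φ, -⟩ := exists_pt' (Ω := Ω) B hB
  have hT : ∀ t ∈ T', t ∈ B := fun t ht => Algebra.subset_adjoin ht
  have hsB : s ∈ B := hT _ (Finset.mem_union_right _ (by simp))
  have hsB' : s⁻¹ ∈ B := hT _ (Finset.mem_union_right _ (by simp))
  refine ⟨B, φ, fun t ht => hT t (Finset.mem_union_left _ ht), hsB, fun h0 => ?_⟩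
  have h1 : (⟨s, hsB⟩ : B) * ⟨s⁻¹, hsB'⟩ = 1 := Subtype.ext (mul_inv_cancel₀ hs)
  have h2 := congrArg φ h1
  rw [map_mul, h0, zero_mul, map_one] at h2
  exact zero_ne_one h2

variable {Ω}

theorem lift1 (B : Subalgebra M E) (V : E[X]) (h : ∀ m, V.coeff m ∈ B) :
    ∃ W : B[X], W.map (B.val : B →+* E) = V := by
  have h1 : V ∈ Polynomial.lifts (B.val : B →+* E) := by
    rw [Polynomial.lifts_iff_coeff_lifts]
    intro m
    exact ⟨⟨_, h m⟩, rfl⟩
  exact (Polynomial.mem_lifts _).1 h1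

theorem lift2 (B : Subalgebra M E) (V : E[X][X]) (h : ∀ m l, (V.coeff m).coeff l ∈ B) :
    ∃ W : B[X][X], W.map (mapRingHom (B.val : B →+* E)) = V := by
  have h1 : V ∈ Polynomial.lifts (mapRingHom (B.val : B →+* E)) := by
    rw [Polynomial.lifts_iff_coeff_lifts]
    intro m
    obtain ⟨W, hW⟩ := lift1 B (V.coeff m) (h m)
    exact ⟨W, hW⟩
  exact (Polynomial.mem_lifts _).1 h1

/-- the coefficients -/
noncomputable def cfT (V : E[X]) : Finset E := letI := Classical.decEq E; V.support.image fun m => V.coeff m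

theorem cfT_mem {B : Subalgebra M E} {V : E[X]} (h : ∀ t ∈ cfT V, t ∈ B) (m : ℕ) :
    V.coeff m ∈ B := by
  classical
  by_cases h0 : V.coeff m = 0
  · rw [h0]; exact zero_mem _
  · apply h
    unfold cfT
    rw [Finset.mem_image]
    exact ⟨m, mem_support_iff.2 h0, rfl⟩

/-- the coefficients -/
noncomputable def cfT2 (V : E[X][X]) : Finset E :=
  letI := Classical.decEq E; V.support.biUnion fun m => cfT (V.coeff m)

theorem cfT2_mem {B : Subalgebra M E} {V : E[X][X]} (h : ∀ t ∈ cfT2 V, t ∈ B) (m l : ℕ) :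
    (V.coeff m).coeff l ∈ B := by
  classical
  by_cases h0 : V.coeff m = 0
  · rw [h0, coeff_zero]; exact zero_mem _
  · apply cfT_mem
    intro t ht
    apply h
    unfold cfT2
    rw [Finset.mem_biUnion]
    exact ⟨m, mem_support_iff.2 h0, ht⟩

/-- the coefficients of finitely many polynomials -/
noncomputable def cfTs {κ : Type} [Fintype κ] (V : κ → E[X]) : Finset E :=
  letI := Classical.decEq E; Finset.univ.biUnion fun j => cfT (V j)

theorem cfTs_mem {κ : Type} [Fintype κ] {B : Subalgebra M E} {V : κ → E[X]}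
    (h : ∀ t ∈ cfTs V, t ∈ B) (j : κ) (m : ℕ) : (V j).coeff m ∈ B := by
  classical
  apply cfT_mem
  intro t ht
  apply h
  unfold cfTs
  rw [Finset.mem_biUnion]
  exact ⟨j, Finset.mem_univ j, ht⟩

variable {κ : Type} [Fintype κ]

/-- **Transfer of rational curves** -/
theorem tr_rat {S : Set (MvPolynomial κ M)} {d : ℕ} {η : κ → M}
    (h : OnRat S d fun j => algebraMap M E (η j)) : OnRat S d fun j => algebraMap M Ω (η j) := by
  classical
  obtain ⟨V, ⟨h1, ⟨i, j, m, l, h2⟩, h3⟩, g, q, h4⟩ := h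
  obtain ⟨B, φ, hT, hsB, hφ⟩ := exists_spec0 (M := M) Ω (cfTs V ∪ {g, q}) (sub_ne_zero.2 h2)
  have hc : ∀ j m, (V j).coeff m ∈ B := cfTs_mem fun t ht => hT t (Finset.mem_union_left _ ht)
  have hg : g ∈ B := hT g (Finset.mem_union_right _ (by simp))
  have hq : q ∈ B := hT q (Finset.mem_union_right _ (by simp))
  choose W hW using fun j => lift1 B (V j) (hc j)
  have hinj : Function.Injective (B.val : B →+* E) := Subtype.val_injective
  have hcoe : ∀ j m, (((W j).coeff m : B) : E) = (V j).coeff m := by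
    intro j m
    rw [← hW j, coeff_map]
    rfl
  have hs : φ ((W i).coeff m * (W j).coeff l - (W j).coeff m * (W i).coeff l) ≠ 0 := by
    have h5 : (⟨_, hsB⟩ : B) = (W i).coeff m * (W j).coeff l - (W j).coeff m * (W i).coeff l :=
      Subtype.ext (by
        push_cast
        rw [hcoe, hcoe, hcoe, hcoe])
    rw [← h5]
    exact hφ
  rw [map_sub, map_mul, map_mul] at hs
  refine ⟨fun j => (W j).map (φ : B →+* Ω), ⟨fun j => ?_, ⟨i, j, m, l, ?_⟩, fun F hF => ?_⟩,
    φ ⟨g, hg⟩, φ ⟨q, hq⟩, fun j => ?_⟩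
  · refine natDegree_map_le.trans ?_
    rw [← natDegree_map_eq_of_injective hinj, hW j]
    exact h1 j
  · rw [coeff_map, coeff_map, coeff_map, coeff_map]
    exact sub_ne_zero.1 hs
  · rw [← mp_aeval1]
    have h5 : (MvPolynomial.aeval W F : B[X]) = 0 := by
      apply Polynomial.map_injective _ hinj
      rw [mp_aeval1, Polynomial.map_zero, ← h3 F hF]
      congr 2
      funext j
      exact hW j
    rw [h5, Polynomial.map_zero]
  · beta_reduce
    have h5 : algebraMap M B (η j) = ⟨g, hg⟩ * (W j).eval ⟨q, hq⟩ := by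
      apply hinj
      rw [map_mul]
      have h6 := h4 j
      beta_reduce at h6
      rw [← hW j, eval_map] at h6
      have h7 : algebraMap M E (η j) = (B.val : B →+* E) (algebraMap M B (η j)) := rfl
      rw [← h7, h6]
      congr 1
      exact eval₂_at_apply (B.val : B →+* E) (p := W j) (⟨q, hq⟩ : B)
    have h6 := congrArg φ h5
    rw [AlgHom.commutes, map_mul] at h6
    rw [h6, eval_map]
    congr 1
    exact (eval₂_at_apply (φ : B →+* Ω) (p := W j) (⟨q, hq⟩ : B)).symm

/-- **Transfer of elliptic curves** -/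
theorem tr_ell {S : Set (MvPolynomial κ M)} {d : ℕ} {η : κ → M}
    (h : OnEll E S d fun j => algebraMap M E (η j)) : OnEll Ω S d fun j => algebraMap M Ω (η j) := by
  classical
  obtain ⟨a, b, A, A', ⟨h0, h1, ⟨i, j, s, t, h2⟩, h3⟩, g, x, y, hy, h4⟩ := h
  change 4 * a ^ 3 + 27 * b ^ 2 ≠ 0 at h0
  change y ^ 2 = x ^ 3 + a * x + b at hy
  change ∀ F ∈ S, wei a b ∣ (MvPolynomial.aeval (fun j => onE (A j) (A' j)) F : E[X][X]) at h3
  obtain ⟨B, φ, hT, hsB, hφ⟩ := exists_spec0 (M := M) Ω (cfTs A ∪ cfTs A' ∪ {g, x, y, a, b})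
    (mul_ne_zero (sub_ne_zero.2 h2) h0)
  have hc : ∀ j m, (A j).coeff m ∈ B := cfTs_mem fun t ht =>
    hT t (Finset.mem_union_left _ (Finset.mem_union_left _ ht))
  have hc' : ∀ j m, (A' j).coeff m ∈ B := cfTs_mem fun t ht =>
    hT t (Finset.mem_union_left _ (Finset.mem_union_right _ ht))
  have hg : g ∈ B := hT g (Finset.mem_union_right _ (by simp))
  have hx : x ∈ B := hT x (Finset.mem_union_right _ (by simp))
  have hyB : y ∈ B := hT y (Finset.mem_union_right _ (by simp))
  have ha : a ∈ B := hT a (Finset.mem_union_right _ (by simp))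
  have hb : b ∈ B := hT b (Finset.mem_union_right _ (by simp))
  choose W hW using fun j => lift1 B (A j) (hc j)
  choose W' hW' using fun j => lift1 B (A' j) (hc' j)
  have hinj : Function.Injective (B.val : B →+* E) := Subtype.val_injective
  have hcf : ∀ {R' : Type} [CommRing R'] (ψ : B →+* R') (P P' : B[X]) u,
      Sum.elim (P.map ψ).coeff (P'.map ψ).coeff u = ψ (Sum.elim P.coeff P'.coeff u) := by
    intro R' _ ψ P P' u
    rcases u with u | u
    · exact coeff_map _ _
    · exact coeff_map _ _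
  have hcfs : ∀ j u, ((Sum.elim (W j).coeff (W' j).coeff u : B) : E) = cfs (A j) (A' j) u := by
    intro j u
    have := hcf (B.val : B →+* E) (W j) (W' j) u
    rw [hW, hW'] at this
    exact this.symm
  have hs : φ ((Sum.elim (W i).coeff (W' i).coeff s * Sum.elim (W j).coeff (W' j).coeff t -
      Sum.elim (W j).coeff (W' j).coeff s * Sum.elim (W i).coeff (W' i).coeff t) *
      (4 * ⟨a, ha⟩ ^ 3 + 27 * ⟨b, hb⟩ ^ 2)) ≠ 0 := by
    have h5 : (⟨_, hsB⟩ : B) = (Sum.elim (W i).coeff (W' i).coeff s *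
        Sum.elim (W j).coeff (W' j).coeff t -
      Sum.elim (W j).coeff (W' j).coeff s * Sum.elim (W i).coeff (W' i).coeff t) *
      (4 * ⟨a, ha⟩ ^ 3 + 27 * ⟨b, hb⟩ ^ 2) :=
      Subtype.ext (by
        change (cfs (A i) (A' i) s * cfs (A j) (A' j) t - cfs (A j) (A' j) s *
          cfs (A i) (A' i) t) * (4 * a ^ 3 + 27 * b ^ 2) = _
        rw [← hcfs, ← hcfs, ← hcfs, ← hcfs]
        rfl)
    rw [← h5]
    exact hφ
  rw [map_mul, map_sub, map_mul, map_mul] at hs
  have hs1 := left_ne_zero_of_mul hs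
  have hs2 := right_ne_zero_of_mul hs
  -- the values on the curve
  have hone : ∀ {R' : Type} [CommRing R'] [Algebra M R'] (ψ : B →ₐ[M] R') (F : MvPolynomial κ M),
      ((MvPolynomial.aeval (fun j => two (W j) (W' j)) F : B[X][X]) %ₘ
        weqR (⟨a, ha⟩ : B) ⟨b, hb⟩).map (mapRingHom (ψ : B →+* R')) =
      (MvPolynomial.aeval (fun j => two ((W j).map (ψ : B →+* R')) ((W' j).map (ψ : B →+* R')))
        F : R'[X][X]) %ₘ weqR (ψ ⟨a, ha⟩) (ψ ⟨b, hb⟩) := by
    intro R' _ _ ψ F
    rw [Polynomial.map_modByMonic _ (weqR_monic _ _), weqR_map, mp_aeval2]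
    congr 3
    funext j
    rw [two_map]
  refine ⟨φ ⟨a, ha⟩, φ ⟨b, hb⟩, fun j => (W j).map (φ : B →+* Ω), fun j => (W' j).map (φ : B →+* Ω),
    ⟨?_, fun j => ⟨?_, ?_⟩, ⟨i, j, s, t, ?_⟩, fun F hF => ?_⟩, φ ⟨g, hg⟩, φ ⟨x, hx⟩, φ ⟨y, hyB⟩,
      ?_, fun j => ?_⟩
  · change 4 * φ ⟨a, ha⟩ ^ 3 + 27 * φ ⟨b, hb⟩ ^ 2 ≠ 0
    simpa only [map_add, map_mul, map_pow, map_ofNat] using hs2
  · refine natDegree_map_le.trans ?_
    rw [← natDegree_map_eq_of_injective hinj, hW j]
    exact (h1 j).1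
  · refine natDegree_map_le.trans ?_
    rw [← natDegree_map_eq_of_injective hinj, hW' j]
    exact (h1 j).2
  · unfold cfs
    rw [hcf, hcf, hcf, hcf]
    exact sub_ne_zero.1 hs1
  · change wei (φ ⟨a, ha⟩) (φ ⟨b, hb⟩) ∣ _
    rw [← Polynomial.modByMonic_eq_zero_iff_dvd (we_monic _ _)]
    have h5 : (MvPolynomial.aeval (fun j => two (W j) (W' j)) F : B[X][X]) %ₘ
        weqR (⟨a, ha⟩ : B) ⟨b, hb⟩ = 0 := by
      apply Polynomial.map_injective (mapRingHom (B.val : B →+* E))
        (Polynomial.map_injective _ hinj)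
      rw [hone B.val F, Polynomial.map_zero]
      have h6 := h3 F hF
      rw [← Polynomial.modByMonic_eq_zero_iff_dvd (we_monic _ _)] at h6
      rw [← h6]
      change _ = (MvPolynomial.aeval (fun j => two (A j) (A' j)) F : E[X][X]) %ₘ weqR a b
      congr 3
      funext j
      rw [hW, hW']
    have h4 := hone φ F
    rw [h5, Polynomial.map_zero] at h4
    exact h4.symm
  · change φ ⟨y, hyB⟩ ^ 2 = φ ⟨x, hx⟩ ^ 3 + φ ⟨a, ha⟩ * φ ⟨x, hx⟩ + φ ⟨b, hb⟩
    have h5 : (⟨y, hyB⟩ : B) ^ 2 = (⟨x, hx⟩ : B) ^ 3 + (⟨a, ha⟩ : B) * ⟨x, hx⟩ + ⟨b, hb⟩ :=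
      Subtype.ext hy
    have h6 := congrArg φ h5
    simpa only [map_add, map_mul, map_pow] using h6
  · beta_reduce
    have h5 : algebraMap M B (η j) =
        ⟨g, hg⟩ * ((W j).eval ⟨x, hx⟩ + (W' j).eval ⟨x, hx⟩ * ⟨y, hyB⟩) := by
      apply hinj
      rw [map_mul, map_add, map_mul]
      have h6 := h4 j
      beta_reduce at h6
      rw [← hW j, ← hW' j, eval_map, eval_map] at h6
      have h7 : algebraMap M E (η j) = (B.val : B →+* E) (algebraMap M B (η j)) := rfl
      rw [← h7, h6]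
      congr 2
      · exact eval₂_at_apply (B.val : B →+* E) (p := W j) (⟨x, hx⟩ : B)
      · congr 1
        exact eval₂_at_apply (B.val : B →+* E) (p := W' j) (⟨x, hx⟩ : B)
    have h6 := congrArg φ h5
    rw [AlgHom.commutes, map_mul, map_add, map_mul] at h6
    rw [h6, eval_map, eval_map]
    congr 2
    · exact (eval₂_at_apply (φ : B →+* Ω) (p := W j) (⟨x, hx⟩ : B)).symm
    · congr 1
      exact (eval₂_at_apply (φ : B →+* Ω) (p := W' j) (⟨x, hx⟩ : B)).symm

end

section irr

/-- units in two variables -/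
theorem unit2 {M : Type} [Field M] {G : M[X][X]} :
    IsUnit G ↔ G ≠ 0 ∧ ∀ m l, (m ≠ 0 ∨ l ≠ 0) → (G.coeff m).coeff l = 0 := by
  constructor
  · intro h
    obtain ⟨c, hc, rfl⟩ := Polynomial.isUnit_iff.1 h
    obtain ⟨c, hc, rfl⟩ := Polynomial.isUnit_iff.1 hc
    refine ⟨h.ne_zero, fun m l hml => ?_⟩
    rw [coeff_C]
    split_ifs with hm
    · rw [coeff_C, if_neg]
      intro hl
      rcases hml with h1 | h1
      · exact h1 hm
      · exact h1 hl
    · exact coeff_zero _
  · rintro ⟨h0, h⟩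
    have h1 : G = C (C ((G.coeff 0).coeff 0)) := by
      ext m l
      rw [coeff_C]
      split_ifs with hm
      · rw [coeff_C]
        split_ifs with hl
        · rw [hm, hl]
        · exact h m l (Or.inr hl)
      · rw [coeff_zero]
        exact h m l (Or.inl hm)
    have h2 : (G.coeff 0).coeff 0 ≠ 0 := by
      intro h3
      rw [h3, C_0, C_0] at h1
      exact h0 h1
    rw [h1]
    exact isUnit_C.2 (isUnit_C.2 (isUnit_iff_ne_zero.2 h2))

theorem not_unit2 {M : Type} [Field M] {G : M[X][X]} (h0 : G ≠ 0) (h : ¬ IsUnit G) :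
    ∃ m l, (m ≠ 0 ∨ l ≠ 0) ∧ (G.coeff m).coeff l ≠ 0 := by
  rw [unit2] at h
  push Not at h
  obtain ⟨m, l, h1, h2⟩ := h h0
  exact ⟨m, l, h1, h2⟩

variable {M E Ω : Type} [Field M] [Field E] [Algebra M E] [Field Ω] [Algebra M Ω] [IsAlgClosed Ω]

theorem coeff_map2 {R R' : Type} [CommRing R] [CommRing R'] (φ : R →+* R') (p : R[X][X])
    (m l : ℕ) : ((p.map (mapRingHom φ)).coeff m).coeff l = φ ((p.coeff m).coeff l) := by
  rw [coeff_map, coe_mapRingHom, coeff_map]

theorem map2_inj {R R' : Type} [CommRing R] [CommRing R'] {φ : R →+* R'}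
    (h : Function.Injective φ) : Function.Injective (Polynomial.map (mapRingHom φ)) :=
  Polynomial.map_injective _ (Polynomial.map_injective _ h)

/-- **Transfer of irreducibility** -/
theorem tr_irr {p : M[X][X]} (h : Irreducible (p.map (mapRingHom (algebraMap M Ω)))) :
    Irreducible (p.map (mapRingHom (algebraMap M E))) := by
  classical
  have hp0 : p ≠ 0 := by
    rintro rfl
    rw [Polynomial.map_zero] at h
    exact h.ne_zero rfl
  refine ⟨fun hu => h.not_isUnit ?_, fun {G H} hGH => ?_⟩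
  · rw [unit2] at hu ⊢
    refine ⟨h.ne_zero, fun m l hml => ?_⟩
    have h1 := hu.2 m l hml
    rw [coeff_map2, map_eq_zero] at h1
    rw [coeff_map2, h1, map_zero]
  · by_contra hcon
    push Not at hcon
    have hne : p.map (mapRingHom (algebraMap M E)) ≠ 0 := by
      intro h1
      apply hp0
      apply map2_inj (algebraMap M E).injective
      rw [h1, Polynomial.map_zero]
    have hG0 : G ≠ 0 := by
      rintro rfl
      rw [zero_mul] at hGH
      exact hne hGH
    have hH0 : H ≠ 0 := by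
      rintro rfl
      rw [mul_zero] at hGH
      exact hne hGH
    obtain ⟨m, l, hml, h1⟩ := not_unit2 hG0 hcon.1
    obtain ⟨m', l', hml', h2⟩ := not_unit2 hH0 hcon.2
    obtain ⟨B, φ, hT, hsB, hφ⟩ := exists_spec0 (M := M) Ω (cfT2 G ∪ cfT2 H) (mul_ne_zero h1 h2)
    obtain ⟨G', hG'⟩ := lift2 B G (cfT2_mem fun t ht => hT t (Finset.mem_union_left _ ht))
    obtain ⟨H', hH'⟩ := lift2 B H (cfT2_mem fun t ht => hT t (Finset.mem_union_right _ ht))
    have hinj : Function.Injective (B.val : B →+* E) := Subtype.val_injective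
    have h3 : p.map (mapRingHom (algebraMap M B)) = G' * H' := by
      apply map2_inj hinj
      rw [Polynomial.map_mul, hG', hH', ← hGH, Polynomial.map_map, mapRingHom_comp]
      rfl
    have h4 := congrArg (Polynomial.map (mapRingHom (φ : B →+* Ω))) h3
    rw [Polynomial.map_mul, Polynomial.map_map] at h4
    have h5 : (mapRingHom (φ : B →+* Ω)).comp (mapRingHom (algebraMap M B)) =
        mapRingHom (algebraMap M Ω) := by
      rw [mapRingHom_comp]
      congr 1
      exact RingHom.ext fun c => φ.commutes c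
    rw [h5] at h4
    have h6 : (G.coeff m).coeff l = ((G'.coeff m).coeff l : B) := by
      rw [← hG', coeff_map2]
      rfl
    have h7 : (H.coeff m').coeff l' = ((H'.coeff m').coeff l' : B) := by
      rw [← hH', coeff_map2]
      rfl
    have h8 : φ ((G'.coeff m).coeff l * (H'.coeff m').coeff l') ≠ 0 := by
      have h9 : (⟨_, hsB⟩ : B) = (G'.coeff m).coeff l * (H'.coeff m').coeff l' :=
        Subtype.ext (by
          push_cast
          rw [h6, h7])
      rw [← h9]
      exact hφ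
    rw [map_mul] at h8
    rcases h.isUnit_or_isUnit h4 with h9 | h9
    · have h10 := (unit2.1 h9).2 m l hml
      rw [coeff_map2] at h10
      exact left_ne_zero_of_mul h8 h10
    · have h10 := (unit2.1 h9).2 m' l' hml'
      rw [coeff_map2] at h10
      exact right_ne_zero_of_mul h8 h10

end irr

end Pool.Agent.Helper6.OD
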