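import Pool.Graph.R_pool_sql_team_seeded_2aa45f1a.Q309.DF.Main
import Pool.Agent.Helper6.OD.Spc
import Pool.Agent.Helper6.OD.Trf

/-! Infinite sequences of points over algebraically closed fields. -/

set_option autoImplicit false
set_option linter.unusedSectionVars false

namespace Pool.Agent.Helper6.OD

open Polynomial Pool.Agent.Helper6.FT Pool.Agent.Helper6.EE Pool.Agent.Helper6.EV
open Pool.Agent.TH143.TW (Per)

section

variable {M E : Type} [Field M] [Field E] [Algebra M E] {κ : Type}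

theorem onRat_map {S : Set (MvPolynomial κ M)} {d : ℕ} {η : κ → E} :
    OnRat ((MvPolynomial.map (algebraMap M E)) '' S) d η ↔ OnRat S d η := by
  constructor
  · rintro ⟨V, ⟨h1, h2, h3⟩, h4⟩
    refine ⟨V, ⟨h1, h2, fun F hF => ?_⟩, h4⟩
    have h5 := h3 _ ⟨F, hF, rfl⟩
    rwa [MvPolynomial.aeval_map_algebraMap] at h5
  · rintro ⟨V, ⟨h1, h2, h3⟩, h4⟩
    refine ⟨V, ⟨h1, h2, ?_⟩, h4⟩
    rintro _ ⟨F, hF, rfl⟩
    rw [MvPolynomial.aeval_map_algebraMap]
    exact h3 F hF

theorem onEll_map {S : Set (MvPolynomial κ M)} {d : ℕ} {η : κ → E} :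
    OnEll E ((MvPolynomial.map (algebraMap M E)) '' S) d η ↔ OnEll E S d η := by
  constructor
  · rintro ⟨a, b, A, B, ⟨h0, h1, h2, h3⟩, h4⟩
    refine ⟨a, b, A, B, ⟨h0, h1, h2, fun F hF => ?_⟩, h4⟩
    have h5 := h3 _ ⟨F, hF, rfl⟩
    rwa [MvPolynomial.aeval_map_algebraMap] at h5
  · rintro ⟨a, b, A, B, ⟨h0, h1, h2, h3⟩, h4⟩
    refine ⟨a, b, A, B, ⟨h0, h1, h2, ?_⟩, h4⟩
    rintro _ ⟨F, hF, rfl⟩
    rw [MvPolynomial.aeval_map_algebraMap]
    exact h3 F hF

theorem onRat_span {S S0 : Set (MvPolynomial κ M)} (h : S ⊆ Ideal.span S0) {d : ℕ} {η : κ → E}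
    (h1 : OnRat S0 d η) : OnRat S d η := by
  obtain ⟨V, ⟨h1, h2, h3⟩, h4⟩ := h1
  refine ⟨V, ⟨h1, h2, fun F hF => ?_⟩, h4⟩
  have h5 : Ideal.span S0 ≤ RingHom.ker (MvPolynomial.aeval V : MvPolynomial κ M →ₐ[M] E[X]) :=
    Ideal.span_le.2 fun G hG => h3 G hG
  exact h5 (h hF)

theorem onEll_span {S S0 : Set (MvPolynomial κ M)} (h : S ⊆ Ideal.span S0) {d : ℕ} {η : κ → E}
    (h1 : OnEll E S0 d η) : OnEll E S d η := by
  obtain ⟨a, b, A, B, ⟨h0, h1, h2, h3⟩, h4⟩ := h1
  refine ⟨a, b, A, B, ⟨h0, h1, h2, fun F hF => ?_⟩, h4⟩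
  have h5 : Ideal.span S0 ≤ Ideal.comap (MvPolynomial.aeval (fun j => onE (A j) (B j)) :
      MvPolynomial κ M →ₐ[M] E[X][X]) (Ideal.span {wei (algebraMap E E a) (algebraMap E E b)}) :=
    Ideal.span_le.2 fun G hG => Ideal.mem_span_singleton.2 (h3 G hG)
  exact Ideal.mem_span_singleton.1 (h5 (h hF))

/-- values of polynomials in two variables -/
theorem vl_map {R R' : Type} [CommRing R] [CommRing R'] (φ : R →+* R') (p : R[X][X])
    (t : R × R) : vl (p.map (mapRingHom φ)) (φ t.1, φ t.2) = φ (vl p t) := by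
  induction p using ind2 with
  | hC c =>
    rw [map_C, coe_mapRingHom, map_C, vl_CC, vl_CC]
  | hX =>
    rw [map_C, coe_mapRingHom, map_X, vl_CX, vl_CX]
  | hY => rw [map_X, vl_X, vl_X]
  | hadd p q hp hq => rw [Polynomial.map_add, vl_add, vl_add, map_add, hp, hq]
  | hmul p q hp hq => rw [Polynomial.map_mul, vl_mul, vl_mul, map_mul, hp, hq]

end

variable {n : ℕ}

/-- the countable field -/
theorem exists_ctble {K : Type} [Field K] [CharZero K] (C : Set K) (hC : C.Countable) :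
    ∃ (M : Type) (_ : Field M) (_ : Countable M) (_ : CharZero M) (_ : Algebra M K)
      (_ : Algebra M ℂ), ∀ c ∈ C, ∃ a : M, algebraMap M K a = c := by
  let _ : Algebra ℚ K := DivisionRing.toRatAlgebra
  obtain ⟨M, _, _, hM, ι, hι⟩ := Pool.Agent.Q309.DF.exists_sub (k0 := ℚ) C hC
  obtain ⟨τ⟩ := Pool.Agent.Q309.DF.rel_embed ℚ M
  have hcz : CharZero M := charZero_of_injective_algebraMap (algebraMap ℚ M).injective
  exact ⟨M, inferInstance, hM, hcz, (ι : M →+* K).toAlgebra, (τ : M →+* ℂ).toAlgebra, hι⟩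

theorem lift_p {M K : Type} [Field M] [Field K] [Algebra M K] (p : K[X])
    (h : ∀ m, ∃ a : M, algebraMap M K a = p.coeff m) : ∃ q : M[X], q.map (algebraMap M K) = p := by
  rw [← Polynomial.mem_lifts, Polynomial.lifts_iff_coeff_lifts]
  exact h

theorem lift_p2 {M K : Type} [Field M] [Field K] [Algebra M K] (p : K[X][X])
    (h : ∀ m l, ∃ a : M, algebraMap M K a = (p.coeff m).coeff l) :
    ∃ q : M[X][X], q.map (mapRingHom (algebraMap M K)) = p := by
  rw [← Polynomial.mem_lifts, Polynomial.lifts_iff_coeff_lifts]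
  intro m
  exact lift_p _ (h m)

/-- the coefficients of a polynomial in two variables -/
def cset {K : Type} [Field K] (p : K[X][X]) : Set K := ⋃ (m : ℕ) (l : ℕ), {(p.coeff m).coeff l}

theorem cset_countable {K : Type} [Field K] (p : K[X][X]) : (cset p).Countable :=
  Set.countable_iUnion fun _ => Set.countable_iUnion fun _ => Set.countable_singleton _

theorem mem_cset {K : Type} [Field K] (p : K[X][X]) (m l : ℕ) : (p.coeff m).coeff l ∈ cset p := by
  unfold cset
  simp only [Set.mem_iUnion]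
  exact ⟨m, l, rfl⟩

/-- **Infinite sequences.** -/
theorem seq_qual {K : Type} [Field K] [CharZero K] [IsAlgClosed K]
    {S : Set (MvPolynomial (Fin (n + 1)) K)} (hS : ∀ F ∈ S, ∃ e, F.IsHomogeneous e)
    {F A₁ A₂ C₀ : K[X][X]} {T : ℕ → K × K} (hT : Orbt F A₁ A₂ C₀ T)
    {x : ℕ → Fin (n + 1) → K} (hx0 : ∀ m, x m ≠ 0) {r : ℕ} {P : Fin (n + 1) → ℕ → K[X][X]}
    (hP : ∀ j, ∃ k ≤ r, vl (P j k) (T 0) ≠ 0)
    (hrec : ∀ j m, ∑ k ∈ Finset.range (r + 1), vl (P j k) (T m) * x (m + k) j = 0)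
    (hX : ∀ m, ∀ G ∈ S, MvPolynomial.eval (x m) G = 0) :
    (∃ m0 k, 0 < k ∧ ∀ m, m0 ≤ m → ∀ u v, x (m + k) u * x m v = x (m + k) v * x m u) ∨
      ∃ m d, OnRat S d (x m) ∨ OnEll K S d (x m) := by
  classical
  obtain ⟨S0, hS0, hspan⟩ := (Submodule.fg_span_iff_fg_span_finset_subset S).1
    (IsNoetherian.noetherian (Submodule.span (MvPolynomial (Fin (n + 1)) K) S))
  have hsub : S ⊆ Ideal.span (S0 : Set (MvPolynomial (Fin (n + 1)) K)) := by
    intro G hG
    have h1 : G ∈ Submodule.span (MvPolynomial (Fin (n + 1)) K) S := Submodule.subset_span hG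
    rw [hspan] at h1
    exact h1
  let C1 : Set K := (⋃ G ∈ S0, (G.coeffs : Set K)) ∪ (cset F ∪ (cset A₁ ∪ (cset A₂ ∪ (cset C₀ ∪
    ((⋃ (m : ℕ), {(T m).1, (T m).2}) ∪ ((⋃ (m : ℕ) (j : Fin (n + 1)), {x m j}) ∪
      ⋃ (j : Fin (n + 1)) (k : ℕ), cset (P j k)))))))
  have hC1 : C1.Countable := by
    refine Set.Countable.union ?_ (Set.Countable.union (cset_countable _) (Set.Countable.union
      (cset_countable _) (Set.Countable.union (cset_countable _) (Set.Countable.union
      (cset_countable _) (Set.Countable.union ?_ (Set.Countable.union ?_ ?_))))))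
    · exact Set.Countable.biUnion S0.countable_toSet fun F _ => F.coeffs.countable_toSet
    · exact Set.countable_iUnion fun m => (Set.countable_singleton _).insert _
    · exact Set.countable_iUnion fun m => Set.countable_iUnion fun j => Set.countable_singleton _
    · exact Set.countable_iUnion fun j => Set.countable_iUnion fun k => cset_countable _
  obtain ⟨M, _, _, _, _, _, hM⟩ := exists_ctble C1 hC1
  have hKinj : Function.Injective (algebraMap M K) := (algebraMap M K).injective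
  obtain ⟨F0, hF0⟩ := lift_p2 (M := M) F fun m l => hM _ (Or.inr (Or.inl (mem_cset _ _ _)))
  obtain ⟨B1, hB1⟩ := lift_p2 (M := M) A₁ fun m l =>
    hM _ (Or.inr (Or.inr (Or.inl (mem_cset _ _ _))))
  obtain ⟨B2, hB2⟩ := lift_p2 (M := M) A₂ fun m l =>
    hM _ (Or.inr (Or.inr (Or.inr (Or.inl (mem_cset _ _ _)))))
  obtain ⟨D0, hD0⟩ := lift_p2 (M := M) C₀ fun m l =>
    hM _ (Or.inr (Or.inr (Or.inr (Or.inr (Or.inl (mem_cset _ _ _))))))
  choose u0 hu0 using fun m : ℕ => hM (T m).1 (by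
    refine Or.inr (Or.inr (Or.inr (Or.inr (Or.inr (Or.inl ?_)))))
    simp only [Set.mem_iUnion]
    exact ⟨m, Or.inl rfl⟩)
  choose v0 hv0 using fun m : ℕ => hM (T m).2 (by
    refine Or.inr (Or.inr (Or.inr (Or.inr (Or.inr (Or.inl ?_)))))
    simp only [Set.mem_iUnion]
    exact ⟨m, Or.inr rfl⟩)
  choose x0 hx0' using fun (m : ℕ) (j : Fin (n + 1)) => hM (x m j) (by
    refine Or.inr (Or.inr (Or.inr (Or.inr (Or.inr (Or.inr (Or.inl ?_))))))
    simp only [Set.mem_iUnion]
    exact ⟨m, j, rfl⟩)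
  choose P0 hP0 using fun (j : Fin (n + 1)) (k : ℕ) => lift_p2 (M := M) (P j k) fun m l =>
    hM _ (by
      refine Or.inr (Or.inr (Or.inr (Or.inr (Or.inr (Or.inr (Or.inr ?_))))))
      simp only [Set.mem_iUnion]
      exact ⟨j, k, mem_cset _ _ _⟩)
  have hlift : ∀ G ∈ S0, ∃ G' : MvPolynomial (Fin (n + 1)) M,
      MvPolynomial.map (algebraMap M K) G' = G := fun G hG =>
    MvPolynomial.mem_range_map_iff_coeffs_subset.2
      fun c hc => hM c (Or.inl (Set.mem_biUnion (x := G) hG hc))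
  have hTm : ∀ m, T m = (algebraMap M K (u0 m), algebraMap M K (v0 m)) := fun m =>
    Prod.ext (hu0 m).symm (hv0 m).symm
  have hval : ∀ (p : M[X][X]) (m : ℕ), algebraMap M K (vl p (u0 m, v0 m)) =
      vl (p.map (mapRingHom (algebraMap M K))) (T m) := by
    intro p m
    rw [hTm]
    exact (vl_map (algebraMap M K) p (u0 m, v0 m)).symm
  have hvalC : ∀ (p : M[X][X]) (m : ℕ), vl (p.map (mapRingHom (algebraMap M ℂ)))
      (algebraMap M ℂ (u0 m), algebraMap M ℂ (v0 m)) = algebraMap M ℂ (vl p (u0 m, v0 m)) :=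
    fun p m => vl_map (algebraMap M ℂ) p (u0 m, v0 m)
  have hT' : Orbt (F0.map (mapRingHom (algebraMap M ℂ))) (B1.map (mapRingHom (algebraMap M ℂ)))
      (B2.map (mapRingHom (algebraMap M ℂ))) (D0.map (mapRingHom (algebraMap M ℂ)))
      (fun m => (algebraMap M ℂ (u0 m), algebraMap M ℂ (v0 m))) := by
    refine ⟨tr_irr (M := M) (Ω := K) (E := ℂ) (by rw [hF0]; exact hT.irr), ?_, fun m => ?_,
      fun m => ?_, fun m => ?_, fun m => ?_⟩
    · intro m m' h
      apply hT.inj
      have h1 := (algebraMap M ℂ).injective (congrArg Prod.fst h)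
      have h2 := (algebraMap M ℂ).injective (congrArg Prod.snd h)
      rw [hTm, hTm, h1, h2]
    · rw [hvalC, map_eq_zero, ← map_eq_zero (algebraMap M K), hval, hF0]
      exact hT.zero m
    · rw [hvalC, Ne, map_eq_zero, ← map_eq_zero (algebraMap M K), hval, hD0]
      exact hT.den m
    · rw [hvalC, hvalC]
      have h1 := hT.s1 m
      rw [← hD0, ← hB1, ← hval, ← hval, hTm (m + 1), ← map_mul] at h1
      rw [← map_mul, hKinj h1]
    · rw [hvalC, hvalC]
      have h1 := hT.s2 m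
      rw [← hD0, ← hB2, ← hval, ← hval, hTm (m + 1), ← map_mul] at h1
      rw [← map_mul, hKinj h1]
  let S1 : Set (MvPolynomial (Fin (n + 1)) M) := {G | MvPolynomial.map (algebraMap M K) G ∈ S0}
  have hhom : ∀ (G : MvPolynomial (Fin (n + 1)) M) (e : ℕ),
      (MvPolynomial.map (algebraMap M K) G).IsHomogeneous e → G.IsHomogeneous e := by
    intro G e h m hm
    apply h
    rw [MvPolynomial.coeff_map]
    exact (_root_.map_ne_zero _).2 hm
  have hs : ∀ G ∈ (MvPolynomial.map (algebraMap M ℂ)) '' S1, ∃ d, G.IsHomogeneous d := by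
    rintro _ ⟨G, hG, rfl⟩
    obtain ⟨e, he⟩ := hS _ (hS0 hG)
    exact ⟨e, (hhom G e he).map _⟩
  have hev : ∀ (G : MvPolynomial (Fin (n + 1)) M) (m : ℕ),
      algebraMap M K (MvPolynomial.eval (x0 m) G) =
        MvPolynomial.eval (x m) (MvPolynomial.map (algebraMap M K) G) := by
    intro G m
    have h1 : x m = algebraMap M K ∘ x0 m := funext fun j => (hx0' m j).symm
    rw [MvPolynomial.map_eval, h1]
  have hevC : ∀ (G : MvPolynomial (Fin (n + 1)) M) (m : ℕ),
      MvPolynomial.eval (fun j => algebraMap M ℂ (x0 m j)) (MvPolynomial.map (algebraMap M ℂ) G) =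
        algebraMap M ℂ (MvPolynomial.eval (x0 m) G) := by
    intro G m
    exact (MvPolynomial.map_eval (algebraMap M ℂ) (x0 m) G).symm
  have hX' : ∀ m, ∀ G ∈ (MvPolynomial.map (algebraMap M ℂ)) '' S1,
      MvPolynomial.eval (fun j => algebraMap M ℂ (x0 m j)) G = 0 := by
    rintro m _ ⟨G, hG, rfl⟩
    rw [hevC, map_eq_zero, ← map_eq_zero (algebraMap M K), hev]
    exact hX m _ (hS0 hG)
  rcases orb_dich hT' hs (x := fun m j => algebraMap M ℂ (x0 m j)) (fun m h0 => hx0 m (by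
      funext j
      have h1 := congrFun h0 j
      rw [Pi.zero_apply, map_eq_zero] at h1
      rw [← hx0', h1, map_zero, Pi.zero_apply]))
      (r := r) (P := fun j k => (P0 j k).map (mapRingHom (algebraMap M ℂ))) (fun j => by
        obtain ⟨k, hk, hk0⟩ := hP j
        refine ⟨k, hk, fun hdvd => hk0 ?_⟩
        obtain ⟨Q, hQ⟩ := hdvd
        have h1 := hvalC (P0 j k) 0
        rw [hQ, vl_mul, hT'.zero 0, zero_mul, eq_comm, map_eq_zero, ← map_eq_zero (algebraMap M K),
          hval, hP0] at h1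
        exact h1)
      (fun j m => by
        have h1 : ∀ k, vl ((P0 j k).map (mapRingHom (algebraMap M ℂ)))
            (algebraMap M ℂ (u0 m), algebraMap M ℂ (v0 m)) * algebraMap M ℂ (x0 (m + k) j) =
            algebraMap M ℂ (vl (P0 j k) (u0 m, v0 m) * x0 (m + k) j) := by
          intro k
          rw [hvalC, map_mul]
        simp only [h1]
        rw [← map_sum, map_eq_zero, ← map_eq_zero (algebraMap M K), map_sum, ← hrec j m]
        refine Finset.sum_congr rfl fun k _ => ?_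
        rw [map_mul, hval, hP0, hx0'])
      hX' with ⟨k, m0, hk, hper⟩ | ⟨m, d, hm⟩
  · left
    refine ⟨m0, k, hk, fun m hm u v => ?_⟩
    have h1 := hper m hm u v
    rw [← map_mul, ← map_mul] at h1
    have h2 := (algebraMap M ℂ).injective h1
    rw [← hx0', ← hx0', ← hx0', ← hx0', ← map_mul, ← map_mul, h2]
  · right
    refine ⟨m, d, ?_⟩
    have hS1 : (MvPolynomial.map (algebraMap M K)) '' S1 = (S0 : Set _) := by
      ext G
      constructor
      · rintro ⟨G', hG', rfl⟩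
        exact hG'
      · intro hG
        obtain ⟨G', rfl⟩ := hlift G hG
        exact ⟨G', hG, rfl⟩
    have hxm : (fun j => algebraMap M K (x0 m j)) = x m := funext fun j => hx0' m j
    rcases hm with hm | hm
    · left
      apply onRat_span hsub
      rw [← hS1, onRat_map, ← hxm]
      exact tr_rat (E := ℂ) (onRat_map.1 hm)
    · right
      apply onEll_span hsub
      rw [← hS1, onEll_map, ← hxm]
      exact tr_ell (E := ℂ) (onEll_map.1 hm)

end Pool.Agent.Helper6.OD
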