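import Pool.Agent.Helper6.FT.Tra2
import Pool.Agent.Helper6.OD.Qual

/-! Ultraproducts of fields: irreducibility, rational and elliptic curves. -/

set_option autoImplicit false
set_option linter.unusedSectionVars false

namespace Pool.Agent.Helper6.OD

open Polynomial Filter Pool.Agent.Helper6.FT Pool.Agent.Helper6.EE Pool.Agent.Helper6.EV

/-- Both degrees of the polynomial in two variables are at most `e`. -/
def BiDeg {R : Type} [CommRing R] (e : ℕ) (p : R[X][X]) : Prop :=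
  p.natDegree ≤ e ∧ ∀ m, (p.coeff m).natDegree ≤ e

section

variable {ι : Type} {U : Ultrafilter ι} {K : ι → Type} [∀ i, Field (K i)] {L : Type} [Field L]
  {π : (∀ i, K i) →+* L}

/-- the class of a sequence of polynomials in two variables -/
noncomputable def tl (e : ℕ) (F : ∀ i, (K i)[X][X]) : (∀ i, K i)[X][X] :=
  ∑ a ∈ Finset.range (e + 1), C (∑ b ∈ Finset.range (e + 1),
    C (fun i => ((F i).coeff a).coeff b) * X ^ b) * X ^ a

theorem tl_coeff (e : ℕ) (F : ∀ i, (K i)[X][X]) (a b : ℕ) :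
    ((tl e F).coeff a).coeff b = if a ≤ e ∧ b ≤ e then fun i => ((F i).coeff a).coeff b else 0 := by
  unfold tl
  rw [finsetSum_coeff]
  simp only [coeff_C_mul, coeff_X_pow]
  by_cases ha : a ≤ e
  · rw [Finset.sum_eq_single a]
    · rw [if_pos rfl, mul_one, finsetSum_coeff]
      simp only [coeff_C_mul, coeff_X_pow]
      by_cases hb : b ≤ e
      · rw [Finset.sum_eq_single b, if_pos rfl, mul_one, if_pos ⟨ha, hb⟩]
        · intro c _ hc
          rw [if_neg (Ne.symm hc), mul_zero]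
        · intro h
          exact absurd (Finset.mem_range.2 (by omega)) h
      · rw [if_neg (fun h => hb h.2)]
        refine Finset.sum_eq_zero fun c hc => ?_
        rw [if_neg, mul_zero]
        have := Finset.mem_range.1 hc
        omega
    · intro c _ hc
      rw [if_neg (Ne.symm hc), mul_zero]
    · intro h
      exact absurd (Finset.mem_range.2 (by omega)) h
  · rw [if_neg (fun h => ha h.1)]
    rw [Finset.sum_eq_zero, coeff_zero]
    intro c hc
    rw [if_neg, mul_zero]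
    have := Finset.mem_range.1 hc
    omega

theorem tl_ev {e : ℕ} {F : ∀ i, (K i)[X][X]} {i : ι} (h : BiDeg e (F i)) :
    (tl e F).map (mapRingHom (ev i)) = F i := by
  ext a b
  rw [coeff_map2, tl_coeff]
  split_ifs with h1
  · rfl
  · rw [map_zero]
    by_cases ha : a ≤ e
    · have hb : e < b := by
        by_contra hb
        exact h1 ⟨ha, not_lt.1 hb⟩
      exact (coeff_eq_zero_of_natDegree_lt (lt_of_le_of_lt (h.2 a) hb)).symm
    · rw [coeff_eq_zero_of_natDegree_lt (lt_of_le_of_lt h.1 (not_le.1 ha)), coeff_zero]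

/-- values -/
theorem vl_tl {e : ℕ} {F : ∀ i, (K i)[X][X]} (h : ∀ i, BiDeg e (F i)) (t : ∀ i, K i × K i) :
    vl ((tl e F).map (mapRingHom π)) (π fun i => (t i).1, π fun i => (t i).2) =
      π fun i => vl (F i) (t i) := by
  have h1 := vl_map π (tl e F) (fun i => (t i).1, fun i => (t i).2)
  rw [h1]
  congr 1
  funext i
  have h2 := vl_map (ev i) (tl e F) (fun i => (t i).1, fun i => (t i).2)
  rw [tl_ev (h i)] at h2
  exact h2.symm

theorem tl_lift_unit (hz : ∀ x, π x = 0 ↔ ∀ᶠ i in (U : Filter ι), x i = 0)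
    {G : (∀ i, K i)[X][X]} (h0 : G.map (mapRingHom π) ≠ 0)
    (h : ∀ᶠ i in (U : Filter ι), IsUnit (G.map (mapRingHom (ev i)))) :
    IsUnit (G.map (mapRingHom π)) := by
  rw [unit2]
  refine ⟨h0, fun m l hml => ?_⟩
  rw [coeff_map2, hz]
  filter_upwards [h] with i hi
  have h1 := (unit2.1 hi).2 m l hml
  rw [coeff_map2] at h1
  exact h1

/-- **Irreducibility.** -/
theorem los_irr (hz : ∀ x, π x = 0 ↔ ∀ᶠ i in (U : Filter ι), x i = 0)
    (hs : Function.Surjective π) {e : ℕ} {F : ∀ i, (K i)[X][X]} (hd : ∀ i, BiDeg e (F i))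
    (h : ∀ i, Irreducible (F i)) : Irreducible ((tl e F).map (mapRingHom π)) := by
  have hne : (tl e F).map (mapRingHom π) ≠ 0 := by
    intro h0
    rw [los_poly2 hz] at h0
    obtain ⟨i, hi⟩ := h0.exists
    rw [tl_ev (hd i)] at hi
    exact (h i).ne_zero hi
  refine ⟨fun hu => ?_, fun {G H} hGH => ?_⟩
  · -- not a unit
    have h1 : ∀ᶠ i in (U : Filter ι), ∀ a ∈ Finset.range (e + 1), ∀ b ∈ Finset.range (e + 1),
        (a ≠ 0 ∨ b ≠ 0) → ((F i).coeff a).coeff b = 0 := by
      rw [Filter.eventually_all_finset]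
      intro a ha
      rw [Filter.eventually_all_finset]
      intro b hb
      by_cases hab : a ≠ 0 ∨ b ≠ 0
      · have h2 := (unit2.1 hu).2 a b hab
        rw [coeff_map2, hz] at h2
        filter_upwards [h2] with i hi _
        rw [tl_coeff, if_pos ⟨Nat.lt_succ_iff.1 (Finset.mem_range.1 ha),
          Nat.lt_succ_iff.1 (Finset.mem_range.1 hb)⟩] at hi
        exact hi
      · exact Eventually.of_forall fun i h => absurd h hab
    obtain ⟨i, hi⟩ := h1.exists
    apply (h i).not_isUnit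
    rw [unit2]
    refine ⟨(h i).ne_zero, fun m l hml => ?_⟩
    by_cases hm : m ≤ e
    · by_cases hl : l ≤ e
      · exact hi m (Finset.mem_range.2 (by omega)) l (Finset.mem_range.2 (by omega)) hml
      · exact coeff_eq_zero_of_natDegree_lt (lt_of_le_of_lt ((hd i).2 m) (not_le.1 hl))
    · rw [coeff_eq_zero_of_natDegree_lt (lt_of_le_of_lt (hd i).1 (not_le.1 hm)), coeff_zero]
  · obtain ⟨G', rfl⟩ := Polynomial.map_surjective (mapRingHom π) (Polynomial.map_surjective π hs) G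
    obtain ⟨H', rfl⟩ := Polynomial.map_surjective (mapRingHom π) (Polynomial.map_surjective π hs) H
    have h1 : (tl e F - G' * H').map (mapRingHom π) = 0 := by
      rw [Polynomial.map_sub, Polynomial.map_mul, hGH, sub_self]
    rw [los_poly2 hz] at h1
    have h2 : ∀ᶠ i in (U : Filter ι), IsUnit (G'.map (mapRingHom (ev i))) ∨
        IsUnit (H'.map (mapRingHom (ev i))) := by
      filter_upwards [h1] with i hi
      rw [Polynomial.map_sub, Polynomial.map_mul, tl_ev (hd i), sub_eq_zero] at hi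
      exact (h i).isUnit_or_isUnit hi
    rw [Ultrafilter.eventually_or] at h2
    rcases h2 with h2 | h2
    · left
      refine tl_lift_unit hz (fun h0 => hne ?_) h2
      rw [hGH, h0, zero_mul]
    · right
      refine tl_lift_unit hz (fun h0 => hne ?_) h2
      rw [hGH, h0, mul_zero]

variable {κ : Type} [Fintype κ]

/-- the forms over the ultraproduct -/
def uS (U : Ultrafilter ι) (π : (∀ i, K i) →+* L) (S : ∀ i, Set (MvPolynomial κ (K i))) :
    Set (MvPolynomial κ L) :=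
  {G | ∃ (e : ℕ) (H : ∀ i, MvPolynomial κ (K i)), (∀ᶠ i in (U : Filter ι), (H i).IsHomogeneous e) ∧
    (∀ᶠ i in (U : Filter ι), H i ∈ S i) ∧ G = MvPolynomial.map (π.comp (dal K K)) (til e H)}

theorem uS_hom {S : ∀ i, Set (MvPolynomial κ (K i))} : ∀ G ∈ uS U π S, ∃ e, G.IsHomogeneous e := by
  rintro _ ⟨e, H, -, -, rfl⟩
  exact ⟨e, til_hom e H _⟩

/-- **Rational curves.** -/
theorem los_onRat (hz : ∀ x, π x = 0 ↔ ∀ᶠ i in (U : Filter ι), x i = 0)
    (hs : Function.Surjective π) {D0 : ℕ} {S : ∀ i, Set (MvPolynomial κ (K i))}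
    (hS : ∀ i, ∀ F ∈ S i, ∃ e ≤ D0, F.IsHomogeneous e) {d : ℕ} {v : κ → ∀ i, K i}
    (h : OnRat (uS U π S) d fun j => π (v j)) :
    ∀ᶠ i in (U : Filter ι), OnRat (S i) d fun j => v j i := by
  classical
  have heq : ∀ x y, π x = π y ↔ ∀ᶠ i in (U : Filter ι), x i = y i := by
    intro x y
    rw [← sub_eq_zero, ← map_sub, hz]
    simp only [Pi.sub_apply, sub_eq_zero]
  obtain ⟨V, ⟨hV0, ⟨i1, i2, m1, m2, hV2⟩, hV3⟩, g, q, hV1⟩ := h
  obtain ⟨g, rfl⟩ := hs g
  obtain ⟨q, rfl⟩ := hs q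
  have hW : ∀ j, ∃ Q : (∀ i, K i)[X], Q.map π = V j ∧
      ∀ i, (Q.map (ev i)).natDegree ≤ (V j).natDegree := fun j => lift_poly hs (V j)
  choose W hW1 hW2 using hW
  have e1 : ∀ᶠ i in (U : Filter ι), ∀ j, v j i = g i * ((W j).map (ev i)).eval (q i) := by
    rw [eventually_all]
    intro j
    have h5 : π (v j) = π (g * (W j).eval q) := by
      rw [map_mul, ← eval₂_at_apply, ← eval_map, hW1 j]
      exact hV1 j
    rw [heq] at h5
    filter_upwards [h5] with i hi
    rw [hi, Pi.mul_apply, eval_map]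
    congr 1
    exact (eval₂_at_apply (p := W j) (ev i) q).symm
  have e2 : ∀ᶠ i in (U : Filter ι), ((W i1).map (ev i)).coeff m1 *
      ((W i2).map (ev i)).coeff m2 ≠
      ((W i2).map (ev i)).coeff m1 * ((W i1).map (ev i)).coeff m2 := by
    rw [← hW1 i1, ← hW1 i2, coeff_map, coeff_map, coeff_map, coeff_map] at hV2
    simp only [coeff_map]
    exact coeff_ne hz hV2
  have e3 : ∀ᶠ i in (U : Filter ι), ∀ F ∈ S i,
      (MvPolynomial.aeval (fun j => (W j).map (ev i)) F : (K i)[X]) = 0 := by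
    apply forms_ev (U := U) hS
    intro e F hF hFS
    rw [← los_rat hz hF]
    have h8 := hV3 _ ⟨e, F, hF, hFS, rfl⟩
    rw [MvPolynomial.aeval_def] at h8
    rw [← h8]
    congr 1
    funext j
    exact hW1 j
  filter_upwards [e1, e2, e3] with i h5 h6 h7
  exact ⟨fun j => (W j).map (ev i), ⟨fun j => (hW2 j i).trans (hV0 j), ⟨i1, i2, m1, m2, h6⟩,
    h7⟩, g i, q i, h5⟩

/-- **Elliptic curves.** -/
theorem los_onEll (hz : ∀ x, π x = 0 ↔ ∀ᶠ i in (U : Filter ι), x i = 0)
    (hs : Function.Surjective π) {D0 : ℕ} {S : ∀ i, Set (MvPolynomial κ (K i))}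
    (hS : ∀ i, ∀ F ∈ S i, ∃ e ≤ D0, F.IsHomogeneous e) {d : ℕ} {v : κ → ∀ i, K i}
    (h : OnEll L (uS U π S) d fun j => π (v j)) :
    ∀ᶠ i in (U : Filter ι), OnEll (K i) (S i) d fun j => v j i := by
  classical
  have heq : ∀ x y, π x = π y ↔ ∀ᶠ i in (U : Filter ι), x i = y i := by
    intro x y
    rw [← sub_eq_zero, ← map_sub, hz]
    simp only [Pi.sub_apply, sub_eq_zero]
  obtain ⟨a, b, A, B, ⟨hd, hV0, ⟨i1, i2, s1, s2, hV2⟩, hV3⟩, g, x, y, hy, hV1⟩ := h
  change 4 * a ^ 3 + 27 * b ^ 2 ≠ 0 at hd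
  change y ^ 2 = x ^ 3 + a * x + b at hy
  change ∀ F ∈ uS U π S, wei a b ∣ (MvPolynomial.aeval (fun j => onE (A j) (B j)) F : L[X][X])
    at hV3
  obtain ⟨g, rfl⟩ := hs g
  obtain ⟨x, rfl⟩ := hs x
  obtain ⟨y, rfl⟩ := hs y
  obtain ⟨a, rfl⟩ := hs a
  obtain ⟨b, rfl⟩ := hs b
  have hW : ∀ j, ∃ Q : (∀ i, K i)[X], Q.map π = A j ∧
      ∀ i, (Q.map (ev i)).natDegree ≤ (A j).natDegree := fun j => lift_poly hs (A j)
  choose W hW1 hW2 using hW
  have hW' : ∀ j, ∃ Q : (∀ i, K i)[X], Q.map π = B j ∧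
      ∀ i, (Q.map (ev i)).natDegree ≤ (B j).natDegree := fun j => lift_poly hs (B j)
  choose W' hW1' hW2' using hW'
  have e1 : ∀ᶠ i in (U : Filter ι), ∀ j, v j i =
      g i * (((W j).map (ev i)).eval (x i) + ((W' j).map (ev i)).eval (x i) * y i) := by
    rw [eventually_all]
    intro j
    have h5 : π (v j) = π (g * ((W j).eval x + (W' j).eval x * y)) := by
      rw [map_mul, map_add, map_mul, ← eval₂_at_apply, ← eval_map, hW1 j, ← eval₂_at_apply,
        ← eval_map, hW1' j]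
      exact hV1 j
    rw [heq] at h5
    filter_upwards [h5] with i hi
    rw [hi, Pi.mul_apply, Pi.add_apply, Pi.mul_apply, eval_map, eval_map]
    congr 2
    · exact (eval₂_at_apply (p := W j) (ev i) x).symm
    · congr 1
      exact (eval₂_at_apply (p := W' j) (ev i) x).symm
  have hcf : ∀ (P Q : (∀ i, K i)[X]) t, cf (P.map π) (Q.map π) t = π (cf P Q t) := by
    intro P Q t
    rcases t with t | t
    · exact coeff_map _ _
    · exact coeff_map _ _
  have hcf' : ∀ (i : ι) (P Q : (∀ i, K i)[X]) t, cf (P.map (ev i)) (Q.map (ev i)) t =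
      (cf P Q t) i := by
    intro i P Q t
    rcases t with t | t
    · exact coeff_map _ _
    · exact coeff_map _ _
  have e2 : ∀ᶠ i in (U : Filter ι), cf ((W i1).map (ev i)) ((W' i1).map (ev i)) s1 *
      cf ((W i2).map (ev i)) ((W' i2).map (ev i)) s2 ≠
      cf ((W i2).map (ev i)) ((W' i2).map (ev i)) s1 *
        cf ((W i1).map (ev i)) ((W' i1).map (ev i)) s2 := by
    rw [← hW1 i1, ← hW1 i2, ← hW1' i1, ← hW1' i2, cfs_eq, cfs_eq, hcf, hcf, hcf, hcf] at hV2
    simp only [hcf']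
    exact coeff_ne hz hV2
  have e3 : ∀ᶠ i in (U : Filter ι), ∀ F ∈ S i,
      (MvPolynomial.aeval (fun j => two ((W j).map (ev i)) ((W' j).map (ev i))) F :
        (K i)[X][X]) %ₘ weq (a i) (b i) = 0 := by
    apply forms_ev (U := U) hS
    intro e F hF hFS
    have h9 := los_ell hz hF W W' a b
    refine h9.1 ?_
    have h8 := hV3 _ ⟨e, F, hF, hFS, rfl⟩
    rw [MvPolynomial.aeval_def] at h8
    rw [Polynomial.modByMonic_eq_zero_iff_dvd (weq_monic _ _)]
    have h10 : (fun j => two ((W j).map π) ((W' j).map π)) = fun j => onE (A j) (B j) := by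
      funext j
      rw [hW1 j, hW1' j]
      rfl
    rw [h10]
    exact h8
  have e4 : ∀ᶠ i in (U : Filter ι), y i ^ 2 = x i ^ 3 + a i * x i + b i := by
    rw [← map_pow, ← map_pow, ← map_mul, ← map_add, ← map_add, heq] at hy
    exact hy
  have e5 : ∀ᶠ i in (U : Filter ι), 4 * a i ^ 3 + 27 * b i ^ 2 ≠ 0 := by
    have h12 : π (4 * a ^ 3 + 27 * b ^ 2) ≠ 0 := by
      simpa only [map_add, map_mul, map_pow, map_ofNat] using hd
    rw [Ne, hz, ← Ultrafilter.eventually_not] at h12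
    exact h12
  filter_upwards [e1, e2, e3, e4, e5] with i h5 h6 h7 h8 h9
  refine ⟨a i, b i, fun j => (W j).map (ev i), fun j => (W' j).map (ev i),
    ⟨h9, fun j => ⟨(hW2 j i).trans (hV0 j).1, (hW2' j i).trans (hV0 j).2⟩,
      ⟨i1, i2, s1, s2, h6⟩, fun F hF => ?_⟩, g i, x i, y i, h8, h5⟩
  exact (Polynomial.modByMonic_eq_zero_iff_dvd (weq_monic _ _)).1 (h7 F hF)

end

end Pool.Agent.Helper6.OD
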