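import Pool.Agent.Helper6.FT.Vec
import Pool.Agent.Helper6.OD.Ulp

/-! Finite sequences of points: uniform bounds. -/

set_option autoImplicit false
set_option linter.unusedSectionVars false

namespace Pool.Agent.Helper6.OD

open Polynomial Filter Pool.Agent.Helper6.FT Pool.Agent.Helper6.EE Pool.Agent.Helper6.EV
open Pool.Agent.Helper6.EU

variable {n : ℕ}

/-- The points `T 0, ..., T B` of the curve `F = 0` form an orbit of the rational self-map
`(A₁ / C₀, A₂ / C₀)`, and they are different; all degrees are at most `e`. -/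
structure FOrb {K : Type} [Field K] (e B : ℕ) (F A₁ A₂ C₀ : K[X][X]) (T : ℕ → K × K) : Prop where
  deg : BiDeg e F ∧ BiDeg e A₁ ∧ BiDeg e A₂ ∧ BiDeg e C₀
  zero : ∀ m ≤ B, vl F (T m) = 0
  den : ∀ m < B, vl C₀ (T m) ≠ 0
  step : ∀ m < B, (T (m + 1)).1 * vl C₀ (T m) = vl A₁ (T m) ∧
    (T (m + 1)).2 * vl C₀ (T m) = vl A₂ (T m)
  diff : ∀ i j, i < j → j ≤ B → T i ≠ T j

/-- The vectors `x 0, ..., x B` are not zero, they are zeros of the forms in `S`, and their
coordinates satisfy linear recurrences of order at most `r` whose coefficients are the values of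
polynomials of degree at most `e` at the points `T m`. -/
structure FRec {K : Type} [Field K] (r e B : ℕ) (S : Set (MvPolynomial (Fin (n + 1)) K))
    (P : Fin (n + 1) → ℕ → K[X][X]) (T : ℕ → K × K) (x : ℕ → Fin (n + 1) → K) : Prop where
  deg : ∀ j k, BiDeg e (P j k)
  ne : ∀ m ≤ B, x m ≠ 0
  on : ∀ m ≤ B, ∀ G ∈ S, MvPolynomial.eval (x m) G = 0
  ntr : ∀ j, ∃ k ≤ r, vl (P j k) (T 0) ≠ 0
  eqn : ∀ j m, m + r ≤ B → ∑ k ∈ Finset.range (r + 1), vl (P j k) (T m) * x (m + k) j = 0

/-- counterexamples -/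
structure CER (n D r e i : ℕ) where
  K : Type
  [fK : Field K]
  [cz : CharZero K]
  [ac : IsAlgClosed K]
  S : Set (MvPolynomial (Fin (n + 1)) K)
  hS : ∀ F ∈ S, ∃ e' ≤ D, F.IsHomogeneous e'
  F : K[X][X]
  A₁ : K[X][X]
  A₂ : K[X][X]
  C₀ : K[X][X]
  T : ℕ → K × K
  irr : Irreducible F
  orb : FOrb e i F A₁ A₂ C₀ T
  P : Fin (n + 1) → ℕ → K[X][X]
  x : ℕ → Fin (n + 1) → K
  frec : FRec r e i S P T x
  diff : ∀ j k, 0 < k → j + k ≤ i → ∃ u v, x (j + k) u * x j v ≠ x (j + k) v * x j u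
  nrat : ∀ m ≤ i, ¬ OnRat S i (x m)
  nell : ∀ m ≤ i, ¬ OnEll K S i (x m)

attribute [instance] CER.fK CER.cz CER.ac

theorem no_CER {n D r e : ℕ} (c : ∀ i : ℕ, CER n D r e i) : False := by
  classical
  let U : Ultrafilter ℕ := hyperfilter ℕ
  let L := DP U (fun i => (c i).K)
  let π : (∀ i, (c i).K) →+* L := dMk U (fun i => (c i).K)
  have hz : ∀ x, π x = 0 ↔ ∀ᶠ i in (U : Filter ℕ), x i = 0 := fun x => dMk_eq_zero
  have hs : Function.Surjective π := dMk_surj
  have hcz : CharZero L := dc_char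
  have hac : IsAlgClosed L := dc_closed
  have heq : ∀ x y, π x = π y ↔ ∀ᶠ i in (U : Filter ℕ), x i = y i := by
    intro x y
    rw [← sub_eq_zero, ← map_sub, hz]
    simp only [Pi.sub_apply, sub_eq_zero]
  have hge : ∀ m : ℕ, ∀ᶠ i in (U : Filter ℕ), m ≤ i := fun m => by
    have h6 : ∀ᶠ i in (cofinite : Filter ℕ), m ≤ i := by
      rw [Nat.cofinite_eq_atTop]
      exact eventually_ge_atTop m
    exact hyperfilter_le_cofinite h6
  -- the orbit
  let Ts : ℕ → L × L := fun m => (π fun i => ((c i).T m).1, π fun i => ((c i).T m).2)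
  let cl : (∀ i, (c i).K[X][X]) → L[X][X] := fun F => (tl e F).map (mapRingHom π)
  have hvl : ∀ (F : ∀ i, (c i).K[X][X]), (∀ i, BiDeg e (F i)) → ∀ m,
      vl (cl F) (Ts m) = π fun i => vl (F i) ((c i).T m) := fun F hF m =>
    vl_tl hF fun i => (c i).T m
  have hF := hvl (fun i => (c i).F) fun i => (c i).orb.deg.1
  have hA1 := hvl (fun i => (c i).A₁) fun i => (c i).orb.deg.2.1
  have hA2 := hvl (fun i => (c i).A₂) fun i => (c i).orb.deg.2.2.1
  have hC := hvl (fun i => (c i).C₀) fun i => (c i).orb.deg.2.2.2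
  have hT : Orbt (cl fun i => (c i).F) (cl fun i => (c i).A₁) (cl fun i => (c i).A₂)
      (cl fun i => (c i).C₀) Ts := by
    refine ⟨los_irr hz hs (fun i => (c i).orb.deg.1) fun i => (c i).irr, ?_, fun m => ?_,
      fun m => ?_, fun m => ?_, fun m => ?_⟩
    · have h1 : ∀ a b : ℕ, a < b → Ts a ≠ Ts b := by
        intro a b hab h2
        have h3 := (heq _ _).1 (congrArg Prod.fst h2)
        have h4 := (heq _ _).1 (congrArg Prod.snd h2)
        obtain ⟨i, ⟨h5, h6⟩, h7⟩ := ((h3.and h4).and (hge b)).exists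
        exact (c i).orb.diff a b hab h7 (Prod.ext h5 h6)
      intro a b hab
      by_contra hne
      rcases lt_or_gt_of_ne hne with h2 | h2
      · exact h1 a b h2 hab
      · exact h1 b a h2 hab.symm
    · rw [hF, hz]
      filter_upwards [hge m] with i hi
      exact (c i).orb.zero m hi
    · rw [hC, Ne, hz]
      intro h
      obtain ⟨i, h1, h2⟩ := (h.and (hge (m + 1))).exists
      exact (c i).orb.den m h2 h1
    · rw [hC, hA1, ← map_mul, heq]
      filter_upwards [hge (m + 1)] with i hi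
      exact ((c i).orb.step m hi).1
    · rw [hC, hA2, ← map_mul, heq]
      filter_upwards [hge (m + 1)] with i hi
      exact ((c i).orb.step m hi).2
  -- the points
  let xs : ℕ → Fin (n + 1) → L := fun m j => π fun i => (c i).x m j
  have hxs0 : ∀ m, xs m ≠ 0 := by
    intro m h0
    have h1 : ∀ᶠ i in (U : Filter ℕ), ∀ j, (c i).x m j = 0 := by
      rw [eventually_all]
      intro j
      exact (hz _).1 (congrFun h0 j)
    obtain ⟨i, h2, h3⟩ := (h1.and (hge m)).exists
    exact (c i).frec.ne m h3 (funext h2)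
  have hP : ∀ j, ∃ k ≤ r, vl (cl fun i => (c i).P j k) (Ts 0) ≠ 0 := by
    intro j
    by_contra hcon
    push Not at hcon
    have h1 : ∀ᶠ i in (U : Filter ℕ), ∀ k ∈ Finset.range (r + 1),
        vl ((c i).P j k) ((c i).T 0) = 0 := by
      rw [Filter.eventually_all_finset]
      intro k hk
      have h2 := hcon k (Nat.lt_succ_iff.1 (Finset.mem_range.1 hk))
      rw [hvl (fun i => (c i).P j k) (fun i => (c i).frec.deg j k), hz] at h2
      exact h2
    obtain ⟨i, hi⟩ := h1.exists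
    obtain ⟨k, hk, hk0⟩ := (c i).frec.ntr j
    exact hk0 (hi k (Finset.mem_range.2 (by omega)))
  have hrec : ∀ j m, ∑ k ∈ Finset.range (r + 1), vl (cl fun i => (c i).P j k) (Ts m) *
      xs (m + k) j = 0 := by
    intro j m
    have h1 : ∀ k, vl (cl fun i => (c i).P j k) (Ts m) * xs (m + k) j =
        π ((fun i => vl ((c i).P j k) ((c i).T m)) * fun i => (c i).x (m + k) j) := by
      intro k
      rw [map_mul, hvl (fun i => (c i).P j k) (fun i => (c i).frec.deg j k)]
    simp only [h1]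
    rw [← map_sum, hz]
    filter_upwards [hge (m + r)] with i hi
    rw [Finset.sum_apply]
    exact (c i).frec.eqn j m hi
  have hX : ∀ m, ∀ G ∈ uS U π (fun i => (c i).S), MvPolynomial.eval (xs m) G = 0 := by
    rintro m _ ⟨e', H, h1, h2, rfl⟩
    have h3 := los_val hz h1 fun j i => (c i).x m j
    rw [← MvPolynomial.eval₂_id]
    refine h3.2 ?_
    filter_upwards [h2, hge m] with i h4 h5
    rw [MvPolynomial.aeval_eq_eval]
    exact (c i).frec.on m h5 _ h4
  rcases seq_qual uS_hom hT hxs0 hP hrec hX with ⟨j, k, hk, h1'⟩ | ⟨m, d, h1⟩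
  · have h2 : ∀ᶠ i in (U : Filter ℕ), ∀ u v, (c i).x (j + k) u * (c i).x j v =
        (c i).x (j + k) v * (c i).x j u := by
      rw [eventually_all]
      intro u
      rw [eventually_all]
      intro v
      have h3 := h1' j le_rfl u v
      simp only [xs] at h3
      rw [← map_mul, ← map_mul, heq] at h3
      exact h3
    obtain ⟨i, h3, h4⟩ := (h2.and (hge (j + k))).exists
    obtain ⟨u, v, huv⟩ := (c i).diff j k hk h4
    exact huv (h3 u v)
  · have hSi : ∀ i, ∀ F ∈ (c i).S, ∃ e' ≤ D, F.IsHomogeneous e' := fun i => (c i).hS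
    rcases h1 with h1 | h1
    · have h2 := los_onRat hz hs hSi (v := fun j i => (c i).x m j) h1
      obtain ⟨i, h3, h4⟩ := (h2.and (hge (max m d))).exists
      exact (c i).nrat m ((le_max_left _ _).trans h4) (h3.mono ((le_max_right _ _).trans h4))
    · have h2 := los_onEll hz hs hSi (v := fun j i => (c i).x m j) h1
      obtain ⟨i, h3, h4⟩ := (h2.and (hge (max m d))).exists
      exact (c i).nell m ((le_max_left _ _).trans h4) (h3.mono ((le_max_right _ _).trans h4))

/-- **Finite sequences**, uniformly. -/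
theorem run_uniform (n D r e : ℕ) : ∃ d : ℕ, ∀ (K : Type) [Field K] [CharZero K] [IsAlgClosed K]
    (S : Set (MvPolynomial (Fin (n + 1)) K)), (∀ F ∈ S, ∃ e' ≤ D, F.IsHomogeneous e') →
    ∀ (F A₁ A₂ C₀ : K[X][X]) (T : ℕ → K × K), Irreducible F → FOrb e d F A₁ A₂ C₀ T →
    ∀ (P : Fin (n + 1) → ℕ → K[X][X]) (x : ℕ → Fin (n + 1) → K), FRec r e d S P T x →
      (∃ j k, 0 < k ∧ j + k ≤ d ∧ ∀ u v, x (j + k) u * x j v = x (j + k) v * x j u) ∨
        ∃ m ≤ d, OnRat S d (x m) ∨ OnEll K S d (x m) := by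
  by_contra hcon
  push Not at hcon
  have h1 : ∀ i : ℕ, Nonempty (CER n D r e i) := by
    intro i
    obtain ⟨K, _, _, _, S, hS, F, A₁, A₂, C₀, T, hF, hT, P, x, hx, h2, h3⟩ := hcon i
    exact ⟨{
      K := K, S := S, hS := hS, F := F, A₁ := A₁, A₂ := A₂, C₀ := C₀, T := T, irr := hF
      orb := hT, P := P, x := x, frec := hx, diff := h2, nrat := fun m hm => (h3 m hm).1
      nell := fun m hm => (h3 m hm).2 }⟩
  exact no_CER fun i => (h1 i).some

end Pool.Agent.Helper6.OD
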