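import Pool.Agent.Helper6.OD.Wnd
import Pool.Agent.Helper6.OD.Run

/-! Sequences on rational and elliptic curves. -/

set_option autoImplicit false
set_option linter.unusedSectionVars false

namespace Pool.Agent.Helper6.OD

open Polynomial Filter Pool.Agent.Helper6.FT

variable {k : Type} [Field k] [CharZero k] {n : ℕ}

/-- the orbit `0, 1, 2, ...` on the line -/
theorem orb_line : Orbt (X : k[X][X]) (C (X + 1)) 0 1 (fun m : ℕ => ((m : k), (0 : k))) := by
  refine ⟨irreducible_X, fun i j hij => Nat.cast_injective (congrArg Prod.fst hij),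
    fun m => by rw [vl_X], fun m => by rw [vl_one]; exact one_ne_zero, fun m => ?_, fun m => ?_⟩
  · rw [vl_one, mul_one, C_add, vl_add, vl_CX, C_1, vl_one]
    push_cast
    rfl
  · rw [vl_one, mul_one, vl_zero]

theorem biDeg_one : BiDeg 1 (1 : k[X][X]) := (biDeg_C (p := 1) (by simp) : BiDeg _ (C 1))

theorem low_rat {S : Set (MvPolynomial (Fin (n + 1)) k)} {d : ℕ} {V : Fin (n + 1) → k[X]}
    (hV : RatCurve S d V) : (∃ m0 : ℕ, ∀ m1, m0 ≤ m1 →
    OSeq 1 (3 * d + 1) S (fun m j => (V j).eval ((m + m1 : ℕ) : k))) ∧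
      Wdr (fun m j => (V j).eval (m : k)) ∧
      ∀ G : MvPolynomial (Fin (n + 1)) k, (MvPolynomial.aeval V G : k[X]) ≠ 0 →
        ∀ᶠ m in atTop, MvPolynomial.eval (fun j => (V j).eval ((m : ℕ) : k)) G ≠ 0 := by
  have hC : ∀ G : MvPolynomial (Fin (n + 1)) k,
      (MvPolynomial.aeval (fun j => (C (V j) : k[X][X])) G : k[X][X]) =
        C (MvPolynomial.aeval V G) := by
    intro G
    have h1 := MvPolynomial.comp_aeval_apply (f := V) (Algebra.ofId k[X] k[X][X] |>.restrictScalars k) G
    exact h1.symm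
  have hX0 : ∀ p : k[X], (X : k[X][X]) ∣ C p → p = 0 := by
    intro p h
    rw [X_dvd_iff, coeff_C_zero] at h
    exact h
  obtain ⟨i, j, m, l, hml⟩ := hV.nonconst
  have hnc : ∀ a b : k, (X : k[X][X]) ∣ C (C a) * C (V i) - C (C b) * C (V j) →
      a = 0 ∧ b = 0 := by
    intro a b hab
    rw [← C_mul, ← C_mul, ← C_sub] at hab
    have h1 := hX0 _ hab
    have h2 : ∀ s, a * (V i).coeff s = b * (V j).coeff s := by
      intro s
      have h3 := congrArg (fun p => coeff p s) h1
      simp only [coeff_sub, coeff_C_mul, coeff_zero] at h3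
      linear_combination h3
    have hne : (V i).coeff m * (V j).coeff l - (V j).coeff m * (V i).coeff l ≠ 0 :=
      sub_ne_zero.2 hml
    constructor
    · apply (mul_eq_zero.1 (?_ : a * ((V i).coeff m * (V j).coeff l -
        (V j).coeff m * (V i).coeff l) = 0)).resolve_right hne
      linear_combination (V j).coeff l * h2 m - (V j).coeff m * h2 l
    · apply (mul_eq_zero.1 (?_ : b * ((V i).coeff m * (V j).coeff l -
        (V j).coeff m * (V i).coeff l) = 0)).resolve_right hne
      linear_combination (-(V i).coeff m) * h2 l + (V i).coeff l * h2 m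
  have hdeg : BiDeg 1 (X : k[X][X]) ∧ BiDeg 1 (C (X + 1) : k[X][X]) ∧ BiDeg 1 (0 : k[X][X]) ∧
      BiDeg 1 (1 : k[X][X]) :=
    ⟨biDeg_X, biDeg_C (by compute_degree), ⟨by simp, fun m => by simp⟩, biDeg_one⟩
  obtain ⟨⟨m0, h1⟩, h2, h3⟩ := low (orb_line (k := k)) hdeg (S := S) (d := d)
    (V := fun j => C (V j)) (fun j => biDeg_C (hV.deg j)) (fun G hG => by
      rw [hC, hV.mem G hG, C_0]
      exact dvd_zero _) ⟨i, j, hnc⟩
  have hv : ∀ (m : ℕ) (j : Fin (n + 1)),
      vl (C (V j) : k[X][X]) ((m : k), (0 : k)) = (V j).eval (m : k) := by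
    intro m j
    simp [vl, evalEval]
  simp only [hv] at h1 h2 h3
  refine ⟨⟨m0, fun m1 hm1 => ?_⟩, h2, fun G hG => h3 G fun hd => hG ?_⟩
  · have : 2 * d * 1 + d + 1 = 3 * d + 1 := by ring
    have h4 := h1 m1 hm1
    rwa [this] at h4
  · rw [hC] at hd
    exact hX0 _ hd

theorem wei_dvd_lin {a b : k} {p q : k[X]} (h : wei a b ∣ C p + C q * X) : p = 0 ∧ q = 0 := by
  by_cases h0 : (C p + C q * X : k[X][X]) = 0
  · have h1 := congrArg (fun f => coeff f 0) h0
    have h2 := congrArg (fun f => coeff f 1) h0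
    simp at h1 h2
    exact ⟨h1, h2⟩
  · exfalso
    have hm : (wei a b).Monic := we_monic a b
    have hd := Monic.not_dvd_of_natDegree_lt hm h0 ?_ h
    · exact hd
    · have h3 : (wei a b).natDegree = 2 := by
        unfold wei
        exact natDegree_X_pow_sub_C
      rw [h3]
      refine Nat.lt_succ_of_le ?_
      rw [add_comm]
      exact natDegree_linear_le

theorem low_ell [IsAlgClosed k] {S : Set (MvPolynomial (Fin (n + 1)) k)} {d : ℕ} {a b : k}
    {A B : Fin (n + 1) → k[X]}
    (hV : EllCurve S d a b A B) : ∃ (T : ℕ → k × k),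
    Orbt (wei a b) (dA1 a b) (dA2 a b) dC0 T ∧
    (∃ m0 : ℕ, ∀ m1, m0 ≤ m1 →
      OSeq 1 (13 * d + 19) S (fun m j => vl (onE (A j) (B j)) (T (m + m1)))) ∧
      Wdr (fun m j => vl (onE (A j) (B j)) (T m)) ∧
      ∀ G : MvPolynomial (Fin (n + 1)) k,
        ¬ wei a b ∣ (MvPolynomial.aeval (fun j => onE (A j) (B j)) G : k[X][X]) →
        ∀ᶠ m in atTop, MvPolynomial.eval (fun j => vl (onE (A j) (B j)) (T m)) G ≠ 0 := by
  obtain ⟨T, hT⟩ := exists_dup a b
  obtain ⟨i, j, s, t, hst⟩ := hV.nonconst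
  have hnc : ∀ α β : k, wei a b ∣ C (C α) * onE (A i) (B i) - C (C β) * onE (A j) (B j) →
      α = 0 ∧ β = 0 := by
    intro α β hab
    have h1 : wei a b ∣ C (C α * A i - C β * A j) + C (C α * B i - C β * B j) * X := by
      have h2 : (C (C α * A i - C β * A j) + C (C α * B i - C β * B j) * X : k[X][X]) =
          C (C α) * onE (A i) (B i) - C (C β) * onE (A j) (B j) := by
        unfold onE
        simp only [C_sub, C_mul]
        ring
      rw [h2]
      exact hab
    obtain ⟨h2, h3⟩ := wei_dvd_lin h1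
    have h4 : ∀ s, α * cfs (A i) (B i) s = β * cfs (A j) (B j) s := by
      rintro (s | s)
      · have h5 := congrArg (fun p => coeff p s) h2
        simp only [coeff_sub, coeff_C_mul, coeff_zero] at h5
        simp only [cfs, Sum.elim_inl]
        linear_combination h5
      · have h5 := congrArg (fun p => coeff p s) h3
        simp only [coeff_sub, coeff_C_mul, coeff_zero] at h5
        simp only [cfs, Sum.elim_inr]
        linear_combination h5
    have hne := sub_ne_zero.2 hst
    constructor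
    · apply (mul_eq_zero.1 (?_ : α * (cfs (A i) (B i) s * cfs (A j) (B j) t -
        cfs (A j) (B j) s * cfs (A i) (B i) t) = 0)).resolve_right hne
      linear_combination cfs (A j) (B j) t * h4 s - cfs (A j) (B j) s * h4 t
    · apply (mul_eq_zero.1 (?_ : β * (cfs (A i) (B i) s * cfs (A j) (B j) t -
        cfs (A j) (B j) s * cfs (A i) (B i) t) = 0)).resolve_right hne
      linear_combination (-(cfs (A i) (B i) s)) * h4 t + cfs (A i) (B i) t * h4 s
  have hbi : ∀ j, BiDeg (d + 1) (onE (A j) (B j)) := by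
    intro j
    unfold onE
    refine ((biDeg_C (hV.deg j).1).mono (Nat.le_succ d)).add ?_
    exact ((biDeg_C (hV.deg j).2).mul biDeg_X).mono (by omega)
  obtain ⟨⟨m0, h1⟩, h2, h3⟩ := low hT (e₀ := 6) ⟨wei_bi a b, dA1_bi a b, dA2_bi a b, dC0_bi⟩ (S := S)
    (d := d + 1) (V := fun j => onE (A j) (B j)) hbi hV.mem ⟨i, j, hnc⟩
  refine ⟨T, hT, ⟨m0, fun m1 hm1 => ?_⟩, h2, h3⟩
  have : 2 * (d + 1) * 6 + (d + 1) + 6 = 13 * d + 19 := by ring
  have h4 := h1 m1 hm1
  rwa [this] at h4

end Pool.Agent.Helper6.OD
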