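import Pool.Agent.Helper6.OD.Run

/-! Points over difference fields. -/

set_option autoImplicit false
set_option linter.unusedSectionVars false

namespace Pool.Agent.Helper6.OD

open Polynomial Pool.Agent.Helper6.FT

variable {n : ℕ}

/-- Let `σ` be an endomorphism of the field `L`. The point `t` with coordinates in `L` lies on the
plane curve `F = 0`, and `σ(t)` is the image of `t` under the rational map `(A₁ / C₀, A₂ / C₀)`; the
coefficients of these polynomials are fixed by `σ`, and the degrees are at most `e`. -/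
structure DBase {L : Type} [Field L] (e : ℕ) (σ : L →+* L) (F A₁ A₂ C₀ : L[X][X])
    (t : L × L) : Prop where
  deg : BiDeg e F ∧ BiDeg e A₁ ∧ BiDeg e A₂ ∧ BiDeg e C₀
  fix : F.map (mapRingHom σ) = F ∧ A₁.map (mapRingHom σ) = A₁ ∧ A₂.map (mapRingHom σ) = A₂ ∧
    C₀.map (mapRingHom σ) = C₀
  zero : F.evalEval t.1 t.2 = 0
  den : C₀.evalEval t.1 t.2 ≠ 0
  step : σ t.1 * C₀.evalEval t.1 t.2 = A₁.evalEval t.1 t.2 ∧
    σ t.2 * C₀.evalEval t.1 t.2 = A₂.evalEval t.1 t.2

/-- The homogeneous coordinates `x j` are not all zero and satisfy linear difference equations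
`∑ P_k(t) σ^k(x_j) = 0` of order at most `r` with polynomials `P_k` of degree at most `e` whose
coefficients are fixed by `σ`, and `P_k(t) ≠ 0` for some `k`. -/
def DEqn {L : Type} [Field L] (r e : ℕ) (σ : L →+* L) (t : L × L) (x : Fin (n + 1) → L) : Prop :=
  x ≠ 0 ∧ ∀ j, ∃ P : ℕ → L[X][X], (∀ k, BiDeg e (P k) ∧ (P k).map (mapRingHom σ) = P k) ∧
    (∃ k ≤ r, (P k).evalEval t.1 t.2 ≠ 0) ∧
    ∑ k ∈ Finset.range (r + 1), (P k).evalEval t.1 t.2 * (⇑σ)^[k] (x j) = 0

theorem biDeg_map {R R' : Type} [CommRing R] [CommRing R'] (φ : R →+* R') {e : ℕ} {p : R[X][X]}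
    (h : BiDeg e p) : BiDeg e (p.map (mapRingHom φ)) := by
  refine ⟨natDegree_map_le.trans h.1, fun m => ?_⟩
  rw [coeff_map]
  exact natDegree_map_le.trans (h.2 m)

theorem pow_fix2 {L Ω : Type} [Field L] [Field Ω] (ι : L →+* Ω) {σ : L →+* L} {p : L[X][X]}
    (h : p.map (mapRingHom σ) = p) (m : ℕ) :
    p.map (mapRingHom (ι.comp (σ ^ m))) = p.map (mapRingHom ι) := by
  induction m with
  | zero => rfl
  | succ m ih =>
    have h1 : ι.comp (σ ^ (m + 1)) = (ι.comp (σ ^ m)).comp σ := by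
      rw [RingHom.comp_assoc, pow_succ]
      rfl
    rw [h1, ← mapRingHom_comp, ← Polynomial.map_map, h, ih]

theorem pow_fixm {L Ω : Type} [Field L] [Field Ω] (ι : L →+* Ω) {σ : L →+* L}
    {G : MvPolynomial (Fin (n + 1)) L} (h : MvPolynomial.map σ G = G) (m : ℕ) :
    MvPolynomial.map (ι.comp (σ ^ m)) G = MvPolynomial.map ι G := by
  induction m with
  | zero => rfl
  | succ m ih =>
    have h1 : ι.comp (σ ^ (m + 1)) = (ι.comp (σ ^ m)).comp σ := by
      rw [RingHom.comp_assoc, pow_succ]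
      rfl
    rw [h1, ← MvPolynomial.map_map, h, ih]

/-- **Difference fields**, uniformly: curves of bounded degree through the points. -/
theorem diff_uniform (n D r e : ℕ) : ∃ d : ℕ, ∀ (L Ω : Type) [Field L] [CharZero L] [Field Ω]
    [IsAlgClosed Ω] [Algebra L Ω] (σ : L →+* L) (S : Set (MvPolynomial (Fin (n + 1)) L)),
    (∀ G ∈ S, (∃ e' ≤ D, G.IsHomogeneous e') ∧ MvPolynomial.map σ G = G) →
    ∀ (F A₁ A₂ C₀ : L[X][X]) (t : L × L), DBase e σ F A₁ A₂ C₀ t →
      Irreducible (F.map (mapRingHom (algebraMap L Ω))) →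
      (∀ k, 0 < k → k ≤ d → ((⇑σ)^[k] t.1, (⇑σ)^[k] t.2) ≠ t) →
      ∀ x : Fin (n + 1) → L, DEqn r e σ t x → (∀ G ∈ S, MvPolynomial.eval x G = 0) →
        (∃ k, 0 < k ∧ k ≤ d ∧ ∀ u v, (⇑σ)^[k] (x u) * x v = (⇑σ)^[k] (x v) * x u) ∨
          OnRat S d (fun j => algebraMap L Ω (x j)) ∨
          OnEll Ω S d (fun j => algebraMap L Ω (x j)) := by
  obtain ⟨d, hd⟩ := run_uniform n D r e
  refine ⟨d, fun L Ω _ _ _ _ i0 σ S hS F A₁ A₂ C₀ t hb hF ht x hx hX => ?_⟩
  obtain ⟨hx0, hx⟩ := hx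
  choose P hP1 hP2 hP3 using hx
  have hcz : CharZero Ω := charZero_of_injective_algebraMap (algebraMap L Ω).injective
  let ι : L →+* Ω := algebraMap L Ω
  let τ : ℕ → L →+* Ω := fun m => ι.comp (σ ^ m)
  have hτ : ∀ (m k : ℕ) (a : L), τ (m + k) a = τ m ((⇑σ)^[k] a) := by
    intro m k a
    change ι ((σ ^ (m + k)) a) = ι ((σ ^ m) ((⇑σ)^[k] a))
    rw [pow_add, RingHom.mul_def, RingHom.comp_apply, RingHom.coe_pow σ k]
  have hτinj : ∀ m, Function.Injective (τ m) := fun m => (τ m).injective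
  have hvl : ∀ (p : L[X][X]), p.map (mapRingHom σ) = p → ∀ m,
      vl (p.map (mapRingHom ι)) (τ m t.1, τ m t.2) = τ m (vl p t) := by
    intro p hp m
    rw [← pow_fix2 ι hp m]
    exact vl_map (τ m) p t
  have horb : FOrb e d (F.map (mapRingHom ι)) (A₁.map (mapRingHom ι)) (A₂.map (mapRingHom ι))
      (C₀.map (mapRingHom ι)) (fun m => (τ m t.1, τ m t.2)) := by
    refine ⟨⟨biDeg_map ι hb.deg.1, biDeg_map ι hb.deg.2.1, biDeg_map ι hb.deg.2.2.1,
      biDeg_map ι hb.deg.2.2.2⟩, fun m _ => ?_, fun m _ => ?_, fun m _ => ⟨?_, ?_⟩,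
      fun i j hij hj h => ?_⟩
    · rw [hvl F hb.fix.1]
      rw [show vl F t = 0 from hb.zero, map_zero]
    · rw [hvl C₀ hb.fix.2.2.2, Ne, map_eq_zero]
      exact hb.den
    · rw [hvl C₀ hb.fix.2.2.2, hvl A₁ hb.fix.2.1]
      change τ (m + 1) t.1 * _ = _
      rw [hτ m 1, ← map_mul]
      exact congrArg (τ m) hb.step.1
    · rw [hvl C₀ hb.fix.2.2.2, hvl A₂ hb.fix.2.2.1]
      change τ (m + 1) t.2 * _ = _
      rw [hτ m 1, ← map_mul]
      exact congrArg (τ m) hb.step.2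
    · obtain ⟨k, rfl⟩ : ∃ k, j = i + k := ⟨j - i, by omega⟩
      refine ht k (by omega) (by omega) ?_
      have h1 := congrArg Prod.fst h
      have h2 := congrArg Prod.snd h
      simp only [hτ] at h1 h2
      exact Prod.ext (hτinj i h1).symm (hτinj i h2).symm
  let SΩ : Set (MvPolynomial (Fin (n + 1)) Ω) := (MvPolynomial.map ι) '' S
  have hSΩ : ∀ G ∈ SΩ, ∃ e' ≤ D, G.IsHomogeneous e' := by
    rintro _ ⟨G, hG, rfl⟩
    obtain ⟨⟨e', he', h⟩, -⟩ := hS G hG
    exact ⟨e', he', h.map ι⟩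
  have hrec : FRec r e d SΩ (fun j k => (P j k).map (mapRingHom ι))
      (fun m => (τ m t.1, τ m t.2)) (fun m j => τ m (x j)) := by
    refine ⟨fun j k => biDeg_map ι (hP1 j k).1, fun m _ h0 => hx0 ?_, fun m _ => ?_, fun j => ?_,
      fun j m _ => ?_⟩
    · funext j
      have h1 := congrFun h0 j
      rw [Pi.zero_apply, map_eq_zero] at h1
      exact h1
    · rintro _ ⟨G, hG, rfl⟩
      rw [← pow_fixm ι (hS G hG).2 m]
      have h1 := MvPolynomial.map_eval (τ m) x G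
      rw [hX G hG, map_zero] at h1
      exact h1.symm
    · obtain ⟨k, hk, hk0⟩ := hP2 j
      refine ⟨k, hk, ?_⟩
      rw [hvl _ (hP1 j k).2, Ne, map_eq_zero]
      exact hk0
    · have h1 := congrArg (τ m) (hP3 j)
      rw [map_zero, map_sum] at h1
      rw [← h1]
      refine Finset.sum_congr rfl fun k _ => ?_
      rw [hvl _ (hP1 j k).2, hτ, map_mul]
  rcases hd Ω SΩ hSΩ _ _ _ _ _ hF horb _ _ hrec with ⟨j, k, hk, hjk, h1⟩ | ⟨m, hm, h1⟩
  · left
    refine ⟨k, hk, by omega, fun u v => ?_⟩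
    have h2 := h1 u v
    simp only [hτ] at h2
    rw [← map_mul, ← map_mul] at h2
    exact hτinj j h2
  · right
    let i1 : Algebra L Ω := (τ m).toAlgebra
    have hmap : ∀ G ∈ S, MvPolynomial.map (τ m) G = MvPolynomial.map ι G := fun G hG =>
      pow_fixm ι (hS G hG).2 m
    have hset : (MvPolynomial.map (τ m)) '' S = SΩ := Set.image_congr hmap
    rcases h1 with h1 | h1
    · left
      have h2 : @OnRat _ L Ω _ _ i1 S d (fun j => τ m (x j)) := by
        apply (@onRat_map L Ω _ _ i1 _ S d _).1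
        change OnRat ((MvPolynomial.map (τ m)) '' S) d _
        rw [hset]
        exact h1
      exact @tr_rat L Ω Ω _ _ i1 _ i0 _ _ _ S d x h2
    · right
      have h2 : @OnEll _ L Ω _ _ i1 Ω _ _ S d (fun j => τ m (x j)) := by
        apply (@onEll_map L Ω _ _ i1 _ S d _).1
        change OnEll Ω ((MvPolynomial.map (τ m)) '' S) d _
        rw [hset]
        exact h1
      exact @tr_ell L Ω Ω _ _ i1 _ i0 _ _ _ S d x h2

end Pool.Agent.Helper6.OD
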