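import Pool.Agent.Helper6.OD.Eqv

/-! The function field of a curve with the endomorphism given by a rational self-map. -/

set_option autoImplicit false
set_option linter.unusedSectionVars false

namespace Pool.Agent.Helper6.OD

open Polynomial Filter Pool.Agent.Helper6.FT

variable {k : Type} [Field k]

/-- values over extensions -/
noncomputable def vL {L : Type} [Field L] [Algebra k L] (p : k[X][X]) (t : L × L) : L :=
  vl (p.map (mapRingHom (algebraMap k L))) t

section

variable {L : Type} [Field L] [Algebra k L]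

theorem vL_add (p q : k[X][X]) (t : L × L) : vL (p + q) t = vL p t + vL q t := by
  unfold vL; rw [Polynomial.map_add, vl_add]

theorem vL_mul (p q : k[X][X]) (t : L × L) : vL (p * q) t = vL p t * vL q t := by
  unfold vL; rw [Polynomial.map_mul, vl_mul]

theorem vL_pow (p : k[X][X]) (N : ℕ) (t : L × L) : vL (p ^ N) t = vL p t ^ N := by
  unfold vL; rw [Polynomial.map_pow, vl_pow]

theorem vL_CC (c : k) (t : L × L) : vL (C (C c) : k[X][X]) t = algebraMap k L c := by
  unfold vL; simp [vl, evalEval]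

theorem vL_CX (t : L × L) : vL (C X : k[X][X]) t = t.1 := by
  unfold vL; simp [vl, evalEval]

theorem vL_X (t : L × L) : vL (X : k[X][X]) t = t.2 := by
  unfold vL; simp [vl, evalEval]

theorem vL_id (p : k[X][X]) (t : k × k) : vL p t = vl p t := by
  induction p using ind2 with
  | hC c => rw [vL_CC, vl_CC]; rfl
  | hX => rw [vL_CX, vl_CX]
  | hY => rw [vL_X, vl_X]
  | hadd p q hp hq => rw [vL_add, vl_add, hp, hq]
  | hmul p q hp hq => rw [vL_mul, vl_mul, hp, hq]

end

/-- values at the next point, for all extensions -/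
theorem shiftU (A₁ A₂ C₀ p : k[X][X]) : ∃ (N : ℕ) (P : k[X][X]), ∀ (L : Type) [Field L] [Algebra k L]
    (t t' : L × L), t'.1 * vL C₀ t = vL A₁ t → t'.2 * vL C₀ t = vL A₂ t →
      vL p t' * vL C₀ t ^ N = vL P t := by
  induction p using ind2 with
  | hC c => exact ⟨0, C (C c), fun L _ _ t t' _ _ => by rw [pow_zero, mul_one, vL_CC, vL_CC]⟩
  | hX => exact ⟨1, A₁, fun L _ _ t t' h1 _ => by rw [pow_one, vL_CX]; exact h1⟩
  | hY => exact ⟨1, A₂, fun L _ _ t t' _ h2 => by rw [pow_one, vL_X]; exact h2⟩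
  | hadd p q hp hq =>
    obtain ⟨N, P, h1⟩ := hp
    obtain ⟨N', P', h2⟩ := hq
    refine ⟨N + N', P * C₀ ^ N' + P' * C₀ ^ N, fun L _ _ t t' h3 h4 => ?_⟩
    rw [vL_add, vL_add, vL_mul, vL_mul, vL_pow, vL_pow, ← h1 L t t' h3 h4, ← h2 L t t' h3 h4]
    ring
  | hmul p q hp hq =>
    obtain ⟨N, P, h1⟩ := hp
    obtain ⟨N', P', h2⟩ := hq
    refine ⟨N + N', P * P', fun L _ _ t t' h3 h4 => ?_⟩
    rw [vL_mul, vL_mul, ← h1 L t t' h3 h4, ← h2 L t t' h3 h4]
    ring

theorem exists_dfd0 {F A₁ A₂ C₀ : k[X][X]} {T : ℕ → k × k} (h : Orbt F A₁ A₂ C₀ T)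
    {A : Type} [CommRing A] [IsDomain A] [Algebra k A] (π : k[X][X] →ₐ[k] A)
    (hs : Function.Surjective π) (hk : ∀ p, π p = 0 ↔ F ∣ p) :
    ∃ (σ : FractionRing A →ₐ[k] FractionRing A) (t : FractionRing A × FractionRing A),
      (∀ p : k[X][X], vL p t = 0 ↔ F ∣ p) ∧ σ t.1 * vL C₀ t = vL A₁ t ∧
        σ t.2 * vL C₀ t = vL A₂ t := by
  let t : FractionRing A × FractionRing A :=
    (algebraMap A (FractionRing A) (π (C X)), algebraMap A (FractionRing A) (π X))
  have hv : ∀ p : k[X][X], vL p t = algebraMap A (FractionRing A) (π p) := by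
    intro p
    induction p using ind2 with
    | hC c =>
      rw [vL_CC]
      have h1 : π (C (C c)) = algebraMap k A c := π.commutes c
      rw [h1, ← IsScalarTower.algebraMap_apply]
    | hX => rw [vL_CX]
    | hY => rw [vL_X]
    | hadd p q hp hq => rw [vL_add, hp, hq, map_add, map_add]
    | hmul p q hp hq => rw [vL_mul, hp, hq, map_mul, map_mul]
  have hvz : ∀ p : k[X][X], vL p t = 0 ↔ F ∣ p := by
    intro p
    rw [hv, ← map_zero (algebraMap A (FractionRing A)),
      (IsFractionRing.injective A (FractionRing A)).eq_iff, hk]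
  have hC0 : vL C₀ t ≠ 0 := by
    rw [Ne, hvz]
    intro hd
    exact h.den 0 (h.all hd 0)
  let t' : FractionRing A × FractionRing A := (vL A₁ t / vL C₀ t, vL A₂ t / vL C₀ t)
  have ht1 : t'.1 * vL C₀ t = vL A₁ t := div_mul_cancel₀ _ hC0
  have ht2 : t'.2 * vL C₀ t = vL A₂ t := div_mul_cancel₀ _ hC0
  have hvt : ∀ p : k[X][X], vL p t' = 0 ↔ F ∣ p := by
    intro p
    obtain ⟨N, P, hP⟩ := shiftU A₁ A₂ C₀ p
    have h1 := hP (FractionRing A) t t' ht1 ht2
    have h2 : vL p t' = 0 ↔ F ∣ P := by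
      rw [← hvz, ← h1, mul_eq_zero, or_iff_left (pow_ne_zero _ hC0)]
    have h3 : ∀ m, vl p (T (m + 1)) * vl C₀ (T m) ^ N = vl P (T m) := by
      intro m
      have h4 := hP k (T m) (T (m + 1)) (by rw [vL_id, vL_id]; exact h.s1 m)
        (by rw [vL_id, vL_id]; exact h.s2 m)
      rwa [vL_id, vL_id, vL_id] at h4
    rw [h2]
    constructor
    · intro h4
      by_contra h5
      obtain ⟨m, h6⟩ := (eventually_atTop.1 (h.ev h5))
      apply h6 (m + 1) (Nat.le_succ m)
      have h7 := h3 m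
      rw [h.all h4] at h7
      exact (mul_eq_zero.1 h7).resolve_right (pow_ne_zero _ (h.den m))
    · intro h4
      by_contra h5
      obtain ⟨m, h6⟩ := (eventually_atTop.1 (h.ev h5))
      apply h6 m le_rfl
      rw [← h3, h.all h4, zero_mul]
  -- the endomorphism
  let ψ : k[X][X] →ₐ[k] FractionRing A :=
    { toRingHom := (evalEvalRingHom t'.1 t'.2).comp
        (mapRingHom (mapRingHom (algebraMap k (FractionRing A))))
      commutes' := fun c => by
        change vL (C (C c)) t' = _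
        rw [vL_CC] }
  have hψ : ∀ p, ψ p = vL p t' := fun p => rfl
  have hkr : ∀ a ∈ RingHom.ker π, ψ a = 0 := by
    intro a ha
    rw [hψ, hvt, ← hk]
    exact ha
  let ψ' : A →ₐ[k] FractionRing A := AlgHom.liftOfSurjective π hs ψ (by
    intro a ha
    exact hkr a ha)
  have hψ' : ∀ p, ψ' (π p) = vL p t' := fun p => by
    rw [← hψ]
    exact AlgHom.liftOfSurjective_apply π hs ψ _ p
  have hinj : Function.Injective ψ' := by
    rw [injective_iff_map_eq_zero]
    intro a ha
    obtain ⟨p, rfl⟩ := hs a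
    rw [hψ', hvt] at ha
    exact (hk p).2 ha
  let σ : FractionRing A →ₐ[k] FractionRing A := IsFractionRing.liftAlgHom (g := ψ') hinj
  have hσ : ∀ p, σ (algebraMap A (FractionRing A) (π p)) = vL p t' := by
    intro p
    have h1 : σ (algebraMap A (FractionRing A) (π p)) = ψ' (π p) :=
      IsFractionRing.lift_algebraMap hinj _
    rw [h1, hψ']
  refine ⟨σ, t, hvz, ?_, ?_⟩
  · have h1 : σ t.1 = t'.1 := by
      have h2 := hσ (C X)
      rwa [vL_CX] at h2
    rw [h1]
    exact ht1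
  · have h1 : σ t.2 = t'.2 := by
      have h2 := hσ X
      rwa [vL_X] at h2
    rw [h1]
    exact ht2

theorem exists_quot {F : k[X][X]} (hF : Irreducible F) : ∃ (A : Type) (_ : CommRing A)
    (_ : IsDomain A) (_ : Algebra k A) (π : k[X][X] →ₐ[k] A), Function.Surjective π ∧
      ∀ p, π p = 0 ↔ F ∣ p := by
  have hF : Prime F := hF.prime
  have hpr : (Ideal.span {F} : Ideal k[X][X]).IsPrime :=
    (Ideal.span_singleton_prime hF.ne_zero).2 hF
  refine ⟨k[X][X] ⧸ (Ideal.span {F} : Ideal k[X][X]), inferInstance, Ideal.Quotient.isDomain _,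
    inferInstance, Ideal.Quotient.mkₐ k (Ideal.span {F} : Ideal k[X][X]),
    Ideal.Quotient.mkₐ_surjective k _, fun p => ?_⟩
  have h1 : (Ideal.Quotient.mkₐ k (Ideal.span {F} : Ideal k[X][X])) p =
    Ideal.Quotient.mk (Ideal.span {F} : Ideal k[X][X]) p := rfl
  rw [h1, Ideal.Quotient.eq_zero_iff_mem, Ideal.mem_span_singleton]

/-- **The difference field of an orbit.** -/
theorem exists_dfd {F A₁ A₂ C₀ : k[X][X]} {T : ℕ → k × k} (h : Orbt F A₁ A₂ C₀ T) :
    ∃ (L : Type) (_ : Field L) (_ : Algebra k L) (σ : L →ₐ[k] L) (t : L × L),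
      (∀ p : k[X][X], vL p t = 0 ↔ F ∣ p) ∧ σ t.1 * vL C₀ t = vL A₁ t ∧
        σ t.2 * vL C₀ t = vL A₂ t := by
  obtain ⟨A, _, _, _, π, hs, hk⟩ := exists_quot h.irr
  obtain ⟨σ, t, h1, h2, h3⟩ := exists_dfd0 h π hs hk
  exact ⟨FractionRing A, inferInstance, inferInstance, σ, t, h1, h2, h3⟩

end Pool.Agent.Helper6.OD
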