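import Pool.Agent.Helper6.OD.Dfd

/-! Points over the difference fields of orbits. -/

set_option autoImplicit false
set_option linter.unusedSectionVars false

namespace Pool.Agent.Helper6.OD

open Polynomial Filter Pool.Agent.Helper6.FT

variable {k : Type} [Field k] {L : Type} [Field L] [Algebra k L] {n : ℕ}

theorem vL_sigma (σ : L →ₐ[k] L) (p : k[X][X]) (t : L × L) :
    σ (vL p t) = vL p (σ t.1, σ t.2) := by
  induction p using ind2 with
  | hC c => rw [vL_CC, vL_CC, AlgHom.commutes]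
  | hX => rw [vL_CX, vL_CX]
  | hY => rw [vL_X, vL_X]
  | hadd p q hp hq => rw [vL_add, vL_add, map_add, hp, hq]
  | hmul p q hp hq => rw [vL_mul, vL_mul, map_mul, hp, hq]

theorem vL_sub (p q : k[X][X]) (t : L × L) : vL (p - q) t = vL p t - vL q t := by
  unfold vL; rw [Polynomial.map_sub]; simp [vl, evalEval]

theorem vL_one (t : L × L) : vL (1 : k[X][X]) t = 1 := by
  unfold vL; rw [Polynomial.map_one, vl_one]

variable {F A₁ A₂ C₀ : k[X][X]} {T : ℕ → k × k} {σ : L →ₐ[k] L} {t : L × L}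

/-- iterated shifts, in the difference field and along the orbit -/
theorem shiftB (h : Orbt F A₁ A₂ C₀ T) (h1 : σ t.1 * vL C₀ t = vL A₁ t)
    (h2 : σ t.2 * vL C₀ t = vL A₂ t) (l : ℕ) (p : k[X][X]) :
    ∃ D P : k[X][X], (∀ m, vl D (T m) ≠ 0) ∧ (∀ m, vl p (T (m + l)) * vl D (T m) = vl P (T m)) ∧
      (⇑σ)^[l] (vL p t) * vL D t = vL P t := by
  induction l with
  | zero => exact ⟨1, p, fun m => by rw [vl_one]; exact one_ne_zero,
      fun m => by rw [vl_one, mul_one, Nat.add_zero], by rw [vL_one, mul_one]; rfl⟩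
  | succ l ih =>
    obtain ⟨D, P, hD, hP, hσ⟩ := ih
    obtain ⟨N1, P1, h3⟩ := shiftU A₁ A₂ C₀ D
    obtain ⟨N2, P2, h4⟩ := shiftU A₁ A₂ C₀ P
    have h3k : ∀ m, vl D (T (m + 1)) * vl C₀ (T m) ^ N1 = vl P1 (T m) := by
      intro m
      have h5 := h3 k (T m) (T (m + 1)) (by rw [vL_id, vL_id]; exact h.s1 m)
        (by rw [vL_id, vL_id]; exact h.s2 m)
      rwa [vL_id, vL_id, vL_id] at h5
    have h4k : ∀ m, vl P (T (m + 1)) * vl C₀ (T m) ^ N2 = vl P2 (T m) := by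
      intro m
      have h5 := h4 k (T m) (T (m + 1)) (by rw [vL_id, vL_id]; exact h.s1 m)
        (by rw [vL_id, vL_id]; exact h.s2 m)
      rwa [vL_id, vL_id, vL_id] at h5
    refine ⟨P1 * C₀ ^ N2, P2 * C₀ ^ N1, fun m => ?_, fun m => ?_, ?_⟩
    · rw [vl_mul, vl_pow, ← h3k]
      exact mul_ne_zero (mul_ne_zero (hD _) (pow_ne_zero _ (h.den m))) (pow_ne_zero _ (h.den m))
    · rw [vl_mul, vl_mul, vl_pow, vl_pow, ← h3k, ← h4k, ← hP,
        show m + 1 + l = m + (l + 1) by omega]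
      ring
    · rw [Function.iterate_succ_apply', vL_mul, vL_mul, vL_pow, vL_pow,
        ← h3 L t (σ t.1, σ t.2) h1 h2, ← h4 L t (σ t.1, σ t.2) h1 h2, ← vL_sigma, ← vL_sigma, ← hσ,
        map_mul]
      ring

theorem per_dfd (h : Orbt F A₁ A₂ C₀ T) (hz : ∀ p : k[X][X], vL p t = 0 ↔ F ∣ p)
    (h1 : σ t.1 * vL C₀ t = vL A₁ t) (h2 : σ t.2 * vL C₀ t = vL A₂ t)
    {l : ℕ} {p q p' q' : k[X][X]}
    (hper : (⇑σ)^[l] (vL p t) * vL q t = (⇑σ)^[l] (vL p' t) * vL q' t) (m : ℕ) :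
    vl p (T (m + l)) * vl q (T m) = vl p' (T (m + l)) * vl q' (T m) := by
  obtain ⟨D1, P1, hD1, hP1, hs1⟩ := shiftB h h1 h2 l p
  obtain ⟨D2, P2, hD2, hP2, hs2⟩ := shiftB h h1 h2 l p'
  have h3 : vL (P1 * D2 * q - P2 * D1 * q') t = 0 := by
    rw [vL_sub, vL_mul, vL_mul, vL_mul, vL_mul, ← hs1, ← hs2]
    linear_combination (vL D1 t * vL D2 t) * hper
  have h4 := h.all ((hz _).1 h3) m
  rw [vl_sub, vl_mul, vl_mul, vl_mul, vl_mul, ← hP1, ← hP2] at h4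
  apply mul_left_cancel₀ (mul_ne_zero (hD1 m) (hD2 m))
  linear_combination h4

theorem t_dfd (h : Orbt F A₁ A₂ C₀ T) (hz : ∀ p : k[X][X], vL p t = 0 ↔ F ∣ p)
    (h1 : σ t.1 * vL C₀ t = vL A₁ t) (h2 : σ t.2 * vL C₀ t = vL A₂ t) (l : ℕ) (hl : 0 < l) :
    ((⇑σ)^[l] t.1, (⇑σ)^[l] t.2) ≠ t := by
  intro heq
  have h3 := congrArg Prod.fst heq
  have h4 := congrArg Prod.snd heq
  change (⇑σ)^[l] t.1 = t.1 at h3
  change (⇑σ)^[l] t.2 = t.2 at h4
  have h5 := per_dfd h hz h1 h2 (l := l) (p := C X) (q := 1) (p' := 1) (q' := C X) (by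
    rw [vL_CX, vL_one, h3, iterate_map_one]; ring) 0
  have h6 := per_dfd h hz h1 h2 (l := l) (p := X) (q := 1) (p' := 1) (q' := X) (by
    rw [vL_X, vL_one, h4, iterate_map_one]; ring) 0
  rw [vl_CX, vl_one, vl_one, vl_CX, mul_one, one_mul] at h5
  rw [vl_X, vl_one, vl_one, vl_X, mul_one, one_mul] at h6
  have h7 := h.inj (Prod.ext h5 h6)
  omega

theorem cmp_map {R R' : Type} [Field R] [Field R'] (φ : R →+* R') (e : ℕ) (A₁ A₂ C₀ p : R[X][X]) :
    (cmp e A₁ A₂ C₀ p).map (mapRingHom φ) =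
      cmp e (A₁.map (mapRingHom φ)) (A₂.map (mapRingHom φ)) (C₀.map (mapRingHom φ))
        (p.map (mapRingHom φ)) := by
  unfold cmp
  simp only [Polynomial.map_sum, Polynomial.map_mul, Polynomial.map_pow, map_C, coe_mapRingHom,
    coeff_map]

/-- polynomials with coefficients in `k` -/
theorem fix_k (σ : L →ₐ[k] L) (p : k[X][X]) :
    (p.map (mapRingHom (algebraMap k L))).map (mapRingHom (σ : L →+* L)) =
      p.map (mapRingHom (algebraMap k L)) := by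
  rw [Polynomial.map_map, mapRingHom_comp]
  congr 2
  ext c
  exact σ.commutes c

theorem base_dfd (hz : ∀ p : k[X][X], vL p t = 0 ↔ F ∣ p) (h : Orbt F A₁ A₂ C₀ T)
    (h1 : σ t.1 * vL C₀ t = vL A₁ t) (h2 : σ t.2 * vL C₀ t = vL A₂ t) {e : ℕ}
    (hd : BiDeg e F ∧ BiDeg e A₁ ∧ BiDeg e A₂ ∧ BiDeg e C₀) :
    DBase e (σ : L →+* L) (F.map (mapRingHom (algebraMap k L)))
      (A₁.map (mapRingHom (algebraMap k L))) (A₂.map (mapRingHom (algebraMap k L)))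
      (C₀.map (mapRingHom (algebraMap k L))) t :=
  ⟨⟨biDeg_map _ hd.1, biDeg_map _ hd.2.1, biDeg_map _ hd.2.2.1, biDeg_map _ hd.2.2.2⟩,
    ⟨fix_k σ _, fix_k σ _, fix_k σ _, fix_k σ _⟩, (hz F).2 dvd_rfl,
    fun h0 => h.den 0 (h.all ((hz C₀).1 h0) 0), h1, h2⟩

theorem irr_dfd [IsAlgClosed k] {F : k[X][X]} (hF : Irreducible F) :
    Irreducible ((F.map (mapRingHom (algebraMap k L))).map
      (mapRingHom (algebraMap L (AlgebraicClosure L)))) := by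
  have h1 : F.map (mapRingHom (algebraMap k k)) = F := by
    have h2 : (mapRingHom (algebraMap k k)) = RingHom.id _ := by
      have h3 : algebraMap k k = RingHom.id k := rfl
      rw [h3, mapRingHom_id]
    rw [h2, Polynomial.map_id]
  have h2 : Irreducible (F.map (mapRingHom (algebraMap k (AlgebraicClosure L)))) :=
    tr_irr (M := k) (Ω := k) (by rw [h1]; exact hF)
  rw [Polynomial.map_map, mapRingHom_comp]
  rwa [IsScalarTower.algebraMap_eq k L (AlgebraicClosure L)] at h2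

theorem eqn_dfd (hz : ∀ p : k[X][X], vL p t = 0 ↔ F ∣ p) (h : Orbt F A₁ A₂ C₀ T)
    (h1 : σ t.1 * vL C₀ t = vL A₁ t) (h2 : σ t.2 * vL C₀ t = vL A₂ t) {e₀ d : ℕ}
    (hd : BiDeg e₀ F ∧ BiDeg e₀ A₁ ∧ BiDeg e₀ A₂ ∧ BiDeg e₀ C₀) {V : Fin (n + 1) → k[X][X]}
    (hV : ∀ j, BiDeg d (V j)) (hne : ∃ j, ¬ F ∣ V j) :
    DEqn 1 (2 * d * e₀ + d + e₀) (σ : L →+* L) t (fun j => vL (V j) t) := by
  classical
  obtain ⟨j0, hj0⟩ := hne
  refine ⟨fun h0 => hj0 ((hz _).1 (congrFun h0 j0)), fun j => ?_⟩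
  by_cases hj : F ∣ V j
  · refine ⟨fun _ => 1, fun _ => ⟨?_, Polynomial.map_one _⟩, ⟨0, Nat.zero_le _, ?_⟩, ?_⟩
    · exact (biDeg_C (p := 1) (by simp) : BiDeg _ (C 1)).mono (Nat.zero_le _)
    · simp [evalEval]
    · have h3 : vL (V j) t = 0 := (hz _).2 hj
      simp only [h3, iterate_map_zero, mul_zero, Finset.sum_const_zero]
  · refine ⟨fun l => (if l = 0 then cmp d A₁ A₂ C₀ (V j) else -(C₀ ^ (2 * d) * V j)).map
      (mapRingHom (algebraMap k L)), fun l => ⟨?_, fix_k σ _⟩, ⟨1, le_rfl, ?_⟩, ?_⟩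
    · apply biDeg_map
      split_ifs
      · exact (biDeg_cmp hd.2.1 hd.2.2.1 hd.2.2.2).mono (by omega)
      · exact (((hd.2.2.2.pow (2 * d)).mul (hV j)).neg).mono (by omega)
    · change vL (-(C₀ ^ (2 * d) * V j)) t ≠ 0
      rw [Ne, hz]
      rintro ⟨Q, hQ⟩
      have h3 : F ∣ C₀ ^ (2 * d) * V j := ⟨-Q, by linear_combination (-1 : k[X][X]) * hQ⟩
      rcases h.irr.prime.dvd_or_dvd h3 with h4 | h4
      · exact h.den 0 (h.all (h.irr.prime.dvd_of_dvd_pow h4) 0)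
      · exact hj h4
    · rw [Finset.sum_range_succ, Finset.sum_range_one]
      change vL (cmp d A₁ A₂ C₀ (V j)) t * vL (V j) t +
        vL (-(C₀ ^ (2 * d) * V j)) t * σ (vL (V j) t) = 0
      have h3 : vL (cmp d A₁ A₂ C₀ (V j)) t = vL C₀ t ^ (2 * d) * vL (V j) (σ t.1, σ t.2) := by
        unfold vL
        rw [cmp_map]
        exact vl_cmp (biDeg_map _ (hV j)) h1 h2
      have h4 : vL (-(C₀ ^ (2 * d) * V j)) t = -(vL C₀ t ^ (2 * d) * vL (V j) t) := by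
        have h5 : (-(C₀ ^ (2 * d) * V j)) = 0 - C₀ ^ (2 * d) * V j := by ring
        rw [h5, vL_sub, vL_mul, vL_pow]
        have h6 : vL (0 : k[X][X]) t = 0 := by
          unfold vL; rw [Polynomial.map_zero, vl_zero]
        rw [h6, zero_sub]
      rw [h3, h4, vL_sigma]
      ring

/-- values of forms -/
theorem aeval_vL (V : Fin (n + 1) → k[X][X]) (G : MvPolynomial (Fin (n + 1)) k) (t : L × L) :
    MvPolynomial.aeval (fun j => vL (V j) t) G = vL (MvPolynomial.aeval V G) t := by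
  induction G using MvPolynomial.induction_on with
  | C a =>
    rw [MvPolynomial.aeval_C, MvPolynomial.aeval_C]
    exact (vL_CC a t).symm
  | add p q hp hq => rw [map_add, map_add, vL_add, hp, hq]
  | mul_X p i hp => rw [map_mul, map_mul, vL_mul, hp, MvPolynomial.aeval_X, MvPolynomial.aeval_X]

/-- **Points over difference fields on curves.** -/
theorem low_df [IsAlgClosed k] (h : Orbt F A₁ A₂ C₀ T) {e₀ d : ℕ}
    (hd : BiDeg e₀ F ∧ BiDeg e₀ A₁ ∧ BiDeg e₀ A₂ ∧ BiDeg e₀ C₀) {V : Fin (n + 1) → k[X][X]}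
    (hV : ∀ j, BiDeg d (V j)) (hw : Wdr (fun m j => vl (V j) (T m))) :
    ∃ (L : Type) (_ : Field L) (_ : Algebra k L) (σ : L →ₐ[k] L) (F' A₁' A₂' C₀' : L[X][X])
      (t : L × L) (x : Fin (n + 1) → L), DBase (2 * d * e₀ + d + e₀) (σ : L →+* L) F' A₁' A₂' C₀' t ∧
      Irreducible (F'.map (mapRingHom (algebraMap L (AlgebraicClosure L)))) ∧
      (∀ l, 0 < l → ((⇑σ)^[l] t.1, (⇑σ)^[l] t.2) ≠ t) ∧
      DEqn 1 (2 * d * e₀ + d + e₀) (σ : L →+* L) t x ∧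
      (∀ G : MvPolynomial (Fin (n + 1)) k, MvPolynomial.aeval x G = 0 ↔
        F ∣ (MvPolynomial.aeval V G : k[X][X])) ∧
      ∀ l, 0 < l → ∃ u v, (⇑σ)^[l] (x u) * x v ≠ (⇑σ)^[l] (x v) * x u := by
  obtain ⟨L, _, _, σ, t, hz, h1, h2⟩ := exists_dfd h
  have he : e₀ ≤ 2 * d * e₀ + d + e₀ := Nat.le_add_left _ _
  have hper : ∀ l, 0 < l → ∃ u v, (⇑σ)^[l] (vL (V u) t) * vL (V v) t ≠
      (⇑σ)^[l] (vL (V v) t) * vL (V u) t := by
    intro l hl
    by_contra hcon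
    push Not at hcon
    obtain ⟨m, u, v, huv⟩ := (hw l hl).exists
    exact huv (per_dfd h hz h1 h2 (hcon u v) m)
  refine ⟨L, inferInstance, inferInstance, σ, _, _, _, _, t, fun j => vL (V j) t,
    base_dfd hz h h1 h2 ⟨hd.1.mono he, hd.2.1.mono he, hd.2.2.1.mono he, hd.2.2.2.mono he⟩,
    irr_dfd h.irr, fun l hl => t_dfd h hz h1 h2 l hl, eqn_dfd hz h h1 h2 hd hV ?_, fun G => ?_,
    hper⟩
  · by_contra hcon
    push Not at hcon
    obtain ⟨u, v, huv⟩ := hper 1 one_pos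
    apply huv
    rw [(hz (V v)).2 (hcon v), (hz (V u)).2 (hcon u), mul_zero]
  · rw [aeval_vL, hz]

end Pool.Agent.Helper6.OD
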