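import Pool.Agent.Helper6.OD.Crv
import Pool.Agent.Helper6.OD.DF
import Pool.Agent.Helper6.FT.Stm

/-! Notions of hyperbolicity given by linear recurrences. -/

set_option autoImplicit false
set_option linter.unusedSectionVars false

namespace Pool.Agent.Helper6.OD

open Polynomial Filter Pool.Agent.Helper6.FT

section

variable {k : Type} [Field k] [CharZero k] [IsAlgClosed k] {n : ℕ}
  {X : Set (MvPolynomial (Fin (n + 1)) k)}

theorem not_onRat (h : NoCurves X) {K : Type} [Field K] [Algebra k K] {d : ℕ}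
    {η : Fin (n + 1) → K} : ¬ OnRat X d η := by
  rintro ⟨V, hV, -⟩
  have h1 : OnRat X d (fun _ => algebraMap k K (0 : k)) :=
    ⟨V, hV, 0, 0, fun j => by rw [map_zero, zero_mul]⟩
  obtain ⟨W, hW, -⟩ := tr_rat (M := k) (Ω := k) (E := K) (η := fun _ => 0) h1
  exact (h d).1 W hW

theorem not_onEll (h : NoCurves X) {K : Type} [Field K] [Algebra k K] [IsAlgClosed K] {d : ℕ}
    {η : Fin (n + 1) → K} : ¬ OnEll K X d η := by
  rintro ⟨a, b, A, B, hV, -⟩
  obtain ⟨y, hy⟩ := IsAlgClosed.exists_pow_nat_eq b (n := 2) (by norm_num)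
  have h1 : OnEll K X d (fun _ => algebraMap k K (0 : k)) :=
    ⟨a, b, A, B, hV, 0, 0, y, by rw [hy]; simp, fun j => by rw [map_zero, zero_mul]⟩
  obtain ⟨a', b', A', B', hW, -⟩ := tr_ell (M := k) (Ω := k) (E := K) (η := fun _ => 0) h1
  exact (h d).2 a' b' A' B' hW

theorem forms_map {L : Type} [Field L] [Algebra k L] {D : ℕ}
    (hX : ∀ F ∈ X, ∃ e' ≤ D, F.IsHomogeneous e') :
    ∀ F ∈ (MvPolynomial.map (algebraMap k L)) '' X, ∃ e' ≤ D, F.IsHomogeneous e' := by
  rintro _ ⟨F, hF, rfl⟩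
  obtain ⟨e', he, hh⟩ := hX F hF
  exact ⟨e', he, hh.map _⟩

variable (X)

/-- **Finite sequences.** For all `r`, `e` there is `d` such that every sequence of `d + 1` points of
the zero set of `X` over an algebraically closed field `K` containing `k`, whose homogeneous
coordinates satisfy linear recurrences of order at most `r` with coefficients of degree at most `e`
on an orbit of length `d` and degree at most `e` on a curve over `K`, has a repetition. -/
def RunFin : Prop :=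
  ∀ r e : ℕ, ∃ d : ℕ, ∀ (K : Type) [Field K] [Algebra k K] [IsAlgClosed K]
    (F A₁ A₂ C₀ : K[X][X]) (T : ℕ → K × K), Irreducible F → FOrb e d F A₁ A₂ C₀ T →
    ∀ (P : Fin (n + 1) → ℕ → K[X][X]) (x : ℕ → Fin (n + 1) → K),
      FRec r e d ((MvPolynomial.map (algebraMap k K)) '' X) P T x →
      ∃ j l, 0 < l ∧ j + l ≤ d ∧ ∀ u v, x (j + l) u * x j v = x (j + l) v * x j u

/-- **Infinite sequences.** All infinite sequences of points of the zero set of `X` over `k`, whose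
homogeneous coordinates satisfy linear recurrences with polynomial coefficients on an infinite orbit
of a rational self-map of a curve, are eventually periodic. -/
def EvPer : Prop :=
  ∀ (r e : ℕ) (x : ℕ → Fin (n + 1) → k), OSeq r e X x → EPer x

variable {X}

theorem OSeq.orbt {r e : ℕ} {S : Set (MvPolynomial (Fin (n + 1)) k)} {x : ℕ → Fin (n + 1) → k}
    (h : OSeq r e S x) : ∃ (F A₁ A₂ C₀ : k[X][X]) (T : ℕ → k × k)
      (P : Fin (n + 1) → ℕ → k[X][X]), Orbt F A₁ A₂ C₀ T ∧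
      ∀ B, FOrb e B F A₁ A₂ C₀ T ∧ FRec r e B S P T x := by
  obtain ⟨F, A₁, A₂, C₀, T, P, hF, hB⟩ := h
  refine ⟨F, A₁, A₂, C₀, T, P, ⟨hF, fun i j hij => ?_, fun m => (hB m).1.zero m le_rfl,
    fun m => (hB (m + 1)).1.den m (Nat.lt_succ_self m),
    fun m => ((hB (m + 1)).1.step m (Nat.lt_succ_self m)).1,
    fun m => ((hB (m + 1)).1.step m (Nat.lt_succ_self m)).2⟩, hB⟩
  rcases lt_trichotomy i j with h1 | h1 | h1
  · exact absurd hij ((hB j).1.diff i j h1 le_rfl)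
  · exact h1
  · exact absurd hij.symm ((hB i).1.diff j i h1 le_rfl)

theorem evPer_of {D : ℕ} (hX : ∀ F ∈ X, ∃ e' ≤ D, F.IsHomogeneous e') (h : NoCurves X) :
    EvPer X := by
  intro r e x hx
  obtain ⟨F, A₁, A₂, C₀, T, P, hT, hB⟩ := hx.orbt
  rcases seq_qual (fun F hF => (hX F hF).imp fun _ h => h.2) hT
    (fun m => (hB m).2.ne m le_rfl) (fun j => (hB 0).2.ntr j)
    (fun j m => (hB (m + r)).2.eqn j m le_rfl) (fun m => (hB m).2.on m le_rfl) with h1 | h1
  · exact h1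
  · obtain ⟨m, d, h1 | h1⟩ := h1
    · exact absurd h1 (not_onRat h)
    · exact absurd h1 (not_onEll h)

theorem runFin_of {D : ℕ} (hX : ∀ F ∈ X, ∃ e' ≤ D, F.IsHomogeneous e') (h : NoCurves X) :
    RunFin X := by
  intro r e
  obtain ⟨d, hd⟩ := run_uniform n D r e
  refine ⟨d, fun K _ _ _ F A₁ A₂ C₀ T hF hT P x hx => ?_⟩
  have hcz : CharZero K := charZero_of_injective_algebraMap (algebraMap k K).injective
  rcases hd K _ (forms_map hX) F A₁ A₂ C₀ T hF hT P x hx with h1 | ⟨m, -, h1 | h1⟩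
  · exact h1
  · exact absurd (onRat_map.1 h1) (not_onRat h)
  · exact absurd (onEll_map.1 h1) (not_onEll h)

/-- no repetitions for a while -/
theorem Wdr.free {x : ℕ → Fin (n + 1) → k} (h : Wdr x) (d : ℕ) :
    ∀ᶠ m1 in atTop, ∀ m, m1 ≤ m → ∀ l, 0 < l → l ≤ d →
      ∃ u v, x (m + l) u * x m v ≠ x (m + l) v * x m u := by
  have h1 : ∀ᶠ m in atTop, ∀ l ∈ Finset.Icc 1 d, ∃ u v,
      x (m + l) u * x m v ≠ x (m + l) v * x m u := by
    rw [Filter.eventually_all_finset]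
    intro l hl
    exact h l (Finset.mem_Icc.1 hl).1
  obtain ⟨m1, h2⟩ := eventually_atTop.1 h1
  filter_upwards [eventually_ge_atTop m1] with m2 h3 m hm l hl hld
  exact h2 m (h3.trans hm) l (Finset.mem_Icc.2 ⟨hl, hld⟩)

theorem run_of_wdr {e : ℕ} {x : ℕ → Fin (n + 1) → k}
    (h : ∃ m0 : ℕ, ∀ m1, m0 ≤ m1 → OSeq 1 e X (fun m => x (m + m1))) (hw : Wdr x)
    (hf : RunFin X) : False := by
  obtain ⟨d, hd⟩ := hf 1 e
  obtain ⟨m0, h0⟩ := h
  obtain ⟨m1, h1, h2⟩ := ((hw.free d).and (eventually_ge_atTop m0)).exists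
  obtain ⟨F, A₁, A₂, C₀, T, P, hF, hB⟩ := h0 m1 h2
  have hXX : (MvPolynomial.map (algebraMap k k)) '' X = X := by
    have h5 : ∀ G : MvPolynomial (Fin (n + 1)) k, MvPolynomial.map (algebraMap k k) G = G :=
      fun G => MvPolynomial.map_id G
    ext G
    constructor
    · rintro ⟨G, hG, rfl⟩
      rwa [h5]
    · intro hG
      exact ⟨G, hG, h5 G⟩
  obtain ⟨j, l, hl, hjl, hrep⟩ := hd k F A₁ A₂ C₀ T hF (hB d).1 P _ (by
    rw [hXX]
    exact (hB d).2)
  obtain ⟨u, v, huv⟩ := h1 (j + m1) (Nat.le_add_left _ _) l hl (by omega)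
  apply huv
  have h3 := hrep u v
  rwa [show j + l + m1 = j + m1 + l by omega] at h3

theorem noCurves_of_run (hf : RunFin X) : NoCurves X := by
  intro d
  refine ⟨fun V hV => ?_, fun a b A B hV => ?_⟩
  · obtain ⟨h1, h2, -⟩ := low_rat hV
    exact run_of_wdr h1 h2 hf
  · obtain ⟨T, -, h1, h2, -⟩ := low_ell hV
    exact run_of_wdr h1 h2 hf

theorem wdr_ev {e : ℕ} {x : ℕ → Fin (n + 1) → k}
    (h : ∃ m0 : ℕ, ∀ m1, m0 ≤ m1 → OSeq 1 e X (fun m => x (m + m1))) (hw : Wdr x)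
    (hf : EvPer X) : False := by
  obtain ⟨m0, h0⟩ := h
  obtain ⟨m1, l, hl, h1⟩ := hf 1 e _ (h0 m0 le_rfl)
  apply hw.not_eper
  refine ⟨m1 + m0, l, hl, fun m hm i j => ?_⟩
  have h2 := h1 (m - m0) (by omega) i j
  beta_reduce at h2
  rwa [show m - m0 + l + m0 = m + l by omega, show m - m0 + m0 = m by omega] at h2

theorem noCurves_of_ev (hf : EvPer X) : NoCurves X := by
  intro d
  refine ⟨fun V hV => ?_, fun a b A B hV => ?_⟩
  · obtain ⟨h1, h2, -⟩ := low_rat hV
    exact wdr_ev h1 h2 hf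
  · obtain ⟨T, -, h1, h2, -⟩ := low_ell hV
    exact wdr_ev h1 h2 hf

end

end Pool.Agent.Helper6.OD
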