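import Pool.Agent.Helper6.OD.Dfd2

/-! The equivalences. -/

set_option autoImplicit false
set_option linter.unusedSectionVars false

namespace Pool.Agent.Helper6.OD

open Polynomial Filter Pool.Agent.Helper6.FT

section

variable {k : Type} [Field k] [CharZero k] [IsAlgClosed k] {n : ℕ}

theorem line_hd : BiDeg 1 (X : k[X][X]) ∧ BiDeg 1 (C (X + 1) : k[X][X]) ∧
    BiDeg 1 (0 : k[X][X]) ∧ BiDeg 1 (1 : k[X][X]) :=
  ⟨biDeg_X, biDeg_C (by compute_degree), ⟨by simp, fun m => by simp⟩, biDeg_one⟩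

theorem ell_hd (a b : k) : BiDeg 6 (wei a b) ∧ BiDeg 6 (dA1 a b) ∧ BiDeg 6 (dA2 a b) ∧
    BiDeg 6 (dC0 : k[X][X]) := ⟨wei_bi a b, dA1_bi a b, dA2_bi a b, dC0_bi⟩

theorem vl_line (V : Fin (n + 1) → k[X]) (m : ℕ) (j : Fin (n + 1)) :
    vl (C (V j) : k[X][X]) ((m : k), (0 : k)) = (V j).eval (m : k) := by
  simp [vl, evalEval]

theorem aeval_CC (V : Fin (n + 1) → k[X]) (G : MvPolynomial (Fin (n + 1)) k) :
    (MvPolynomial.aeval (fun j => (C (V j) : k[X][X])) G : k[X][X]) =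
      C (MvPolynomial.aeval V G) := by
  have h1 := MvPolynomial.comp_aeval_apply (f := V) (Algebra.ofId k[X] k[X][X] |>.restrictScalars k) G
  exact h1.symm

theorem X_dvd_C {p : k[X]} : (X : k[X][X]) ∣ C p ↔ p = 0 := by
  rw [X_dvd_iff, coeff_C_zero]

variable (X : Set (MvPolynomial (Fin (n + 1)) k))

/-- **Difference fields.** For all `r`, `e` there is `d` such that for every field `L` containing `k`
with an endomorphism `σ` over `k` and every point `t` of a curve over the fixed field, moved by a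
rational self-map of the curve (`DBase`), with `σ^l(t) ≠ t` for `0 < l ≤ d`, every point of the zero
set of `X` over `L`, whose homogeneous coordinates satisfy linear difference equations of order at
most `r` and degree at most `e` in `t`, is fixed by `σ^l` for some `0 < l ≤ d`. -/
def DiffPer : Prop :=
  ∀ r e : ℕ, ∃ d : ℕ, ∀ (L : Type) [Field L] [Algebra k L] (σ : L →ₐ[k] L)
    (F A₁ A₂ C₀ : L[X][X]) (t : L × L), DBase e (σ : L →+* L) F A₁ A₂ C₀ t →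
      Irreducible (F.map (mapRingHom (algebraMap L (AlgebraicClosure L)))) →
      (∀ l, 0 < l → l ≤ d → ((⇑σ)^[l] t.1, (⇑σ)^[l] t.2) ≠ t) →
      ∀ x : Fin (n + 1) → L, DEqn r e (σ : L →+* L) t x → (∀ G ∈ X, MvPolynomial.aeval x G = 0) →
        ∃ l, 0 < l ∧ l ≤ d ∧ ∀ u v, (⇑σ)^[l] (x u) * x v = (⇑σ)^[l] (x v) * x u

variable {X}

theorem fix_forms {L : Type} [Field L] [Algebra k L] (σ : L →ₐ[k] L) {D : ℕ}
    (hX : ∀ F ∈ X, ∃ e' ≤ D, F.IsHomogeneous e') :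
    ∀ G ∈ (MvPolynomial.map (algebraMap k L)) '' X,
      (∃ e' ≤ D, G.IsHomogeneous e') ∧ MvPolynomial.map (σ : L →+* L) G = G := by
  intro G hG
  refine ⟨forms_map hX G hG, ?_⟩
  obtain ⟨F, -, rfl⟩ := hG
  rw [MvPolynomial.map_map]
  have h1 : (σ : L →+* L).comp (algebraMap k L) = algebraMap k L := RingHom.ext fun c => σ.commutes c
  rw [h1]

theorem diffPer_of {D : ℕ} (hX : ∀ F ∈ X, ∃ e' ≤ D, F.IsHomogeneous e') (h : NoCurves X) :
    DiffPer X := by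
  intro r e
  obtain ⟨d, hd⟩ := diff_uniform n D r e
  refine ⟨d, fun L _ _ σ F A₁ A₂ C₀ t hb hF ht x hx hxX => ?_⟩
  have hcz : CharZero L := charZero_of_injective_algebraMap (algebraMap k L).injective
  rcases hd L (AlgebraicClosure L) (σ : L →+* L) _ (fix_forms σ hX) F A₁ A₂ C₀ t hb hF ht x hx (by
    rintro _ ⟨G, hG, rfl⟩
    rw [MvPolynomial.eval_map]
    exact hxX G hG) with h1 | h1 | h1
  · exact h1
  · exfalso
    obtain ⟨V, ⟨h2, h3, h4⟩, h5⟩ := h1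
    refine not_onRat h (K := AlgebraicClosure L) (d := d) ⟨V, ⟨h2, h3, fun F hF => ?_⟩, h5⟩
    have h6 := h4 _ ⟨F, hF, rfl⟩
    rwa [MvPolynomial.aeval_map_algebraMap] at h6
  · exfalso
    obtain ⟨a, b, A, B, ⟨h0, h2, h3, h4⟩, h5⟩ := h1
    refine not_onEll h (K := AlgebraicClosure L) (d := d)
      ⟨a, b, A, B, ⟨h0, h2, h3, fun F hF => ?_⟩, h5⟩
    have h6 := h4 _ ⟨F, hF, rfl⟩
    rwa [MvPolynomial.aeval_map_algebraMap] at h6

theorem onE_bi {d : ℕ} {A B : k[X]} (h1 : A.natDegree ≤ d) (h2 : B.natDegree ≤ d) :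
    BiDeg (d + 1) (onE A B) := by
  unfold onE
  refine ((biDeg_C h1).mono (Nat.le_succ d)).add ?_
  exact ((biDeg_C h2).mul biDeg_X).mono (by omega)

/-- points over a difference field on a rational curve -/
theorem df_rat {S : Set (MvPolynomial (Fin (n + 1)) k)} {d : ℕ} {V : Fin (n + 1) → k[X]}
    (hV : RatCurve S d V) :
    ∃ (L : Type) (_ : Field L) (_ : Algebra k L) (σ : L →ₐ[k] L) (F' A₁' A₂' C₀' : L[X][X])
      (t : L × L) (x : Fin (n + 1) → L), DBase (3 * d + 1) (σ : L →+* L) F' A₁' A₂' C₀' t ∧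
      Irreducible (F'.map (mapRingHom (algebraMap L (AlgebraicClosure L)))) ∧
      (∀ l, 0 < l → ((⇑σ)^[l] t.1, (⇑σ)^[l] t.2) ≠ t) ∧
      DEqn 1 (3 * d + 1) (σ : L →+* L) t x ∧
      (∀ G : MvPolynomial (Fin (n + 1)) k, MvPolynomial.aeval x G = 0 ↔
        (MvPolynomial.aeval V G : k[X]) = 0) ∧
      ∀ l, 0 < l → ∃ u v, (⇑σ)^[l] (x u) * x v ≠ (⇑σ)^[l] (x v) * x u := by
  obtain ⟨-, hw, -⟩ := low_rat hV
  obtain ⟨L, _, _, σ, F', A₁', A₂', C₀', t, x, h1, h2, h3, h4, h5, h6⟩ :=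
    low_df (orb_line (k := k)) line_hd (V := fun j => C (V j)) (fun j => biDeg_C (hV.deg j)) (by
      simp only [vl_line]
      exact hw)
  have he : 2 * d * 1 + d + 1 = 3 * d + 1 := by ring
  rw [he] at h1 h4
  refine ⟨L, inferInstance, inferInstance, σ, F', A₁', A₂', C₀', t, x, h1, h2, h3, h4,
    fun G => ?_, h6⟩
  rw [h5, aeval_CC, X_dvd_C]

/-- points over a difference field on an elliptic curve -/
theorem df_ell {S : Set (MvPolynomial (Fin (n + 1)) k)} {d : ℕ} {a b : k}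
    {A B : Fin (n + 1) → k[X]} (hV : EllCurve S d a b A B) :
    ∃ (L : Type) (_ : Field L) (_ : Algebra k L) (σ : L →ₐ[k] L) (F' A₁' A₂' C₀' : L[X][X])
      (t : L × L) (x : Fin (n + 1) → L), DBase (13 * d + 19) (σ : L →+* L) F' A₁' A₂' C₀' t ∧
      Irreducible (F'.map (mapRingHom (algebraMap L (AlgebraicClosure L)))) ∧
      (∀ l, 0 < l → ((⇑σ)^[l] t.1, (⇑σ)^[l] t.2) ≠ t) ∧
      DEqn 1 (13 * d + 19) (σ : L →+* L) t x ∧
      (∀ G : MvPolynomial (Fin (n + 1)) k, MvPolynomial.aeval x G = 0 ↔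
        wei a b ∣ (MvPolynomial.aeval (fun j => onE (A j) (B j)) G : k[X][X])) ∧
      ∀ l, 0 < l → ∃ u v, (⇑σ)^[l] (x u) * x v ≠ (⇑σ)^[l] (x v) * x u := by
  obtain ⟨T, hT, -, hw, -⟩ := low_ell hV
  obtain ⟨L, _, _, σ, F', A₁', A₂', C₀', t, x, h1, h2, h3, h4, h5, h6⟩ :=
    low_df hT (ell_hd a b) (V := fun j => onE (A j) (B j))
      (fun j => onE_bi (hV.deg j).1 (hV.deg j).2) hw
  have he : 2 * (d + 1) * 6 + (d + 1) + 6 = 13 * d + 19 := by ring
  rw [he] at h1 h4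
  exact ⟨L, inferInstance, inferInstance, σ, F', A₁', A₂', C₀', t, x, h1, h2, h3, h4, h5, h6⟩

theorem noCurves_of_diff (hf : DiffPer X) : NoCurves X := by
  intro d
  refine ⟨fun V hV => ?_, fun a b A B hV => ?_⟩
  · obtain ⟨L, _, _, σ, F', A₁', A₂', C₀', t, x, h1, h2, h3, h4, h5, h6⟩ := df_rat hV
    obtain ⟨d', hd'⟩ := hf 1 (3 * d + 1)
    obtain ⟨l, hl, -, hper⟩ := hd' L σ F' A₁' A₂' C₀' t h1 h2 (fun l hl _ => h3 l hl) x h4
      (fun G hG => (h5 G).2 (hV.mem G hG))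
    obtain ⟨u, v, huv⟩ := h6 l hl
    exact huv (hper u v)
  · obtain ⟨L, _, _, σ, F', A₁', A₂', C₀', t, x, h1, h2, h3, h4, h5, h6⟩ := df_ell hV
    obtain ⟨d', hd'⟩ := hf 1 (13 * d + 19)
    obtain ⟨l, hl, -, hper⟩ := hd' L σ F' A₁' A₂' C₀' t h1 h2 (fun l hl _ => h3 l hl) x h4
      (fun G hG => (h5 G).2 (hV.mem G hG))
    obtain ⟨u, v, huv⟩ := h6 l hl
    exact huv (hper u v)

/-- **The equivalences.** -/
theorem tfae_dyn {D : ℕ} (hX : ∀ F ∈ X, ∃ e' ≤ D, F.IsHomogeneous e') :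
    List.TFAE [NoCurves X, RunFin X, EvPer X, DiffPer X] := by
  tfae_have 1 → 2 := runFin_of hX
  tfae_have 2 → 1 := noCurves_of_run
  tfae_have 1 → 3 := evPer_of hX
  tfae_have 3 → 1 := noCurves_of_ev
  tfae_have 1 → 4 := diffPer_of hX
  tfae_have 4 → 1 := noCurves_of_diff
  tfae_finish

end

end Pool.Agent.Helper6.OD
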