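import Pool.Agent.Helper6.OD.Run

/-! Sequences on rational and elliptic curves. -/

set_option autoImplicit false
set_option linter.unusedSectionVars false

namespace Pool.Agent.Helper6.OD

open Polynomial Filter Pool.Agent.Helper6.FT

variable {n : ℕ} {k : Type} [Field k]

/-! ### degrees -/

theorem BiDeg.mono {R : Type} [CommRing R] {e e' : ℕ} {p : R[X][X]} (h : BiDeg e p) (he : e ≤ e') :
    BiDeg e' p := ⟨h.1.trans he, fun m => (h.2 m).trans he⟩

theorem biDeg_iff {e : ℕ} {p : k[X][X]} :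
    BiDeg e p ↔ ∀ m l, (e < m ∨ e < l) → (p.coeff m).coeff l = 0 := by
  constructor
  · rintro ⟨h1, h2⟩ m l (h | h)
    · rw [coeff_eq_zero_of_natDegree_lt (lt_of_le_of_lt h1 h), coeff_zero]
    · exact coeff_eq_zero_of_natDegree_lt (lt_of_le_of_lt (h2 m) h)
  · intro h
    refine ⟨natDegree_le_iff_coeff_eq_zero.2 fun m hm => ?_, fun m =>
      natDegree_le_iff_coeff_eq_zero.2 fun l hl => h m l (Or.inr hl)⟩
    ext l
    rw [coeff_zero]
    exact h m l (Or.inl hm)

theorem BiDeg.add {R : Type} [CommRing R] {e : ℕ} {p q : R[X][X]} (hp : BiDeg e p)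
    (hq : BiDeg e q) : BiDeg e (p + q) := by
  refine ⟨(natDegree_add_le _ _).trans (max_le hp.1 hq.1), fun m => ?_⟩
  rw [coeff_add]
  exact (natDegree_add_le _ _).trans (max_le (hp.2 m) (hq.2 m))

theorem BiDeg.neg {R : Type} [CommRing R] {e : ℕ} {p : R[X][X]} (hp : BiDeg e p) :
    BiDeg e (-p) := by
  refine ⟨by rw [natDegree_neg]; exact hp.1, fun m => ?_⟩
  rw [coeff_neg, natDegree_neg]
  exact hp.2 m

theorem BiDeg.sub {R : Type} [CommRing R] {e : ℕ} {p q : R[X][X]} (hp : BiDeg e p)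
    (hq : BiDeg e q) : BiDeg e (p - q) := by
  rw [sub_eq_add_neg]
  exact hp.add hq.neg

theorem BiDeg.mul {R : Type} [CommRing R] {e e' : ℕ} {p q : R[X][X]} (hp : BiDeg e p)
    (hq : BiDeg e' q) : BiDeg (e + e') (p * q) := by
  refine ⟨natDegree_mul_le.trans (add_le_add hp.1 hq.1), fun m => ?_⟩
  rw [coeff_mul]
  refine natDegree_sum_le_of_forall_le _ _ fun x _ => ?_
  exact natDegree_mul_le.trans (add_le_add (hp.2 _) (hq.2 _))

theorem BiDeg.pow {R : Type} [CommRing R] {e : ℕ} {p : R[X][X]} (hp : BiDeg e p) (m : ℕ) :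
    BiDeg (m * e) (p ^ m) := by
  induction m with
  | zero =>
    rw [pow_zero]
    refine ⟨by simp, fun m => ?_⟩
    rw [coeff_one]
    split_ifs <;> simp
  | succ m ih =>
    rw [pow_succ, Nat.succ_mul]
    exact ih.mul hp

theorem BiDeg.sum {R : Type} [CommRing R] {ι : Type} {e : ℕ} (s : Finset ι) {p : ι → R[X][X]}
    (h : ∀ i ∈ s, BiDeg e (p i)) : BiDeg e (∑ i ∈ s, p i) := by
  classical
  induction s using Finset.induction_on with
  | empty => exact ⟨by simp, fun m => by simp⟩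
  | insert a s ha ih =>
    rw [Finset.sum_insert ha]
    exact (h a (Finset.mem_insert_self _ _)).add (ih fun i hi => h i (Finset.mem_insert_of_mem hi))

theorem biDeg_C {R : Type} [CommRing R] {e : ℕ} {p : R[X]} (h : p.natDegree ≤ e) :
    BiDeg e (C p) := by
  refine ⟨by simp, fun m => ?_⟩
  rw [coeff_C]
  split_ifs
  · exact h
  · simp

theorem biDeg_X {R : Type} [CommRing R] [Nontrivial R] : BiDeg 1 (X : R[X][X]) := by
  refine ⟨natDegree_X_le, fun m => ?_⟩
  rw [coeff_X]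
  split_ifs <;> simp

/-! ### composition -/

/-- `C₀ ^ (2 e) p(A₁ / C₀, A₂ / C₀)` -/
noncomputable def cmp (e : ℕ) (A₁ A₂ C₀ p : k[X][X]) : k[X][X] :=
  ∑ a ∈ Finset.range (e + 1), ∑ b ∈ Finset.range (e + 1),
    C (C ((p.coeff a).coeff b)) * A₁ ^ b * A₂ ^ a * C₀ ^ (e - a) * C₀ ^ (e - b)

theorem vl_neg (p : k[X][X]) (t : k × k) : vl (-p) t = -vl p t := by
  simp [vl, evalEval]

theorem vl_sub (p q : k[X][X]) (t : k × k) : vl (p - q) t = vl p t - vl q t := by
  simp [vl, evalEval]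

theorem vl_sum {ι : Type} (s : Finset ι) (p : ι → k[X][X]) (t : k × k) :
    vl (∑ i ∈ s, p i) t = ∑ i ∈ s, vl (p i) t := by
  classical
  induction s using Finset.induction_on with
  | empty => rw [Finset.sum_empty, Finset.sum_empty, vl_zero]
  | insert a s ha ih => rw [Finset.sum_insert ha, Finset.sum_insert ha, vl_add, ih]

theorem vl_eq_sum {e : ℕ} {p : k[X][X]} (h : BiDeg e p) (t : k × k) :
    vl p t = ∑ a ∈ Finset.range (e + 1), ∑ b ∈ Finset.range (e + 1),
      (p.coeff a).coeff b * t.1 ^ b * t.2 ^ a := by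
  unfold vl
  rw [evalEval, eval_eq_sum_range' (n := e + 1) (Nat.lt_succ_iff.2 h.1), eval_finsetSum]
  refine Finset.sum_congr rfl fun a _ => ?_
  rw [eval_mul, eval_pow, eval_C, eval_eq_sum_range' (n := e + 1) (Nat.lt_succ_iff.2 (h.2 a)),
    Finset.sum_mul]

theorem vl_cmp {e : ℕ} {A₁ A₂ C₀ p : k[X][X]} (hp : BiDeg e p) {t t' : k × k}
    (h1 : t'.1 * vl C₀ t = vl A₁ t) (h2 : t'.2 * vl C₀ t = vl A₂ t) :
    vl (cmp e A₁ A₂ C₀ p) t = vl C₀ t ^ (2 * e) * vl p t' := by
  unfold cmp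
  rw [vl_sum, vl_eq_sum hp, Finset.mul_sum]
  refine Finset.sum_congr rfl fun a ha => ?_
  rw [vl_sum, Finset.mul_sum]
  refine Finset.sum_congr rfl fun b hb => ?_
  rw [vl_mul, vl_mul, vl_mul, vl_mul, vl_CC, vl_pow, vl_pow, vl_pow, vl_pow, ← h1, ← h2, mul_pow,
    mul_pow]
  have ha' : a ≤ e := Nat.lt_succ_iff.1 (Finset.mem_range.1 ha)
  have hb' : b ≤ e := Nat.lt_succ_iff.1 (Finset.mem_range.1 hb)
  have e1 : vl C₀ t ^ (2 * e) = vl C₀ t ^ a * vl C₀ t ^ (e - a) * (vl C₀ t ^ b *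
      vl C₀ t ^ (e - b)) := by
    rw [← pow_add, ← pow_add, ← pow_add]
    congr 1
    omega
  rw [e1]
  ring

theorem biDeg_cmp {e e₀ : ℕ} {A₁ A₂ C₀ p : k[X][X]} (h1 : BiDeg e₀ A₁) (h2 : BiDeg e₀ A₂)
    (h3 : BiDeg e₀ C₀) : BiDeg (2 * e * e₀) (cmp e A₁ A₂ C₀ p) := by
  unfold cmp
  refine BiDeg.sum _ fun a ha => BiDeg.sum _ fun b hb => ?_
  have ha' : a ≤ e := Nat.lt_succ_iff.1 (Finset.mem_range.1 ha)
  have hb' : b ≤ e := Nat.lt_succ_iff.1 (Finset.mem_range.1 hb)
  have h0 : BiDeg 0 (C (C ((p.coeff a).coeff b)) : k[X][X]) := biDeg_C (by simp)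
  refine (((((h0.mul (h1.pow b)).mul (h2.pow a)).mul (h3.pow (e - a))).mul
    (h3.pow (e - b)))).mono (le_of_eq ?_)
  have h4 : b + a + (e - a) + (e - b) = 2 * e := by omega
  rw [← h4]
  ring

/-! ### the sequences -/

/-- The vectors `x m` are not zero, they are zeros of the forms in `S`, and their coordinates
satisfy linear recurrences of order at most `r` whose coefficients are the values of polynomials of
degree at most `e` at the points of an infinite orbit of a rational self-map of degree at most `e` of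
an irreducible plane curve of degree at most `e`. -/
def OSeq (r e : ℕ) (S : Set (MvPolynomial (Fin (n + 1)) k)) (x : ℕ → Fin (n + 1) → k) : Prop :=
  ∃ (F A₁ A₂ C₀ : k[X][X]) (T : ℕ → k × k) (P : Fin (n + 1) → ℕ → k[X][X]), Irreducible F ∧
    ∀ B, FOrb e B F A₁ A₂ C₀ T ∧ FRec r e B S P T x

/-- The sequence of points of the projective space is eventually periodic. -/
def EPer (x : ℕ → Fin (n + 1) → k) : Prop :=
  ∃ m0 l : ℕ, 0 < l ∧ ∀ m, m0 ≤ m → ∀ i j, x (m + l) i * x m j = x (m + l) j * x m i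

theorem Orbt.shift {F A₁ A₂ C₀ : k[X][X]} {T : ℕ → k × k} (h : Orbt F A₁ A₂ C₀ T) (m0 : ℕ) :
    Orbt F A₁ A₂ C₀ fun m => T (m + m0) := by
  refine ⟨h.irr, fun a b hab => ?_, fun m => h.zero _, fun m => h.den _, fun m => ?_, fun m => ?_⟩
  · have := h.inj hab
    omega
  · have := h.s1 (m + m0)
    rwa [show m + m0 + 1 = m + 1 + m0 by omega] at this
  · have := h.s2 (m + m0)
    rwa [show m + m0 + 1 = m + 1 + m0 by omega] at this

theorem Orbt.ev {F A₁ A₂ C₀ : k[X][X]} {T : ℕ → k × k} (h : Orbt F A₁ A₂ C₀ T) {p : k[X][X]}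
    (hp : ¬ F ∣ p) : ∀ᶠ m in atTop, vl p (T m) ≠ 0 := by
  have h1 := fin_zeros h.irr hp
  have h2 : {m | vl p (T m) = 0}.Finite := by
    refine Set.Finite.of_finite_image (f := T) (h1.subset ?_) (h.inj.injOn)
    rintro _ ⟨m, hm, rfl⟩
    exact ⟨h.zero m, hm⟩
  have h3 := h2.compl_mem_cofinite
  rw [Nat.cofinite_eq_atTop] at h3
  exact h3

theorem Orbt.all {F A₁ A₂ C₀ : k[X][X]} {T : ℕ → k × k} (h : Orbt F A₁ A₂ C₀ T) {p : k[X][X]}
    (hp : F ∣ p) (m : ℕ) : vl p (T m) = 0 := by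
  obtain ⟨q, rfl⟩ := hp
  rw [vl_mul, h.zero, zero_mul]

/-- values of forms at a curve -/
theorem vl_aeval (V : Fin (n + 1) → k[X][X]) (G : MvPolynomial (Fin (n + 1)) k) (t : k × k) :
    vl (MvPolynomial.aeval V G) t = MvPolynomial.eval (fun j => vl (V j) t) G := by
  induction G using MvPolynomial.induction_on with
  | C a =>
    rw [MvPolynomial.aeval_C, MvPolynomial.eval_C]
    exact vl_CC a t
  | add p q hp hq => rw [map_add, map_add, vl_add, hp, hq]
  | mul_X p i hp => rw [map_mul, map_mul, vl_mul, hp, MvPolynomial.aeval_X, MvPolynomial.eval_X]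

/-- Each shift of the sequence of points of the projective space is eventually different from the
sequence. -/
def Wdr (x : ℕ → Fin (n + 1) → k) : Prop :=
  ∀ l, 0 < l → ∀ᶠ m in atTop, ∃ u v, x (m + l) u * x m v ≠ x (m + l) v * x m u

theorem Wdr.not_eper {x : ℕ → Fin (n + 1) → k} (h : Wdr x) : ¬ EPer x := by
  rintro ⟨m0, l, hl, h1⟩
  obtain ⟨m, h2, u, v, h3⟩ := ((eventually_ge_atTop m0).and (h l hl)).exists
  exact h3 (h1 m h2 u v)

/-- iterated shifts -/
theorem shiftK {F A₁ A₂ C₀ : k[X][X]} {T : ℕ → k × k} (h : Orbt F A₁ A₂ C₀ T) (l : ℕ)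
    (p : k[X][X]) : ∃ D P : k[X][X], (∀ m, vl D (T m) ≠ 0) ∧
      ∀ m, vl p (T (m + l)) * vl D (T m) = vl P (T m) := by
  induction l generalizing p with
  | zero => exact ⟨1, p, fun m => by rw [vl_one]; exact one_ne_zero,
      fun m => by rw [vl_one, mul_one, Nat.add_zero]⟩
  | succ l ih =>
    obtain ⟨D, P, hD, hP⟩ := ih p
    obtain ⟨N1, P1, h1⟩ := shiftP h D
    obtain ⟨N2, P2, h2⟩ := shiftP h P
    refine ⟨P1 * C₀ ^ N2, P2 * C₀ ^ N1, fun m => ?_, fun m => ?_⟩
    · rw [vl_mul, vl_pow, ← h1]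
      exact mul_ne_zero (mul_ne_zero (hD _) (pow_ne_zero _ (h.den m))) (pow_ne_zero _ (h.den m))
    · rw [vl_mul, vl_mul, vl_pow, vl_pow, ← h1, ← h2, ← hP,
        show m + 1 + l = m + (l + 1) by omega]
      ring

/-- **The sequences on a curve.** -/
theorem low {F A₁ A₂ C₀ : k[X][X]} {T : ℕ → k × k} (h : Orbt F A₁ A₂ C₀ T) {e₀ : ℕ}
    (hd : BiDeg e₀ F ∧ BiDeg e₀ A₁ ∧ BiDeg e₀ A₂ ∧ BiDeg e₀ C₀)
    {S : Set (MvPolynomial (Fin (n + 1)) k)} {d : ℕ} {V : Fin (n + 1) → k[X][X]}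
    (hV : ∀ j, BiDeg d (V j)) (hS : ∀ G ∈ S, F ∣ (MvPolynomial.aeval V G : k[X][X]))
    (hnc : ∃ i j, ∀ a b : k, F ∣ C (C a) * V i - C (C b) * V j → a = 0 ∧ b = 0) :
    (∃ m0 : ℕ, ∀ m1, m0 ≤ m1 →
      OSeq 1 (2 * d * e₀ + d + e₀) S (fun m j => vl (V j) (T (m + m1)))) ∧
      Wdr (fun m j => vl (V j) (T m)) ∧
      ∀ G : MvPolynomial (Fin (n + 1)) k, ¬ F ∣ (MvPolynomial.aeval V G : k[X][X]) →
        ∀ᶠ m in atTop, MvPolynomial.eval (fun j => vl (V j) (T m)) G ≠ 0 := by
  classical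
  obtain ⟨i0, j0, hij⟩ := hnc
  have hFi : ¬ F ∣ V i0 := by
    intro h1
    have h2 := (hij 1 0 (by
      rw [C_0, C_0, zero_mul, sub_zero, C_1, C_1, one_mul]
      exact h1)).1
    exact one_ne_zero h2
  have hev : ∀ᶠ m in atTop, ∀ j, ¬ F ∣ V j → vl (V j) (T m) ≠ 0 := by
    rw [eventually_all]
    intro j
    by_cases hj : F ∣ V j
    · exact Eventually.of_forall fun m hc => absurd hj hc
    · filter_upwards [h.ev hj] with m hm _
      exact hm
  obtain ⟨m0, hm0⟩ := eventually_atTop.1 hev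
  refine ⟨⟨m0, fun m1 hm1 => ?_⟩, ?_, fun G hG => ?_⟩
  · have hT := h.shift m1
    refine ⟨F, A₁, A₂, C₀, fun m => T (m + m1), fun j l => if F ∣ V j then 1 else
      if l = 0 then cmp d A₁ A₂ C₀ (V j) else -(C₀ ^ (2 * d) * V j), h.irr, fun B => ⟨?_, ?_⟩⟩
    · have he : e₀ ≤ 2 * d * e₀ + d + e₀ := Nat.le_add_left _ _
      exact ⟨⟨hd.1.mono he, hd.2.1.mono he, hd.2.2.1.mono he, hd.2.2.2.mono he⟩,
        fun m _ => hT.zero m, fun m _ => hT.den m, fun m _ => ⟨hT.s1 m, hT.s2 m⟩,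
        fun i j hij' _ h0 => by
          have := hT.inj h0
          omega⟩
    · refine ⟨fun j l => ?_, fun m _ h0 => ?_, fun m _ G hG => ?_, fun j => ?_, fun j m _ => ?_⟩
      · by_cases hj : F ∣ V j
        · simp only [if_pos hj]
          exact (biDeg_C (p := 1) (by simp) : BiDeg _ (C 1)).mono (Nat.zero_le _)
        · simp only [if_neg hj]
          by_cases hl : l = 0
          · simp only [if_pos hl]
            exact (biDeg_cmp hd.2.1 hd.2.2.1 hd.2.2.2).mono (by omega)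
          · simp only [if_neg hl]
            exact (((hd.2.2.2.pow (2 * d)).mul (hV j)).neg).mono (by omega)
      · exact hm0 (m + m1) (by omega) i0 hFi (congrFun h0 i0)
      · rw [← vl_aeval]
        exact h.all (hS G hG) _
      · by_cases hj : F ∣ V j
        · refine ⟨0, Nat.zero_le _, ?_⟩
          simp only [if_pos hj]
          rw [vl_one]
          exact one_ne_zero
        · refine ⟨1, le_rfl, ?_⟩
          simp only [if_neg hj, if_neg one_ne_zero]
          have h1 : vl (-(C₀ ^ (2 * d) * V j)) (T (0 + m1)) =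
              -(vl C₀ (T (0 + m1)) ^ (2 * d) * vl (V j) (T (0 + m1))) := by
            rw [vl_neg, vl_mul, vl_pow]
          rw [h1]
          exact neg_ne_zero.2 (mul_ne_zero (pow_ne_zero _ (h.den _)) (hm0 _ (by omega) j hj))
      · rw [Finset.sum_range_succ, Finset.sum_range_one]
        by_cases hj : F ∣ V j
        · simp only [h.all hj, mul_zero, add_zero]
        · simp only [if_neg hj, if_neg one_ne_zero, if_true]
          have h1 : vl (-(C₀ ^ (2 * d) * V j)) (T (m + m1)) =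
              -(vl C₀ (T (m + m1)) ^ (2 * d) * vl (V j) (T (m + m1))) := by
            rw [vl_neg, vl_mul, vl_pow]
          rw [h1, vl_cmp (hV j) (hT.s1 m) (hT.s2 m), add_zero]
          ring
  · intro l hl
    obtain ⟨D1, P1, hD1, hP1⟩ := shiftK h l (V i0)
    obtain ⟨D2, P2, hD2, hP2⟩ := shiftK h l (V j0)
    by_cases hQ : F ∣ P1 * D2 * V j0 - P2 * D1 * V i0
    · exfalso
      have hper : ∀ m, vl (V i0) (T (m + l)) * vl (V j0) (T m) =
          vl (V j0) (T (m + l)) * vl (V i0) (T m) := by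
        intro m
        have h1 := h.all hQ m
        rw [vl_sub, vl_mul, vl_mul, vl_mul, vl_mul, ← hP1, ← hP2] at h1
        have h2 : vl D1 (T m) * vl D2 (T m) ≠ 0 := mul_ne_zero (hD1 m) (hD2 m)
        apply mul_left_cancel₀ h2
        linear_combination h1
      -- the values of one period
      have hne : vl (V i0) (T m0) ≠ 0 := hm0 _ le_rfl i0 hFi
      have hall : ∀ r, vl (V i0) (T (l * r + m0)) * vl (V j0) (T m0) =
          vl (V j0) (T (l * r + m0)) * vl (V i0) (T m0) := by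
        intro r
        induction r with
        | zero => rw [Nat.mul_zero, Nat.zero_add]; ring
        | succ r ih =>
          have h1 := hper (l * r + m0)
          have h2 : l * (r + 1) + m0 = l * r + m0 + l := by ring
          rw [h2]
          have h3 : vl (V i0) (T (l * r + m0)) ≠ 0 := hm0 _ (by omega) i0 hFi
          apply mul_left_cancel₀ h3
          linear_combination vl (V i0) (T (l * r + m0 + l)) * ih +
            (vl (V i0) (T m0)) * h1
      have hdvd : F ∣ C (C (vl (V j0) (T m0))) * V i0 - C (C (vl (V i0) (T m0))) * V j0 := by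
        by_contra hcon
        obtain ⟨m2, hm2⟩ := eventually_atTop.1 (h.ev hcon)
        have h1 : m2 ≤ l * m2 + m0 := by
          have : m2 ≤ l * m2 := Nat.le_mul_of_pos_left _ hl
          omega
        apply hm2 _ h1
        rw [vl_sub, vl_mul, vl_mul, vl_CC, vl_CC]
        linear_combination hall m2
      exact hne (hij _ _ hdvd).2
    · have h1 := h.ev hQ
      filter_upwards [h1] with m hm
      refine ⟨i0, j0, fun heq => hm ?_⟩
      rw [vl_sub, vl_mul, vl_mul, vl_mul, vl_mul, ← hP1, ← hP2]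
      linear_combination (vl D1 (T m) * vl D2 (T m)) * heq
  · filter_upwards [h.ev hG] with m hm
    rw [← vl_aeval]
    exact hm

end Pool.Agent.Helper6.OD
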