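import Pool.Agent.Helper6.OD.Low

/-! Infinite orbits of the duplication on elliptic curves over algebraically closed fields. -/

set_option autoImplicit false
set_option linter.unusedSectionVars false

namespace Pool.Agent.Helper6.OD

open Polynomial Filter Pool.Agent.Helper6.FT

variable {k : Type} [Field k] [CharZero k]

/-- a valuation with `v(2) < 1` -/
theorem exists_val : ∃ (Γ : Type) (_ : LinearOrderedCommGroupWithZero Γ) (v : Valuation k Γ),
    v 2 < 1 := by
  let A : Subring k := (Int.castRingHom k).range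
  have h2 : (2 : k) ∈ A := ⟨2, by simp⟩
  let I : Ideal A := Ideal.span {⟨2, h2⟩}
  have hI : I ≠ ⊤ := by
    intro h
    rw [Ideal.eq_top_iff_one, Ideal.mem_span_singleton'] at h
    obtain ⟨⟨c, ⟨m, hm⟩⟩, hc⟩ := h
    have h3 : c * 2 = 1 := congrArg Subtype.val hc
    rw [← hm] at h3
    have h4 : ((m * 2 : ℤ) : k) = ((1 : ℤ) : k) := by
      push_cast
      exact h3
    have h5 := Int.cast_injective h4
    omega
  obtain ⟨B, -, hB⟩ := Ideal.image_subset_nonunits_valuationSubring I hI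
  have h3 : (2 : k) ∈ B.nonunits := hB ⟨⟨2, h2⟩, Ideal.subset_span rfl, rfl⟩
  exact ⟨B.ValueGroup, inferInstance, B.valuation, h3⟩

/-- the duplication increases the valuation -/
theorem dup_val {Γ : Type} [LinearOrderedCommGroupWithZero Γ] {v : Valuation k Γ} (hv : v 2 < 1)
    {a b x : k} (h1 : 1 < v x) (ha : v a < v x) (hb : v b < v x) :
    x ^ 3 + a * x + b ≠ 0 ∧ v x < v ((x ^ 4 - 2 * a * x ^ 2 - 8 * b * x + a ^ 2) /
      (4 * (x ^ 3 + a * x + b))) := by
  have hX0 : 0 < v x := zero_lt_one.trans h1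
  have h12 : v x ≤ v x ^ 2 := le_self_pow₀ h1.le (by norm_num)
  have h13 : v x ≤ v x ^ 3 := le_self_pow₀ h1.le (by norm_num)
  have h23 : v x ^ 2 ≤ v x ^ 3 := pow_le_pow_right₀ h1.le (by norm_num)
  have h24 : v x ^ 2 ≤ v x ^ 4 := pow_le_pow_right₀ h1.le (by norm_num)
  have h34 : v x ^ 3 ≤ v x ^ 4 := pow_le_pow_right₀ h1.le (by norm_num)
  have hax : v (a * x) < v x ^ 2 := by
    rw [map_mul, pow_two]
    exact mul_lt_mul_of_pos_right ha hX0
  have hc : v (x ^ 3 + a * x + b) = v x ^ 3 := by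
    have h3 : v (a * x + b) < v (x ^ 3) := by
      rw [map_pow]
      exact v.map_add_lt (hax.trans_le h23) (hb.trans_le h13)
    rw [add_assoc, v.map_add_eq_of_lt_left h3, map_pow]
  have h8 : v 8 ≤ 1 := by
    have : (8 : k) = 2 ^ 3 := by norm_num
    rw [this, map_pow]
    exact pow_le_one₀ zero_le hv.le
  have h4 : v 4 < 1 := by
    have : (4 : k) = 2 ^ 2 := by norm_num
    rw [this, map_pow]
    exact pow_lt_one₀ zero_le hv (by norm_num)
  have hn : v (x ^ 4 - 2 * a * x ^ 2 - 8 * b * x + a ^ 2) = v x ^ 4 := by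
    have e1 : x ^ 4 - 2 * a * x ^ 2 - 8 * b * x + a ^ 2 =
        x ^ 4 + (-(2 * a * x ^ 2) + (-(8 * b * x) + a ^ 2)) := by ring
    have t1 : v (-(2 * a * x ^ 2)) < v x ^ 4 := by
      rw [Valuation.map_neg, map_mul, map_mul, map_pow]
      calc v 2 * v a * v x ^ 2 ≤ 1 * v a * v x ^ 2 := by
            gcongr
        _ = v a * v x ^ 2 := by rw [one_mul]
        _ < v x * v x ^ 2 := mul_lt_mul_of_pos_right ha (pow_pos hX0 2)
        _ = v x ^ 3 := by rw [pow_succ' (v x) 2]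
        _ ≤ v x ^ 4 := h34
    have t2 : v (-(8 * b * x)) < v x ^ 4 := by
      rw [Valuation.map_neg, map_mul, map_mul]
      calc v 8 * v b * v x ≤ 1 * v b * v x := by
            gcongr
        _ = v b * v x := by rw [one_mul]
        _ < v x * v x := mul_lt_mul_of_pos_right hb hX0
        _ = v x ^ 2 := by rw [pow_two]
        _ ≤ v x ^ 4 := h24
    have t3 : v (a ^ 2) < v x ^ 4 := by
      rw [map_pow]
      exact (pow_lt_pow_left₀ ha zero_le (by norm_num)).trans_le h24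
    have h3 : v (-(2 * a * x ^ 2) + (-(8 * b * x) + a ^ 2)) < v (x ^ 4) := by
      rw [map_pow]
      exact v.map_add_lt t1 (v.map_add_lt t2 t3)
    rw [e1, v.map_add_eq_of_lt_left h3, map_pow]
  have hcne : x ^ 3 + a * x + b ≠ 0 := by
    intro h0
    rw [h0, map_zero] at hc
    exact (pow_pos hX0 3).ne hc
  refine ⟨hcne, ?_⟩
  have h40 : (4 : k) ≠ 0 := by norm_num
  set x' := (x ^ 4 - 2 * a * x ^ 2 - 8 * b * x + a ^ 2) / (4 * (x ^ 3 + a * x + b)) with hx'
  have h5 : x' * (4 * (x ^ 3 + a * x + b)) = x ^ 4 - 2 * a * x ^ 2 - 8 * b * x + a ^ 2 := by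
    rw [hx', div_mul_cancel₀ _ (mul_ne_zero h40 hcne)]
  have h6 : v x' * v 4 * v x ^ 3 = v x * v x ^ 3 := by
    have h7 := congrArg v h5
    rw [map_mul, map_mul, hc, hn] at h7
    rw [mul_assoc, h7, ← pow_succ']
  have h7 : v x' * v 4 = v x := mul_right_cancel₀ (pow_ne_zero 3 hX0.ne') h6
  by_contra hle
  rw [not_lt] at hle
  have h8' : v x' * v 4 < v x := by
    calc v x' * v 4 ≤ v x * v 4 := by gcongr
      _ < v x * 1 := mul_lt_mul_of_pos_left h4 hX0
      _ = v x := mul_one _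
  exact h8'.ne h7

/-- an infinite orbit, first coordinates -/
theorem exists_wx (a b : k) : ∃ x : ℕ → k, Function.Injective x ∧
    (∀ m, x m ^ 3 + a * x m + b ≠ 0) ∧
      ∀ m, x (m + 1) = (x m ^ 4 - 2 * a * x m ^ 2 - 8 * b * x m + a ^ 2) /
        (4 * (x m ^ 3 + a * x m + b)) := by
  obtain ⟨Γ, _, v, hv⟩ := exists_val (k := k)
  obtain ⟨x0, h1, ha, hb⟩ : ∃ x0 : k, 1 < v x0 ∧ v a < v x0 ∧ v b < v x0 := by
    obtain ⟨c, hc1, hc2, hc3⟩ : ∃ c : k, 1 ≤ v c ∧ v a ≤ v c ∧ v b ≤ v c := by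
      rcases le_total (v a) (v b) with h | h
      · rcases le_total (v b) 1 with h' | h'
        · exact ⟨1, by rw [map_one], by rw [map_one]; exact h.trans h', by rw [map_one]; exact h'⟩
        · exact ⟨b, h', h, le_rfl⟩
      · rcases le_total (v a) 1 with h' | h'
        · exact ⟨1, by rw [map_one], by rw [map_one]; exact h', by rw [map_one]; exact h.trans h'⟩
        · exact ⟨a, h', le_rfl, h⟩
    have h20 : (2 : k) ≠ 0 := two_ne_zero
    have h3 : v (c / 2) * v 2 = v c := by rw [← map_mul, div_mul_cancel₀ _ h20]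
    have hc0 : 0 < v c := zero_lt_one.trans_le hc1
    have h4 : v c < v (c / 2) := by
      by_contra hle
      rw [not_lt] at hle
      have h5 : v (c / 2) * v 2 < v c := by
        calc v (c / 2) * v 2 ≤ v c * v 2 := by gcongr
          _ < v c * 1 := mul_lt_mul_of_pos_left hv hc0
          _ = v c := mul_one _
      exact h5.ne h3
    exact ⟨c / 2, hc1.trans_lt h4, hc2.trans_lt h4, hc3.trans_lt h4⟩
  let x : ℕ → k := fun m => Nat.rec x0 (fun _ xm => (xm ^ 4 - 2 * a * xm ^ 2 - 8 * b * xm + a ^ 2) /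
    (4 * (xm ^ 3 + a * xm + b))) m
  have hrec : ∀ m, x (m + 1) = (x m ^ 4 - 2 * a * x m ^ 2 - 8 * b * x m + a ^ 2) /
        (4 * (x m ^ 3 + a * x m + b)) := fun m => rfl
  have hbig : ∀ m, 1 < v (x m) ∧ v a < v (x m) ∧ v b < v (x m) := by
    intro m
    induction m with
    | zero => exact ⟨h1, ha, hb⟩
    | succ m ih =>
      have h2 := (dup_val hv ih.1 ih.2.1 ih.2.2).2
      rw [← hrec] at h2
      exact ⟨ih.1.trans h2, ih.2.1.trans h2, ih.2.2.trans h2⟩
  have hmono : StrictMono fun m => v (x m) := by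
    refine strictMono_nat_of_lt_succ fun m => ?_
    have h2 := (dup_val hv (hbig m).1 (hbig m).2.1 (hbig m).2.2).2
    rwa [← hrec] at h2
  exact ⟨x, fun i j hij => hmono.injective (congrArg v hij),
    fun m => (dup_val hv (hbig m).1 (hbig m).2.1 (hbig m).2.2).1, hrec⟩

/-- an infinite orbit of the duplication -/
theorem exists_wxy [IsAlgClosed k] (a b : k) : ∃ x y : ℕ → k, Function.Injective x ∧
    (∀ m, y m ≠ 0) ∧ (∀ m, y m ^ 2 = x m ^ 3 + a * x m + b) ∧
      (∀ m, x (m + 1) = (x m ^ 4 - 2 * a * x m ^ 2 - 8 * b * x m + a ^ 2) / (4 * y m ^ 2)) ∧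
      ∀ m, y (m + 1) = (x m ^ 6 + 5 * a * x m ^ 4 + 20 * b * x m ^ 3 - 5 * a ^ 2 * x m ^ 2 -
        4 * a * b * x m - 8 * b ^ 2 - a ^ 3) / (8 * y m ^ 3) := by
  obtain ⟨x, hinj, hcub, hrec⟩ := exists_wx a b
  obtain ⟨y0, hy0⟩ := IsAlgClosed.exists_pow_nat_eq (x 0 ^ 3 + a * x 0 + b) (n := 2) (by norm_num)
  let y : ℕ → k := fun m => Nat.rec y0 (fun m ym => (x m ^ 6 + 5 * a * x m ^ 4 +
    20 * b * x m ^ 3 - 5 * a ^ 2 * x m ^ 2 - 4 * a * b * x m - 8 * b ^ 2 - a ^ 3) /
      (8 * ym ^ 3)) m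
  have hyrec : ∀ m, y (m + 1) = (x m ^ 6 + 5 * a * x m ^ 4 + 20 * b * x m ^ 3 -
      5 * a ^ 2 * x m ^ 2 - 4 * a * b * x m - 8 * b ^ 2 - a ^ 3) / (8 * y m ^ 3) := fun m => rfl
  have hy : ∀ m, y m ^ 2 = x m ^ 3 + a * x m + b := by
    intro m
    induction m with
    | zero => exact hy0
    | succ m ih =>
      have h1 := hcub m
      rw [hyrec, hrec]
      have h3 : (8 * y m ^ 3) ^ 2 = 64 * (x m ^ 3 + a * x m + b) ^ 3 := by
        have h4 : (8 * y m ^ 3) ^ 2 = 64 * (y m ^ 2) ^ 3 := by ring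
        rw [h4, ih]
      rw [div_pow, h3]
      have key : (x m ^ 6 + 5 * a * x m ^ 4 + 20 * b * x m ^ 3 - 5 * a ^ 2 * x m ^ 2 -
          4 * a * b * x m - 8 * b ^ 2 - a ^ 3) ^ 2 =
          (x m ^ 4 - 2 * a * x m ^ 2 - 8 * b * x m + a ^ 2) ^ 3 +
          16 * a * (x m ^ 4 - 2 * a * x m ^ 2 - 8 * b * x m + a ^ 2) *
            (x m ^ 3 + a * x m + b) ^ 2 + 64 * b * (x m ^ 3 + a * x m + b) ^ 3 := by ring
      rw [key]
      generalize x m ^ 3 + a * x m + b = w at *
      generalize x m ^ 4 - 2 * a * x m ^ 2 - 8 * b * x m + a ^ 2 = M at *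
      field_simp
      ring
  have hyne : ∀ m, y m ≠ 0 := by
    intro m h0
    apply hcub m
    rw [← hy, h0]
    ring
  exact ⟨x, y, hinj, hyne, hy, fun m => by rw [hrec, hy], hyrec⟩

/-- the Weierstrass polynomial is irreducible -/
theorem wei_irr (a b : k) : Irreducible (wei a b) := by
  have h1 := WeierstrassCurve.Affine.irreducible_polynomial (W := (⟨0, 0, 0, a, b⟩ :
    WeierstrassCurve.Affine k))
  have h2 : WeierstrassCurve.Affine.polynomial (⟨0, 0, 0, a, b⟩ : WeierstrassCurve.Affine k) =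
      wei a b := by
    unfold WeierstrassCurve.Affine.polynomial wei
    simp
  rwa [h2] at h1

/-- the numerators and the denominator of the duplication -/
noncomputable def dA1 (a b : k) : k[X][X] :=
  C (C 2 * (X ^ 4 - C (2 * a) * X ^ 2 - C (8 * b) * X + C (a ^ 2))) * X

noncomputable def dA2 (a b : k) : k[X][X] :=
  C (X ^ 6 + C (5 * a) * X ^ 4 + C (20 * b) * X ^ 3 - C (5 * a ^ 2) * X ^ 2 - C (4 * a * b) * X -
    C (8 * b ^ 2 + a ^ 3))

noncomputable def dC0 : k[X][X] := C (C 8) * X ^ 3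

theorem wei_bi (a b : k) : BiDeg 6 (wei a b) := by
  unfold wei
  refine BiDeg.sub ((biDeg_X.pow 2).mono (by norm_num)) (biDeg_C ?_)
  compute_degree
  norm_num

theorem dA1_bi (a b : k) : BiDeg 6 (dA1 a b) := by
  unfold dA1
  have h1 : BiDeg 5 (C (C 2 * (X ^ 4 - C (2 * a) * X ^ 2 - C (8 * b) * X + C (a ^ 2))) : k[X][X]) := by
    apply biDeg_C
    compute_degree
    norm_num
  exact (h1.mul biDeg_X).mono (by norm_num)

theorem dA2_bi (a b : k) : BiDeg 6 (dA2 a b) := by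
  unfold dA2
  apply biDeg_C
  compute_degree

theorem dC0_bi : BiDeg 6 (dC0 : k[X][X]) := by
  unfold dC0
  have h1 : BiDeg 0 (C (C 8) : k[X][X]) := biDeg_C (by simp)
  exact (h1.mul (biDeg_X.pow 3)).mono (by norm_num)

/-- **Infinite orbits of the duplication.** -/
theorem exists_dup [IsAlgClosed k] (a b : k) :
    ∃ T : ℕ → k × k, Orbt (wei a b) (dA1 a b) (dA2 a b) dC0 T := by
  obtain ⟨x, y, hinj, hyne, hy, hx1, hy1⟩ := exists_wxy a b
  have h8 : (8 : k) ≠ 0 := by norm_num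
  have h4 : (4 : k) ≠ 0 := by norm_num
  have hden : ∀ m, vl (dC0 : k[X][X]) (x m, y m) = 8 * y m ^ 3 := by
    intro m
    unfold dC0
    rw [vl_mul, vl_pow, vl_CC, vl_X]
  refine ⟨fun m => (x m, y m), wei_irr a b, fun i j hij => hinj (congrArg Prod.fst hij),
    fun m => ?_, fun m => ?_, fun m => ?_, fun m => ?_⟩
  · unfold wei vl
    simp only [evalEval, eval_sub, eval_pow, eval_X, eval_C, eval_add, eval_mul]
    rw [hy]
    ring
  · rw [hden]
    exact mul_ne_zero h8 (pow_ne_zero _ (hyne m))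
  · rw [hden]
    unfold dA1 vl
    simp only [evalEval, eval_sub, eval_pow, eval_X, eval_C, eval_add, eval_mul]
    rw [hx1]
    have := hyne m
    field_simp
    ring
  · rw [hden]
    unfold dA2 vl
    simp only [evalEval, eval_sub, eval_pow, eval_X, eval_C, eval_add, eval_mul]
    rw [hy1, div_mul_cancel₀ _ (mul_ne_zero h8 (pow_ne_zero _ (hyne m)))]
    ring

end Pool.Agent.Helper6.OD
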